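import Pool.Agent.MP_28f2cb_lc.H87.Exist

/-! Certifying that a modulus is large: two norm vectors with close directions. -/

namespace Pool.Agent.MP_28f2cb_lc.H87

open Finset Filter Topology

variable {P : Par}

/-- A common multiple of all cofactors. -/
def M0 (P : Par) : ℕ := (P.q ^ P.D).factorial

/-- Sum of the squares of the two by two minors. -/
noncomputable def mn (P : Par) {k : Type} [CommRing k] (X Y : Grp P k) : k :=
  ∑ a, ∑ b, (X.coeff a * Y.coeff b - X.coeff b * Y.coeff a) ^ 2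

/-- A balanced vector whose norm divides `M0 * c`. -/
def Anchor (P : Par) (R : Subring ℚ) (c : ℚ) (β : Grp P ℚ) : Prop :=
  Inv P β ∧ β.coeff 0 = 0 ∧ (∃ r : ℚ, InR R r ∧ M0 P * c = Nm P β * r) ∧
    sz0 P β ^ P.D ≤ P.q ^ P.D * Nm P β ^ 2

/-- Two anchors with close but different directions. -/
def Two (P : Par) (R : Subring ℚ) (c c' b : ℚ) : Prop :=
  ∃ β : Grp P ℚ, InR R β ∧ ∃ β' : Grp P ℚ, InR R β' ∧ Anchor P R c β ∧ Anchor P R c' β' ∧
    mn P β β' ≠ 0 ∧ (P.q ^ P.D * M0 P ^ 2 * (b + 1) ^ 4) ^ 2 * mn P β β' ≤ sz0 P β * sz0 P β'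

section dio
variable {V : Type} [Coord V]

theorem PM.mn {f g : V → Grp P ℚ} (hf : PM f) (hg : PM g) : PM fun v => mn P (f v) (g v) :=
  PM.sum _ fun _ => PM.sum _ fun _ =>
    (((hf.coeff _).mul (hg.coeff _)).sub ((hf.coeff _).mul (hg.coeff _))).pow 2

theorem dio_anchor {c : V → ℚ} {β : V → Grp P ℚ} (h1 : PM c) (h2 : PM β) :
    Dio P.Ok fun R v => Anchor P R (c v) (β v) := by
  have k1 : InR ⊥ (M0 P : ℚ) := inR_natCast _
  have k2 : InR ⊥ (P.q : ℚ) := inR_natCast _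
  refine Dio.and ?_ (Dio.and ?_ (Dio.and (Dio.ex ?_) ?_))
  · exact Dio.eq (by fun_prop) h2
  · exact Dio.eq (h2.coeff 0) (PM.const inR_zero)
  · exact Dio.eq (by fun_prop (disch := assumption)) (by fun_prop)
  · exact Dio.le P.q_odd P.ok_noInv (by fun_prop) (by fun_prop (disch := assumption))

theorem dio_two {c c' b : V → ℚ} (h1 : PM c) (h2 : PM c') (h3 : PM b) :
    Dio P.Ok fun R v => Two P R (c v) (c' v) (b v) := by
  have k1 : InR ⊥ (M0 P : ℚ) := inR_natCast _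
  have k2 : InR ⊥ (P.q : ℚ) := inR_natCast _
  have k3 : InR ⊥ (1 : ℚ) := inR_one
  exact Dio.ex (Dio.ex ((dio_anchor (by fun_prop) (by fun_prop)).and
    ((dio_anchor (by fun_prop) (by fun_prop)).and
      ((Dio.ne P.q_odd P.ok_noInv (PM.mn (by fun_prop) (by fun_prop))).and
        (Dio.le P.q_odd P.ok_noInv (PM.mul (by fun_prop (disch := assumption))
          (PM.mn (by fun_prop) (by fun_prop))) (by fun_prop))))))

end dio

theorem exists_prim {R : Subring ℚ} {β : Grp P ℚ} (hβ : InR R β) :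
    ∃ t ∈ R, ∃ γ : Grp P ℤ, β = algebraMap ℚ _ t * c0 P γ ∧ univ.gcd γ.coeff = 1 := by
  obtain ⟨d, hd, -, hb⟩ := hβ.exists_den
  obtain ⟨Y, hY⟩ := exists_c0 hb
  obtain ⟨γ, h1, h2⟩ := extract_gcd (s := univ) Y.coeff univ_nonempty
  obtain ⟨l, hl⟩ := gcd_eq_sum_mul univ Y.coeff
  have hd' : (d : ℚ) ≠ 0 := by positivity
  have hc : ∀ a, (Y.coeff a : ℚ) = d * β.coeff a := fun a => by
    rw [← coeff_c0, hY, ← map_natCast (algebraMap ℚ (Grp P ℚ)), coeff_algebraMap_mul]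
  refine ⟨(univ.gcd Y.coeff : ℤ) / d, ?_, .ofCoeff (Finsupp.equivFunOnFinite.symm γ),
    grp_ext fun a => ?_, h2⟩
  · rw [hl]
    push_cast
    simp only [hc, mul_assoc, ← mul_sum, mul_div_cancel_left₀ _ hd']
    exact sum_mem fun a _ => mul_mem (inR_rat.1 (inR_grp.1 hβ a)) (intCast_mem _ _)
  · rw [coeff_algebraMap_mul, coeff_c0, div_mul_eq_mul_div, eq_div_iff hd', mul_comm, ← hc,
      h1 a (mem_univ a)]
    push_cast; rfl

theorem dvd_of_R {R : Subring ℚ} (hR : P.Ok R) {γ : Grp P ℤ} (h1 : Inv P γ) (h0 : γ.coeff 0 = 0)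
    (hg : ∀ p : ℕ, p.Prime → ¬ ∀ a, (p : ℤ) ∣ γ.coeff a) {y : ℤ} {r : ℚ} (hr : r ∈ R)
    (e : (y : ℚ) = (Nm P γ : ℤ) * r) : Nm P γ ∣ y := by
  have hd : r.den = 1 := by
    by_contra h
    obtain ⟨p, hp, hpd⟩ := Nat.exists_prime_and_dvd h
    have e1 : y * r.den = Nm P γ * r.num := by
      have : (y : ℚ) * r.den = (Nm P γ : ℤ) * r.num := by rw [e, mul_assoc, Rat.mul_den_eq_num]
      exact_mod_cast this
    have h2 : (p : ℤ) ∣ Nm P γ * r.num := e1 ▸ (Int.natCast_dvd_natCast.2 hpd).mul_left _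
    rcases (Nat.prime_iff_prime_int.1 hp).dvd_or_dvd h2 with h3 | h3
    · exact hg p hp (aniso0 (hR r hr p hp hpd) h1 h0 h3)
    · exact hp.ne_one (Nat.eq_one_of_dvd_coprimes r.reduced (Int.natCast_dvd.1 h3) hpd)
  rw [← (Rat.den_eq_one_iff r).1 hd] at e
  exact ⟨r.num, by exact_mod_cast e⟩

theorem sz0_smul {k : Type} [CommRing k] (t : k) (X : Grp P k) :
    sz0 P (algebraMap k _ t * X) = t ^ 2 * sz0 P X := by
  simp only [sz0, coeff_algebraMap_mul, mul_sum, mul_pow]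

theorem mn_smul {k : Type} [CommRing k] (t t' : k) (X Y : Grp P k) :
    mn P (algebraMap k _ t * X) (algebraMap k _ t' * Y) = t ^ 2 * t' ^ 2 * mn P X Y := by
  simp only [mn, coeff_algebraMap_mul, mul_sum]
  exact sum_congr rfl fun _ _ => sum_congr rfl fun _ _ => by ring

theorem c0_mn (X Y : Grp P ℤ) : mn P (c0 P X) (c0 P Y) = (mn P X Y : ℤ) := by simp [mn]

theorem anchor_sound {R : Subring ℚ} (hR : P.Ok R) {c : ℚ} {β : Grp P ℚ} (hβ : InR R β)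
    (h0 : β ≠ 0) (h : Anchor P R c β) {n : ℤ} (hn : n ≠ 0) {r' : ℚ} (hr' : r' ∈ R)
    (e' : (n : ℚ) ^ 2 = c * r') : ∃ t : ℚ, t ≠ 0 ∧ ∃ γ : Grp P ℤ,
      β = algebraMap ℚ _ t * c0 P γ ∧ sz0 P γ ≤ P.q ^ P.D * M0 P ^ 2 * n ^ 4 := by
  obtain ⟨h1, h2, ⟨r, hr, e⟩, h3⟩ := h
  obtain ⟨t, ht, γ, rfl, hg⟩ := exists_prim hβ
  have ht0 : t ≠ 0 := by rintro rfl; simp at h0
  refine ⟨t, ht0, γ, rfl, ?_⟩
  have g1 : Inv P γ := by
    refine inv_of_gmap (f := Int.castRingHom ℚ) Int.cast_injective ?_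
    have := (inv_algebraMap t⁻¹).mul h1
    rwa [← mul_assoc, ← map_mul, inv_mul_cancel₀ ht0, map_one, one_mul] at this
  have g0 : γ.coeff 0 = 0 := by simpa [coeff_algebraMap_mul, ht0] using h2
  rw [sz0_smul, Nm_smul, c0_sz0, c0_Nm] at h3
  rw [Nm_smul, c0_Nm] at e
  have g2 : Nm P γ ∣ M0 P * n ^ 2 := dvd_of_R hR g1 g0 (fun p hp h => hp.ne_one (by
      have := dvd_gcd (s := univ) fun a _ => h a
      rw [hg] at this
      exact_mod_cast Int.eq_one_of_dvd_one (by positivity) this))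
    (mul_mem (mul_mem (pow_mem ht P.D) (inR_rat.1 hr)) hr') (by
      push_cast; rw [e']; linear_combination r' * e)
  have hM : (0 : ℤ) < M0 P := by exact_mod_cast Nat.factorial_pos _
  have g3 : Nm P γ ^ 2 ≤ (M0 P * n ^ 2) ^ 2 := Int.le_of_dvd (by positivity) (pow_dvd_pow_of_dvd g2 2)
  have g4 : sz0 P γ ^ P.D ≤ P.q ^ P.D * Nm P γ ^ 2 := by
    have : (t ^ P.D) ^ 2 * ((sz0 P γ : ℤ) : ℚ) ^ P.D ≤
        (t ^ P.D) ^ 2 * (P.q ^ P.D * ((Nm P γ : ℤ) : ℚ) ^ 2) := by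
      rw [mul_pow, mul_pow, ← pow_mul, mul_comm 2, pow_mul] at h3; linarith
    exact_mod_cast le_of_mul_le_mul_left this (by positivity)
  have g5 : sz0 P γ ≤ sz0 P γ ^ P.D := by
    have : 0 ≤ sz0 P γ := sum_nonneg fun _ _ => sq_nonneg _
    rcases this.eq_or_lt with h | h
    · rw [← h]; positivity
    · exact le_self_pow₀ h P.hD.ne_zero
  calc sz0 P γ ≤ P.q ^ P.D * (M0 P * n ^ 2) ^ 2 :=
        g5.trans (g4.trans (mul_le_mul_of_nonneg_left g3 (by positivity)))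
    _ = _ := by ring

theorem two_sound {R : Subring ℚ} (hR : P.Ok R) {c c' b : ℚ} (h : Two P R c c' b)
    {n n' : ℤ} (hn : n ≠ 0) (hn' : n' ≠ 0) {r r' : ℚ} (hr : r ∈ R) (hr' : r' ∈ R)
    (e : (n : ℚ) ^ 2 = c * r) (e' : (n' : ℚ) ^ 2 = c' * r') : b < |(n : ℚ)| ∨ b < |(n' : ℚ)| := by
  obtain ⟨β, hβ, β', hβ', h1, h2, h3, h4⟩ := h
  obtain ⟨t, ht, γ, rfl, hγ⟩ := anchor_sound hR hβ (by rintro rfl; simp [mn] at h3) h1 hn hr e
  obtain ⟨t', ht', γ', rfl, hγ'⟩ :=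
    anchor_sound hR hβ' (by rintro rfl; simp [mn] at h3) h2 hn' hr' e'
  rw [mn_smul, c0_mn] at h3 h4
  rw [sz0_smul, sz0_smul, c0_sz0, c0_sz0] at h4
  have g1 : (1 : ℚ) ≤ (mn P γ γ' : ℤ) := by
    have h5 : mn P γ γ' ≠ 0 := fun h => h3 (by simp [h])
    have h6 : 0 ≤ mn P γ γ' := sum_nonneg fun _ _ => sum_nonneg fun _ _ => sq_nonneg _
    exact_mod_cast lt_of_le_of_ne h6 h5.symm
  have hM : (0 : ℚ) < M0 P := by exact_mod_cast Nat.factorial_pos _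
  have hq : (0 : ℚ) < P.q := by exact_mod_cast P.hq.pos
  set A : ℚ := P.q ^ P.D * M0 P ^ 2
  have hA : 0 < A := by positivity
  have g2 : (A * (b + 1) ^ 4) ^ 2 * (mn P γ γ' : ℤ) ≤ (sz0 P γ : ℤ) * (sz0 P γ' : ℤ) :=
    le_of_mul_le_mul_left (a := t ^ 2 * t' ^ 2) (by linarith) (by positivity)
  have g3 : ((sz0 P γ : ℤ) : ℚ) ≤ A * n ^ 4 := by simp only [A]; exact_mod_cast hγ
  have g4 : ((sz0 P γ' : ℤ) : ℚ) ≤ A * n' ^ 4 := by simp only [A]; exact_mod_cast hγ'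
  have g5 : (0 : ℚ) ≤ (sz0 P γ' : ℤ) := by
    exact_mod_cast (sum_nonneg fun _ _ => sq_nonneg _ : 0 ≤ sz0 P γ')
  clear_value A
  by_contra! hh
  have g6 : ∀ m : ℚ, |m| ≤ b → A * m ^ 4 < A * (b + 1) ^ 4 := fun m hm => by
    rw [← (show Even 4 by decide).pow_abs]
    exact mul_lt_mul_of_pos_left
      (pow_lt_pow_left₀ (by linarith) (abs_nonneg _) (by norm_num)) hA
  have g7 := mul_lt_mul'' (g6 _ hh.1) (g6 _ hh.2) (by positivity) (by positivity)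
  have g8 := mul_le_mul g3 g4 g5 (by positivity)
  nlinarith [sq_nonneg (A * (b + 1) ^ 4)]

theorem abs_Nm {X : Grp P ℤ} (hX : Inv P X) :
    |((Nm P X : ℤ) : ℝ)| = ∏ j ∈ range P.D,
      ‖ev P (Int.castRingHom ℂ) ((χ0 P).mulShift (P.g ^ j : (ZMod P.q)ˣ)) X‖ := by
  have := congrArg norm (hX.ev_nrm (Int.castRingHom ℂ) χ0_ne)
  simp only [nrm, map_prod, norm_prod, ev_sm, eq_intCast, Complex.norm_intCast] at this
  exact this.symm

theorem anchor_int {l : ℕ} (hl : l.Prime) (hq : (l : ZMod P.q) = 1) :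
    ∃ γ : Grp P ℤ, Inv P γ ∧ γ.coeff 0 = 0 ∧ γ ≠ 0 ∧ (∃ m : ℤ, Nm P γ = l * m ∧ m ≠ 0 ∧
      |m| ≤ P.q ^ P.D) ∧ sz0 P γ ^ P.D ≤ P.q ^ P.D * Nm P γ ^ 2 := by
  have := Fact.mk hl
  have hd : P.q ∣ Fintype.card (ZMod l)ˣ := by
    rw [ZMod.card_units]
    exact (Nat.modEq_iff_dvd' hl.one_le).1
      ((ZMod.natCast_eq_natCast_iff _ _ _).1 (by simpa using hq.symm))
  obtain ⟨ζ, hζ⟩ := exists_prime_orderOf_dvd_card P.q hd
  have hζ1 : (ζ : ZMod l) ^ P.q = 1 := by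
    rw [← Units.val_pow_eq_pow_val, ← hζ, pow_orderOf_eq_one]; rfl
  have hχ : AddChar.zmodChar P.q hζ1 ≠ 1 := fun h => by
    have := AddChar.zmodChar_apply' hζ1 1
    rw [h, pow_one, AddChar.one_apply, eq_comm, Units.val_eq_one] at this
    rw [this, orderOf_one] at hζ
    exact P.hq.ne_one hζ.symm
  set Q := Nat.nthRoot P.D l
  have hQ1 : Q ^ P.D ≤ l := Nat.pow_nthRoot_le (Or.inl P.hD.ne_zero)
  have hQ2 : l < (Q + 1) ^ P.D := Nat.lt_pow_nthRoot_add_one P.hD.ne_zero l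
  clear_value Q
  obtain ⟨b, b', hne, e⟩ := Fintype.exists_ne_map_eq_of_card_lt
    (fun b : ZMod P.D → Fin (Q + 1) => ev P (Int.castRingHom (ZMod l)) (AddChar.zmodChar P.q hζ1)
      (spread P fun j => ((b j : ℕ) : ℤ))) (by simpa [ZMod.card] using hQ2)
  set γ : Grp P ℤ := spread P ((fun j => ((b j : ℕ) : ℤ)) - fun j => ((b' j : ℕ) : ℤ)) with hγ
  have h1 : Inv P γ := inv_spread _
  have h2 : γ.coeff 0 = 0 := spread_zero _
  have h3 : γ ≠ 0 := spread_ne_zero fun h => hne (funext fun j => by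
    have := congrFun h j
    simp only [Pi.sub_apply, Pi.zero_apply, sub_eq_zero, Nat.cast_inj] at this
    exact Fin.ext this)
  have h4 : ∀ a, |γ.coeff a| ≤ Q := fun a => by
    rw [coeff_spread]
    split_ifs
    · simp
    · have := (b (cls P a)).2; have := (b' (cls P a)).2
      rw [Pi.sub_apply, abs_le]; omega
  have h5 : (l : ℤ) ∣ Nm P γ := by
    rw [← ZMod.intCast_zmod_eq_zero_iff_dvd, ← eq_intCast (Int.castRingHom (ZMod l)),
      ← h1.ev_nrm _ hχ]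
    obtain ⟨Y, hY⟩ := dvd_nrm γ
    rw [hY, map_mul, hγ, map_sub, map_sub, e, sub_self, zero_mul]
  clear_value γ
  have h6 := Nm_ne_zero0 h1 h2 h3
  have h7 : |Nm P γ| ≤ P.q ^ P.D * l := by
    have : |((Nm P γ : ℤ) : ℝ)| ≤ (P.q * Q) ^ P.D := by
      rw [abs_Nm h1]
      refine (prod_le_prod (g := fun _ => (P.q * Q : ℝ)) (fun _ _ => norm_nonneg _)
        fun j _ => (ev_le _ _ _).trans ?_).trans (by rw [prod_const, card_range])
      refine (sum_le_sum (g := fun _ => (Q : ℝ)) fun a _ => ?_).trans (by simp [ZMod.card])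
      rw [eq_intCast, Complex.norm_intCast]
      exact_mod_cast h4 a
    have h8 : |Nm P γ| ≤ (P.q * Q) ^ P.D := by exact_mod_cast this
    rw [mul_pow] at h8
    exact h8.trans (mul_le_mul_of_nonneg_left (by exact_mod_cast hQ1) (by positivity))
  have hl0 : (0 : ℤ) < l := by exact_mod_cast hl.pos
  refine ⟨γ, h1, h2, h3, ?_, ?_⟩
  · obtain ⟨m, hm⟩ := h5
    refine ⟨m, hm, by rintro rfl; simp [hm] at h6, ?_⟩
    rw [hm, abs_mul, abs_of_pos hl0, mul_comm] at h7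
    exact le_of_mul_le_mul_right h7 hl0
  · have g1 : sz0 P γ ≤ P.q * Q ^ 2 :=
      (sum_le_sum (g := fun _ => (Q : ℤ) ^ 2) fun a _ => sq_le_sq' (abs_le.1 (h4 a)).1
        (abs_le.1 (h4 a)).2).trans (by simp [ZMod.card])
    have g2 : (l : ℤ) ^ 2 ≤ Nm P γ ^ 2 := Int.le_of_dvd (by positivity) (pow_dvd_pow_of_dvd h5 2)
    calc sz0 P γ ^ P.D ≤ (P.q * Q ^ 2) ^ P.D :=
          pow_le_pow_left₀ (sum_nonneg fun _ _ => sq_nonneg _) g1 _
      _ = P.q ^ P.D * (Q ^ P.D) ^ 2 := by ring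
      _ ≤ _ := mul_le_mul_of_nonneg_left ((pow_le_pow_left₀ (by positivity)
          (by exact_mod_cast hQ1) 2).trans g2) (by positivity)

theorem mn_ne_zero {l l' : ℕ} (hl : l.Prime) (hl' : l'.Prime) (hne : l ≠ l') {γ γ' : Grp P ℤ}
    (h0 : γ ≠ 0) {m m' : ℤ} (e : Nm P γ = l * m) (e' : Nm P γ' = l' * m') (hm : m ≠ 0)
    (hm' : m' ≠ 0) (h1 : |m| < l) (h1' : |m'| < l) : mn P γ γ' ≠ 0 := fun h => by
  have := Fact.mk hl
  have := Fact.mk hl'
  obtain ⟨a, ha⟩ : ∃ a, γ.coeff a ≠ 0 := by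
    by_contra! h; exact h0 (grp_ext h)
  have h2 : algebraMap ℤ _ (γ.coeff a) * γ' = algebraMap ℤ _ (γ'.coeff a) * γ :=
    grp_ext fun b => by
      have := (sum_eq_zero_iff_of_nonneg fun _ _ => sq_nonneg _).1
        ((sum_eq_zero_iff_of_nonneg fun _ _ => sum_nonneg fun _ _ => sq_nonneg _).1 h a
          (mem_univ _)) b (mem_univ _)
      rw [coeff_algebraMap_mul, coeff_algebraMap_mul]
      linear_combination pow_eq_zero_iff two_ne_zero |>.1 this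
  have h3 := congrArg (Nm P) h2
  rw [Nm_smul, Nm_smul, e, e'] at h3
  have h4 := congrArg Int.natAbs h3
  simp only [Int.natAbs_mul, Int.natAbs_pow, Int.natAbs_natCast] at h4
  have a1 := Int.natAbs_ne_zero.2 ha
  have a2 := Int.natAbs_ne_zero.2 hm
  have a3 := Int.natAbs_ne_zero.2 hm'
  have a4 : (γ'.coeff a).natAbs ≠ 0 := fun h => by
    rw [h, zero_pow P.hD.ne_zero, zero_mul] at h4
    exact mul_ne_zero (pow_ne_zero _ a1) (mul_ne_zero hl'.ne_zero a3) h4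
  have h5 := congrArg (padicValNat l) h4
  have b1 : ∀ n : ℤ, n ≠ 0 → |n| < l → padicValNat l n.natAbs = 0 := fun n hn h =>
    padicValNat.eq_zero_of_not_dvd fun hd => by
      have := Nat.le_of_dvd (Int.natAbs_pos.2 hn) hd
      rw [Int.abs_eq_natAbs] at h; omega
  rw [padicValNat.mul (pow_ne_zero _ a1) (mul_ne_zero hl'.ne_zero a3),
    padicValNat.mul (pow_ne_zero _ a4) (mul_ne_zero hl.ne_zero a2), padicValNat.mul hl'.ne_zero a3,
    padicValNat.mul hl.ne_zero a2, padicValNat.pow, padicValNat.pow, padicValNat_primes hne,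
    padicValNat_self, b1 m hm h1, b1 m' hm' h1'] at h5
  simp only [add_zero] at h5
  exact P.hD.ne_one (Nat.dvd_one.1 ((Nat.dvd_add_right (dvd_mul_right _ _)).1
    (h5 ▸ dvd_mul_right _ _)))

theorem close {α : Type} [Fintype α] (γ : ℕ → α → ℝ) (h0 : ∀ n, 0 < ∑ a, γ n a ^ 2) (A : ℝ) :
    ∃ N, ∀ M, ∃ m ≥ M, A * ∑ a, ∑ b, (γ N a * γ m b - γ N b * γ m a) ^ 2 ≤
      (∑ a, γ N a ^ 2) * ∑ a, γ m a ^ 2 := by
  let v : ℕ → α → ℝ := fun n a => γ n a / √(∑ a, γ n a ^ 2)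
  have hv : ∀ n, v n ∈ Metric.closedBall (0 : α → ℝ) 1 := fun n => by
    rw [mem_closedBall_zero_iff, pi_norm_le_iff_of_nonneg zero_le_one]
    intro a
    rw [norm_div, Real.norm_eq_abs, Real.norm_eq_abs, abs_of_nonneg (Real.sqrt_nonneg _),
      div_le_one (Real.sqrt_pos.2 (h0 n))]
    exact Real.abs_le_sqrt (single_le_sum (f := fun a => γ n a ^ 2) (fun _ _ => sq_nonneg _)
      (mem_univ a))
  obtain ⟨x, -, φ, hφ, hx⟩ := (isCompact_closedBall (0 : α → ℝ) 1).tendsto_subseq hv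
  let F : (α → ℝ) × (α → ℝ) → ℝ := fun p => A * ∑ a, ∑ b, (p.1 a * p.2 b - p.1 b * p.2 a) ^ 2
  have hF : Continuous F := by fun_prop
  have t1 : Tendsto (fun p : ℕ × ℕ => p.1) atTop atTop := by
    rw [← prod_atTop_atTop_eq]; exact tendsto_fst
  have t2 : Tendsto (fun p : ℕ × ℕ => p.2) atTop atTop := by
    rw [← prod_atTop_atTop_eq]; exact tendsto_snd
  have h1 := (hF.tendsto (x, x)).comp ((hx.comp t1).prodMk_nhds (hx.comp t2))
  have h2 : F (x, x) < 1 := by simp [F, mul_comm]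
  obtain ⟨N, hN⟩ := eventually_atTop_prod_self.1 (h1.eventually (gt_mem_nhds h2))
  refine ⟨φ N, fun M => ⟨φ (max N M), (le_max_right _ _).trans (hφ.id_le _), ?_⟩⟩
  have h3 : F (v (φ N), v (φ (max N M))) < 1 := hN N _ le_rfl (le_max_left _ _)
  generalize φ N = n at *
  generalize φ (max N M) = m at *
  have e : F (v n, v m) = (A * ∑ a, ∑ b, (γ n a * γ m b - γ n b * γ m a) ^ 2) /
      ((∑ a, γ n a ^ 2) * ∑ a, γ m a ^ 2) := by
    simp only [F, v, mul_div_assoc, sum_div]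
    congr 1
    refine sum_congr rfl fun a _ => sum_congr rfl fun b _ => ?_
    have a1 := Real.sq_sqrt (h0 n).le
    have a2 := Real.sq_sqrt (h0 m).le
    have a3 := Real.sqrt_pos.2 (h0 n)
    have a4 := Real.sqrt_pos.2 (h0 m)
    generalize √(∑ a, γ n a ^ 2) = s at *
    generalize √(∑ a, γ m a ^ 2) = s' at *
    rw [← a1, ← a2]; field_simp
  rw [e, div_lt_one (mul_pos (h0 n) (h0 m))] at h3
  exact h3.le

theorem two_complete {T : ℕ → Prop} (hT : ∀ N, ∃ l > N, T l)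
    (hT' : ∀ l, T l → l.Prime ∧ (l : ZMod P.q) = 1) (b : ℚ) :
    ∃ l l', T l ∧ T l' ∧ ∀ R, Two P R l l' b := by
  choose l hl1 hl2 using fun n => hT (n + P.q ^ P.D)
  choose γ h1 h2 h3 h4 h5 using fun n => anchor_int (hT' _ (hl2 n)).1 (hT' _ (hl2 n)).2
  choose m hm1 hm2 hm3 using h4
  obtain ⟨N, hN⟩ := close (fun n a => ((γ n).coeff a : ℝ)) (fun n => by
    obtain ⟨a, ha⟩ : ∃ a, (γ n).coeff a ≠ 0 := by
      by_contra! h; exact h3 n (grp_ext h)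
    exact sum_pos' (fun _ _ => sq_nonneg _) ⟨a, mem_univ _, by positivity⟩)
    (((P.q ^ P.D * M0 P ^ 2 * (b + 1) ^ 4) ^ 2 : ℚ) : ℝ)
  obtain ⟨N', hN', h6⟩ := hN (l N)
  have hA : ∀ R n, Anchor P R (l n) (c0 P (γ n)) := fun R n => by
    refine ⟨(h1 n).gmap _, by simp [h2], ?_, by rw [c0_sz0, c0_Nm]; exact_mod_cast h5 n⟩
    obtain ⟨r, hr⟩ : m n ∣ M0 P := Int.natAbs_dvd.1 (Int.natCast_dvd_natCast.2
      (Nat.dvd_factorial (Int.natAbs_pos.2 (hm2 n)) (by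
        have := hm3 n; rw [Int.abs_eq_natAbs] at this; exact_mod_cast this)))
    refine ⟨r, inR_intCast _, ?_⟩
    rw [c0_Nm, hm1]
    have : ((M0 P : ℤ) : ℚ) = (m n * r : ℤ) := by rw [hr]
    push_cast at this ⊢
    rw [this]; ring
  refine ⟨l N, l N', hl2 _, hl2 _, fun R => ⟨_, inR_c0 _ _, _, inR_c0 _ _, hA R N, hA R N', ?_, ?_⟩⟩
  · have hlt : ∀ n, |m n| < l N := fun n => (hm3 n).trans_lt (by
      have := hl1 N; exact_mod_cast (by omega : P.q ^ P.D < l N))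
    rw [c0_mn]
    exact_mod_cast mn_ne_zero (hT' _ (hl2 N)).1 (hT' _ (hl2 N')).1 (by have := hl1 N'; omega)
      (h3 N) (hm1 N) (hm1 N') (hm2 N) (hm2 N') (hlt N) (hlt N')
  · rw [c0_mn, c0_sz0, c0_sz0, mn, sz0, sz0]
    exact_mod_cast h6

end Pool.Agent.MP_28f2cb_lc.H87
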