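import Pool.Agent.MP_28f2cb_lc.H87.Defs

/-! Anisotropy of the cyclic norm at the good primes. -/

namespace Pool.Agent.MP_28f2cb_lc.H87

open Finset
open AddMonoidAlgebra (single)
open scoped QuadraticAlgebra

/-- Elements on which a power of Frobenius agrees with `f` modulo `π`. -/
def frob {k : Type} [CommRing k] (π : k) {p : ℕ} (hp : p.Prime) (hp2 : p ≠ 2) (e : ℕ)
    (hπ : π ∣ p) (f : k →+* k) : Subring k where
  carrier := {x | π ∣ x ^ p ^ e - f x}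
  one_mem' := by simp
  zero_mem' := by simp [zero_pow (pow_ne_zero e hp.ne_zero)]
  mul_mem' {x y} hx hy := by
    have : (x * y) ^ p ^ e - f (x * y) =
        x ^ p ^ e * (y ^ p ^ e - f y) + f y * (x ^ p ^ e - f x) := by rw [map_mul]; ring
    rw [Set.mem_ofPred_eq, this]
    exact (Dvd.dvd.mul_left hy _).add (Dvd.dvd.mul_left hx _)
  add_mem' {x y} hx hy := by
    obtain ⟨r, hr⟩ := exists_add_pow_prime_pow_eq hp x y e
    have : (x + y) ^ p ^ e - f (x + y) =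
        (x ^ p ^ e - f x) + (y ^ p ^ e - f y) + p * (x * y * r) := by rw [map_add, hr]; ring
    rw [Set.mem_ofPred_eq, this]
    exact dvd_add (dvd_add hx hy) (hπ.mul_right _)
  neg_mem' {x} hx := by
    have : (-x) ^ p ^ e - f (-x) = -(x ^ p ^ e - f x) := by
      rw [(hp.odd_of_ne_two hp2).pow.neg_pow, map_neg]; ring
    rw [Set.mem_ofPred_eq, this]
    exact Dvd.dvd.neg_right hx

theorem mem_frob {k : Type} [CommRing k] {π : k} {p : ℕ} {hp : p.Prime} {hp2 : p ≠ 2} {e : ℕ}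
    {hπ : π ∣ p} {f : k →+* k} {x : k} : x ∈ frob π hp hp2 e hπ f ↔ π ∣ x ^ p ^ e - f x := Iff.rfl

/-- The square root of `-1` in `C`. -/
def iC : C ℤ := ⟨⟨0, 1⟩, 0⟩
/-- The square root of `1 + i` in `C`. -/
def wC : C ℤ := ⟨0, 1⟩

theorem C_gen (S : Subring (C ℤ)) (hi : iC ∈ S) (hw : wC ∈ S) (x : C ℤ) : x ∈ S := by
  have : x = x.re.re + x.re.im * iC + (x.im.re + x.im.im * iC) * wC := by
    ext <;> simp [iC, wC]
  rw [this]
  exact add_mem (add_mem (intCast_mem _ _) (mul_mem (intCast_mem _ _) hi))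
    (mul_mem (add_mem (intCast_mem _ _) (mul_mem (intCast_mem _ _) hi)) hw)

theorem grp_gen {P : Par} {k : Type} [CommRing k] (S : Subring (Grp P k))
    (h1 : ∀ r, algebraMap k _ r ∈ S) (h2 : ∀ a, single a 1 ∈ S) (X : Grp P k) : X ∈ S := by
  rw [eq_sum_single X]
  refine sum_mem fun a _ => ?_
  have : single a (X.coeff a) = algebraMap k (Grp P k) (X.coeff a) * single a 1 := by
    rw [algebraMap_eq, AddMonoidAlgebra.single_mul_single]; simp
  rw [this]; exact mul_mem (h1 _) (h2 _)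

theorem iC_sq : iC ^ 2 = -1 := by ext <;> simp [iC, sq]
theorem wC_sq : wC ^ 2 = 1 + iC := by ext <;> simp [iC, wC, sq]
theorem iC_four : iC ^ 4 = 1 := by rw [show 4 = 2 * 2 from rfl, pow_mul, iC_sq]; ring
theorem wC_four : wC ^ 4 = 2 * iC := by
  rw [show 4 = 2 * 2 from rfl, pow_mul, wC_sq]; linear_combination iC_sq
theorem wC_sixteen : wC ^ 16 = 2 ^ 4 := by
  rw [show 16 = 4 * 4 from rfl, pow_mul, wC_four, mul_pow, iC_four, mul_one]

theorem fermat_two {p : ℕ} (hp : p.Prime) (hp2 : p ≠ 2) : (p : ℤ) ∣ 2 ^ (p - 1) - 1 := by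
  have := Fact.mk hp
  rw [← ZMod.intCast_zmod_eq_zero_iff_dvd]
  have : (2 : ZMod p) ≠ 0 := by
    intro h
    exact hp2 ((Nat.prime_dvd_prime_iff_eq hp Nat.prime_two).1
      ((ZMod.natCast_eq_zero_iff 2 p).1 (by exact_mod_cast h)))
  push_cast
  rw [ZMod.pow_card_sub_one_eq_one this, sub_self]

theorem frob_int {p : ℕ} (hp : p.Prime) (x : ℤ) : (p : ℤ) ∣ x ^ p ^ 4 - x := by
  have := Fact.mk hp
  rw [← ZMod.intCast_zmod_eq_zero_iff_dvd]
  push_cast
  rw [ZMod.pow_card_pow, sub_self]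

theorem frob_C {p : ℕ} (hp : p.Prime) (hp2 : p ≠ 2) (x : C ℤ) : (p : C ℤ) ∣ x ^ p ^ 4 - x := by
  obtain ⟨u, hu⟩ := hp.odd_of_ne_two hp2
  obtain ⟨v, hv⟩ := Nat.even_mul_succ_self u
  have e1 : p ^ 4 = 16 * (v * (4 * v + 1)) + 1 := by
    have : p ^ 2 = 8 * v + 1 := by rw [hu]; nlinarith
    rw [show 4 = 2 * 2 from rfl, pow_mul, this]; ring
  have e2 : 4 * (v * (4 * v + 1)) = (p - 1) * ((u + 1) * (4 * v + 1)) := by
    rw [hu, Nat.add_sub_cancel]
    have : 2 * u * ((u + 1) * (4 * v + 1)) = 2 * (u * (u + 1)) * (4 * v + 1) := by ring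
    rw [this, hv]; ring
  refine C_gen (frob (p : C ℤ) hp hp2 4 dvd_rfl (RingHom.id _)) ?_ ?_ x
  · rw [mem_frob, e1, pow_succ, show 16 = 4 * 4 from rfl, mul_assoc, pow_mul, iC_four]; simp
  · rw [mem_frob, e1, pow_succ, pow_mul, wC_sixteen, ← pow_mul, e2, pow_mul]
    have h := map_dvd (Int.castRingHom (C ℤ)) (fermat_two hp hp2)
    simp only [eq_intCast, Int.cast_natCast, Int.cast_sub, Int.cast_pow, Int.cast_ofNat,
      Int.cast_one] at h
    have := (h.trans (sub_one_dvd_pow_sub_one _ ((u + 1) * (4 * v + 1)))).mul_right wC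
    rwa [sub_mul, one_mul] at this

variable {P : Par}

theorem Par.Good.exists_pow {p : ℕ} (hp : P.Good p) :
    ∃ m, ((P.g ^ m : (ZMod P.q)ˣ) : ZMod P.q) = p ∧ ¬ P.D ∣ m := by
  have h0 : (p : ZMod P.q) ≠ 0 := fun h => hp.2.2 ⟨0, by rw [h, zero_pow P.hD.ne_zero]⟩
  obtain ⟨m, hm⟩ := P.hg (Units.mk0 _ h0)
  refine ⟨m, by rw [hm]; rfl, fun h => hp.2.2 ?_⟩
  obtain ⟨y, hy⟩ := (P.pow_iff m).2 h
  exact ⟨y, by rw [hy, hm]; rfl⟩

theorem exists_good (P : Par) (N : ℕ) : ∃ p > N, P.Good p := by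
  obtain ⟨p, h1, h2, h3⟩ := Nat.forall_exists_prime_gt_and_eq_mod P.g.isUnit (N + 2)
  refine ⟨p, by omega, h2, by omega, fun h => ?_⟩
  have := (P.pow_iff 1).1 (by rwa [pow_one, ← h3])
  exact P.hD.ne_one (Nat.dvd_one.1 this)

section gen
variable {k : Type} [CommRing k] {p : ℕ}

theorem aniso (hp : P.Good p) (hk : ∀ x : k, (p : k) ∣ x ^ p ^ 4 - x) {X : Grp P k}
    (hX : Inv P X) (h : (p : Grp P k) ∣ nrm P X) : (p : Grp P k) ∣ X := by
  obtain ⟨m, hm, hmD⟩ := hp.exists_pow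
  set t := P.g ^ (4 * m) with ht
  have htv : (t : ZMod P.q) = p ^ 4 := by rw [ht, mul_comm, pow_mul, ← hm]; simp
  have h1 : ∀ Y : Grp P k, (p : Grp P k) ∣ Y ^ p ^ 4 - sm P t Y := fun Y => by
    refine grp_gen (frob (p : Grp P k) hp.1 hp.2.1 4 dvd_rfl (sm P t)) (fun r => ?_) (fun a => ?_) Y
    · rw [mem_frob, sm_algebraMap, ← map_pow, ← map_sub, ← map_natCast (algebraMap k (Grp P k))]
      exact map_dvd _ (hk r)
    · rw [mem_frob, sm_single, AddMonoidAlgebra.single_pow, htv]; simp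
  let π := Ideal.Quotient.mk (Ideal.span {(p : Grp P k)})
  have hπ : ∀ Y, π Y = 0 ↔ (p : Grp P k) ∣ Y := fun Y => by
    rw [Ideal.Quotient.eq_zero_iff_mem, Ideal.mem_span_singleton]
  have h2 : ∀ r : ℕ, π (sm P (P.g ^ (4 * m * r)) X) = π X ^ (p ^ 4) ^ r := fun r => by
    induction r with
    | zero => simp
    | succ r ih =>
      have := (hπ _).2 (h1 (sm P (P.g ^ (4 * m * r)) X))
      rw [map_sub, map_pow, ih, sm_sm, ← pow_add, sub_eq_zero] at this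
      rw [pow_succ (p ^ 4), pow_mul (π X), this, mul_add, mul_one, add_comm]
  have hc : (4 * m).Coprime P.D := by
    refine Nat.Coprime.mul_left ?_ ((Nat.Prime.coprime_iff_not_dvd P.hD).2 hmD).symm
    exact Nat.Coprime.pow_left 2 (Nat.coprime_two_left.2 P.D_odd)
  have h3 : ∀ j : ℕ, ∃ n, π (sm P (P.g ^ j) X) = π X ^ n := fun j => by
    obtain ⟨r, -, hr⟩ := Nat.exists_mul_mod_eq_one_of_coprime hc P.hD.one_lt
    refine ⟨_, Eq.trans ?_ (h2 (r * j))⟩
    rw [hX.sm_mod, hX.sm_mod (4 * m * (r * j)), ← mul_assoc, Nat.mul_mod, hr]; simp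
  choose n hn using h3
  have h4 : π X ^ (∑ j ∈ range P.D, n j) = 0 := by
    rw [← prod_pow_eq_pow_sum, ← (hπ _).2 h, nrm, map_prod]; simp [hn]
  rw [← hπ]
  set N := ∑ j ∈ range P.D, n j
  have h5 := h2 (P.D * N)
  rw [mul_left_comm, hX.sm_pow_mul] at h5
  have h6 : N ≤ (p ^ 4) ^ (P.D * N) :=
    (Nat.le_mul_of_pos_left N P.hD.pos).trans
      (Nat.lt_pow_self (Nat.one_lt_pow (by norm_num) hp.1.one_lt)).le
  rw [h5, ← Nat.add_sub_cancel' h6, pow_add, h4, zero_mul]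

theorem aniso_Nm (hp : P.Good p) (hk : ∀ x : k, (p : k) ∣ x ^ p ^ 4 - x) {X : Grp P k}
    (hX : Inv P X) (h0 : X.coeff 0 = 0) (h : (p : k) ∣ Nm P X) (a : ZMod P.q) :
    (p : k) ∣ X.coeff a := by
  have e0 : (sAll P * ((P.q : Grp P k) - sAll P) : Grp P k) = 0 := by rw [mul_sub, sAll_mul_sAll]; ring
  obtain ⟨d, hd⟩ : ∃ d, P.D = d + 1 := ⟨P.D - 1, by have := P.three_le; omega⟩
  have h1 : (p : Grp P k) ∣ nrm P (X * ((P.q : Grp P k) - sAll P)) := by
    rw [nrm_mul, hX.nrm_eq, nrm_fixed (X := (P.q : Grp P k) - sAll P) (fun t => by simp), hd, add_mul,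
      pow_succ', mul_assoc, ← mul_assoc (sAll P), e0, zero_mul, mul_zero, add_zero,
      ← map_natCast (algebraMap k (Grp P k))]
    exact (map_dvd _ h).mul_right _
  have h2 := aniso hp hk (hX.mul ((inv_natCast _).sub inv_sAll)) h1
  rw [← map_natCast (algebraMap k (Grp P k)), dvd_iff_coeff] at h2
  have h3 : ∀ a, (X * ((P.q : Grp P k) - sAll P)).coeff a = P.q * X.coeff a - ∑ b, X.coeff b := fun a => by
    rw [mul_sub, mul_sAll, mul_comm X, ← map_natCast (algebraMap k (Grp P k)),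
      AddMonoidAlgebra.coeff_sub, Finsupp.sub_apply, coeff_algebraMap_mul, coeff_algebraMap_mul]
    simp
  have h4 := h2 0
  rw [h3, h0, mul_zero, zero_sub, dvd_neg] at h4
  have h5 := (h2 a).add h4
  rw [h3, sub_add_cancel] at h5
  have hc : IsCoprime (p : k) (P.q : k) :=
    Nat.Coprime.cast ((Nat.coprime_primes hp.1 P.hq).2 hp.ne_q)
  exact hc.dvd_of_dvd_mul_left h5

end gen

theorem int_zero_of_good {x : ℤ} (h : ∀ p, P.Good p → (p : ℤ) ∣ x) : x = 0 := by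
  obtain ⟨p, h1, h2⟩ := exists_good P x.natAbs
  exact Int.eq_zero_of_dvd_of_natAbs_lt_natAbs (h p h2) (by simpa using h1)

theorem aniso0 {p : ℕ} (hp : P.Good p) {X : Grp P ℤ} (hX : Inv P X) (h0 : X.coeff 0 = 0)
    (h : (p : ℤ) ∣ Nm P X) (a : ZMod P.q) : (p : ℤ) ∣ X.coeff a :=
  aniso_Nm hp (frob_int hp.1) hX h0 h a

theorem Nm_ne_zero0 {X : Grp P ℤ} (hX : Inv P X) (h0 : X.coeff 0 = 0) (h : X ≠ 0) :
    Nm P X ≠ 0 := fun e =>
  h (grp_ext fun a => int_zero_of_good fun _ hp => aniso0 hp hX h0 (e ▸ dvd_zero _) a)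

theorem natCast_dvd_C {n : ℕ} {x : C ℤ} : (n : C ℤ) ∣ x ↔
    ((n : ℤ) ∣ x.re.re ∧ (n : ℤ) ∣ x.re.im) ∧ (n : ℤ) ∣ x.im.re ∧ (n : ℤ) ∣ x.im.im := by
  rw [← map_natCast (algebraMap (G ℤ) (C ℤ)), QuadraticAlgebra.algebraMap_dvd_iff,
    ← map_natCast (algebraMap ℤ (G ℤ)), QuadraticAlgebra.algebraMap_dvd_iff,
    QuadraticAlgebra.algebraMap_dvd_iff]

theorem Nm_ne_zeroB {X : B P ℤ} (hX : Inv P X) (h0 : X.coeff 0 = 0) (h : X ≠ 0) :
    Nm P X ≠ 0 := fun e => h (grp_ext fun a => by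
  have := fun p (hp : P.Good p) =>
    natCast_dvd_C.1 (aniso_Nm hp (frob_C hp.1 hp.2.1) hX h0 (e ▸ dvd_zero _) a)
  ext
  · exact int_zero_of_good fun p hp => (this p hp).1.1
  · exact int_zero_of_good fun p hp => (this p hp).1.2
  · exact int_zero_of_good fun p hp => (this p hp).2.1
  · exact int_zero_of_good fun p hp => (this p hp).2.2)

/-- The Diophantine description of the group `U`. -/
def IsU (P : Par) (R : Subring ℚ) (X : B P ℚ) : Prop :=
  Inv P X ∧ X * cj P X = 1 ∧ nrm P X = 1 ∧ ∃ e : B P ℚ, InR R e ∧ X = 1 + 4 * e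

theorem isU_complete (R : Subring ℚ) {u : (B P ℤ)ˣ} (h : u ∈ U P) : IsU P R (cB P u.1) := by
  obtain ⟨h1, h2, h3, e, he⟩ := h
  refine ⟨h1.gmap _, by rw [← cB_cj, ← map_mul, h2, map_one], by rw [← cB_nrm, h3, map_one],
    cB P e, inR_cB _ _, ?_⟩
  rw [eq_add_of_sub_eq' he, map_add, map_mul, map_one, map_ofNat]

theorem nat_cancelQ {n : ℕ} (hn : n ≠ 0) {X Y : B P ℚ} (h : (n : B P ℚ) * X = n * Y) : X = Y := by
  rw [← sub_eq_zero, ← mul_sub, ← map_natCast (up P (A := ℚ))] at h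
  refine sub_eq_zero.1 (up_cancel (fun h0 => hn ?_) h)
  simpa using congrArg QuadraticAlgebra.re h0

theorem isU_sound {R : Subring ℚ} (hR : P.Ok R) {X : B P ℚ} (h : IsU P R X) :
    ∃ u ∈ U P, cB P u.1 = X := by
  obtain ⟨h1, h2, h3, e, he, h4⟩ := h
  have hX : InR R X := h4 ▸ inR_one.add ((inR_ofNat 4).mul he)
  have key : ∀ d : ℕ, 0 < d → (∀ p : ℕ, p.Prime → p ∣ d → P.Good p) →
      InR ⊥ ((d : B P ℚ) * X) → InR ⊥ X := fun d => by
    induction d using Nat.strong_induction_on with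
    | _ d ih =>
      intro hd hg hb
      by_cases h1d : d = 1
      · simpa [h1d] using hb
      obtain ⟨p, hp, d', rfl⟩ := Nat.exists_prime_and_dvd h1d
      have hpg := hg p hp (dvd_mul_right _ _)
      obtain ⟨Y, hY⟩ := exists_cB hb
      have hYi : Inv P Y := inv_of_gmap cC_inj (show Inv P (cB P Y) from hY ▸ (inv_natCast _).mul h1)
      have hn : nrm P Y = ((p * d' : ℕ) : B P ℤ) ^ P.D := cB_inj (by
        rw [cB_nrm, hY, nrm_mul, h3, nrm_fixed (fun t => map_natCast _ _)]; simp)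
      obtain ⟨Y', rfl⟩ := aniso hpg (frob_C hp hpg.2.1) hYi (by
        rw [hn, Nat.cast_mul]; exact (dvd_mul_right _ _).pow P.hD.ne_zero)
      have hd' : 0 < d' := Nat.pos_of_mul_pos_left hd
      refine ih d' (by nlinarith [hp.one_lt]) hd' (fun r hr h => hg r hr (h.mul_left _)) ?_
      rw [map_mul, map_natCast, Nat.cast_mul, mul_assoc] at hY
      rw [← nat_cancelQ hp.ne_zero hY]; exact inR_cB _ _
  obtain ⟨d, hd, hg, hb⟩ := hX.exists_den
  have hXb := key d hd (fun p hp h => by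
    obtain ⟨x, hx, hx'⟩ := hg p hp h; exact hR x hx p hp hx') hb
  obtain ⟨Y, rfl⟩ := exists_cB hXb
  have heb : InR ⊥ e := he.bot_of_mul (n := 4) (by norm_num) (fun x hx p hp h h' =>
    (hR x hx p hp h).2.1 ((Nat.prime_dvd_prime_iff_eq hp Nat.prime_two).1
      (hp.dvd_of_dvd_pow (n := 2) h'))) (by
    have : ((4 : ℕ) : B P ℚ) * e = cB P Y - 1 := by rw [h4]; push_cast; ring
    rw [this]; exact hXb.sub inR_one)
  obtain ⟨e', rfl⟩ := exists_cB heb
  have k2 : Y * cj P Y = 1 := cB_inj (by rw [map_mul, cB_cj, h2, map_one])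
  refine ⟨⟨Y, cj P Y, k2, by rw [mul_comm, k2]⟩, ⟨inv_of_gmap cC_inj h1, k2,
    cB_inj (by rw [cB_nrm, map_one]; exact h3), e', cB_inj ?_⟩, rfl⟩
  rw [map_sub, map_one, map_mul, map_ofNat]
  exact sub_eq_of_eq_add' h4

theorem dio_isU {V : Type} [Coord V] {f : V → B P ℚ} (hf : PM f) :
    Dio P.Ok fun R v => IsU P R (f v) := by
  have h1 : InR ⊥ (1 : B P ℚ) := inR_one
  have h4 : InR ⊥ (4 : B P ℚ) := inR_ofNat 4
  exact (Dio.eq (by fun_prop) hf).and ((Dio.eq (by fun_prop) (PM.const h1)).and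
    ((Dio.eq (by fun_prop) (PM.const h1)).and
      (Dio.ex (Dio.eq (by fun_prop) (by fun_prop (disch := assumption))))))

end Pool.Agent.MP_28f2cb_lc.H87
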