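import Pool.Agent.MP_28f2cb_lc.H87.Kit

/-! The rings `G = A[i]`, `C = G[w]` with `w ^ 2 = 1 + i`, the group ring `B = C[Z/q]`, their
automorphisms and basic formulas. -/

namespace Pool.Agent.MP_28f2cb_lc.H87

open Finset

/-- The parameters: `D` an odd prime, `q` a prime with `D ∣ q - 1`, `g` a primitive root. -/
structure Par where
  D : ℕ
  q : ℕ
  hD : D.Prime
  hD2 : D ≠ 2
  hq : q.Prime
  hdvd : D ∣ q - 1
  g : (ZMod q)ˣ
  hg : ∀ x, ∃ n : ℕ, g ^ n = x

instance (P : Par) : Fact P.q.Prime := ⟨P.hq⟩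
instance (P : Par) : Fact P.D.Prime := ⟨P.hD⟩

namespace Par
variable (P : Par)

/-- The primes that may be inverted. -/
def Good (p : ℕ) : Prop := p.Prime ∧ p ≠ 2 ∧ ¬ ∃ y : ZMod P.q, y ^ P.D = (p : ZMod P.q)

/-- The admissible subrings. -/
def Ok (R : Subring ℚ) : Prop := ∀ x ∈ R, ∀ p : ℕ, p.Prime → p ∣ x.den → P.Good p

theorem three_le : 3 ≤ P.D := by
  have := P.hD.two_le; have := P.hD2; omega

theorem D_odd : Odd P.D := P.hD.odd_of_ne_two P.hD2

theorem D_lt : P.D < P.q := by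
  have := P.hq.two_le
  have := Nat.le_of_dvd (by omega) P.hdvd
  omega

theorem q_odd : Odd P.q := P.hq.odd_of_ne_two (by have := P.three_le; have := P.D_lt; omega)

theorem Good.ne_q {P : Par} {p : ℕ} (h : P.Good p) : p ≠ P.q := fun e =>
  h.2.2 ⟨0, by rw [e, zero_pow P.hD.ne_zero, ZMod.natCast_self]⟩

theorem ok_noInv (R : Subring ℚ) (h : P.Ok R) : NoInv P.q R := by
  have key : ∀ p : ℕ, p.Prime → ∀ x ∈ R, p * x = 1 → P.Good p := fun p hp x hx e => by
    refine h x hx p hp ?_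
    have : x = (p : ℚ)⁻¹ := eq_inv_of_mul_eq_one_right e
    rw [this, Rat.inv_natCast_den_of_pos hp.pos]
  exact ⟨fun x hx e => (key 2 Nat.prime_two x hx (by exact_mod_cast e)).2.1 rfl,
    fun x hx e => (key _ P.hq x hx e).ne_q rfl⟩

theorem orderOf_g : orderOf P.g = P.q - 1 := by
  rw [orderOf_eq_card_of_forall_mem_powers fun x => P.hg x, Nat.card_eq_fintype_card,
    ZMod.card_units]

/-- `g ^ m` is a `D`-th power iff `D ∣ m`. -/
theorem pow_iff (m : ℕ) : (∃ y : ZMod P.q, y ^ P.D = (P.g ^ m : (ZMod P.q)ˣ)) ↔ P.D ∣ m := by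
  constructor
  · rintro ⟨y, hy⟩
    have h0 : y ≠ 0 := by
      rintro rfl
      rw [zero_pow P.hD.ne_zero] at hy
      exact (P.g ^ m).ne_zero hy.symm
    obtain ⟨n, hn⟩ := P.hg (Units.mk0 y h0)
    have : P.g ^ (n * P.D) = P.g ^ m := by
      ext; rw [pow_mul, hn]; simpa using hy
    rw [pow_eq_pow_iff_modEq, orderOf_g] at this
    exact (Nat.modEq_zero_iff_dvd.1 ((this.of_dvd P.hdvd).symm.trans
      (Nat.modEq_zero_iff_dvd.2 (dvd_mul_left _ _))))
  · rintro ⟨n, rfl⟩
    exact ⟨(P.g ^ n : (ZMod P.q)ˣ), by rw [mul_comm, pow_mul]; simp⟩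

end Par

abbrev G (A : Type) [CommRing A] := QuadraticAlgebra A (-1) 0
abbrev C (A : Type) [CommRing A] := QuadraticAlgebra (G A) ⟨1, 1⟩ 0
abbrev Grp (P : Par) (k : Type) [CommRing k] := AddMonoidAlgebra k (ZMod P.q)
abbrev B (P : Par) (A : Type) [CommRing A] := Grp P (C A)

instance : PRing (G ℚ) := pringQuad inR_one.neg inR_zero
instance : PRing (C ℚ) := pringQuad (inR_quad.2 ⟨inR_one, inR_one⟩) inR_zero

/-- Functoriality of quadratic algebras. -/
def qmap {A A' : Type} [CommRing A] [CommRing A'] {a b : A} {a' b' : A'} (f : A →+* A')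
    (ha : f a = a') (hb : f b = b') : QuadraticAlgebra A a b →+* QuadraticAlgebra A' a' b' where
  toFun x := ⟨f x.re, f x.im⟩
  map_one' := QuadraticAlgebra.ext (map_one f) (map_zero f)
  map_zero' := by ext <;> simp
  map_mul' x y := by ext <;> simp [ha, hb]
  map_add' x y := by ext <;> simp

/-- `ℤ[i] → ℚ[i]`. -/
def cG : G ℤ →+* G ℚ := qmap (Int.castRingHom ℚ) (by simp) (by simp)
@[simp] theorem cG_re (x : G ℤ) : (cG x).re = x.re := rfl
@[simp] theorem cG_im (x : G ℤ) : (cG x).im = x.im := rfl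
/-- `C ℤ → C ℚ`. -/
def cC : C ℤ →+* C ℚ := qmap cG (by ext <;> simp) (by simp)
@[simp] theorem cC_re (x : C ℤ) : (cC x).re = cG x.re := rfl
@[simp] theorem cC_im (x : C ℤ) : (cC x).im = cG x.im := rfl

theorem cG_inj : Function.Injective cG := fun x y h => by
  have h1 := congrArg QuadraticAlgebra.re h
  have h2 := congrArg QuadraticAlgebra.im h
  simp only [cG_re, cG_im, Int.cast_inj] at h1 h2
  exact QuadraticAlgebra.ext h1 h2

theorem cC_inj : Function.Injective cC := fun _ _ h =>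
  QuadraticAlgebra.ext (cG_inj (congrArg QuadraticAlgebra.re h))
    (cG_inj (congrArg QuadraticAlgebra.im h))

theorem cG_star (x : G ℤ) : cG (star x) = star (cG x) := by ext <;> simp
theorem cC_star (x : C ℤ) : cC (star x) = star (cC x) := by ext <;> simp
theorem cG_norm (x : G ℤ) : (cG x).norm = (x.norm : ℤ) := by simp [QuadraticAlgebra.norm_def]

theorem inR_cG (R : Subring ℚ) (x : G ℤ) : InR R (cG x) :=
  inR_quad.2 ⟨inR_intCast _, inR_intCast _⟩
theorem inR_cC (R : Subring ℚ) (x : C ℤ) : InR R (cC x) := inR_quad.2 ⟨inR_cG _ _, inR_cG _ _⟩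

theorem exists_int {x : ℚ} (h : InR ⊥ x) : ∃ y : ℤ, (y : ℚ) = x := Subring.mem_bot.1 (inR_rat.1 h)
theorem exists_cG {x : G ℚ} (h : InR ⊥ x) : ∃ y, cG y = x := by
  obtain ⟨a, ha⟩ := exists_int (inR_quad.1 h).1
  obtain ⟨b, hb⟩ := exists_int (inR_quad.1 h).2
  exact ⟨⟨a, b⟩, QuadraticAlgebra.ext ha hb⟩
theorem exists_cC {x : C ℚ} (h : InR ⊥ x) : ∃ y, cC y = x := by
  obtain ⟨a, ha⟩ := exists_cG (inR_quad.1 h).1
  obtain ⟨b, hb⟩ := exists_cG (inR_quad.1 h).2
  exact ⟨⟨a, b⟩, QuadraticAlgebra.ext ha hb⟩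

section grp
variable (P : Par) {k k' : Type} [CommRing k] [CommRing k']

open AddMonoidAlgebra (single)

/-- The automorphism `ζ ↦ ζ ^ t`. -/
noncomputable def sm (t : (ZMod P.q)ˣ) : Grp P k →+* Grp P k :=
  AddMonoidAlgebra.mapDomainRingHom k (AddMonoidHom.mulLeft (t : ZMod P.q))

/-- Change of coefficients. -/
noncomputable def gmap (f : k →+* k') : Grp P k →+* Grp P k' := AddMonoidAlgebra.mapRingHom _ f

/-- The sum of all group elements. -/
noncomputable def sAll : Grp P k := ∑ a, single a 1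

/-- The cyclic norm. -/
noncomputable def nrm (X : Grp P k) : Grp P k := ∏ j ∈ range P.D, sm P (P.g ^ j) X

/-- Invariance under the `D`-th powers. -/
def Inv (X : Grp P k) : Prop := sm P (P.g ^ P.D) X = X

/-- The norm form. -/
noncomputable def Nm (X : Grp P k) : k := (nrm P X).coeff 0 - (nrm P X).coeff 1

/-- Evaluation at a character. -/
noncomputable def ev {K : Type} [CommRing K] (φ : k →+* K) (χ : AddChar (ZMod P.q) K) :
    Grp P k →+* K :=
  AddMonoidAlgebra.liftNCRingHom φ χ.toMonoidHom fun _ _ => Commute.all _ _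

/-- Sum of the squares of the coefficients. -/
noncomputable def sz0 (X : Grp P k) : k := ∑ a, X.coeff a ^ 2

variable {P}

theorem grp_ext {X Y : Grp P k} (h : ∀ a, X.coeff a = Y.coeff a) : X = Y := by
  ext a; exact h a

theorem eq_sum_single (X : Grp P k) : X = ∑ a, single a (X.coeff a) := by
  conv_lhs => rw [← AddMonoidAlgebra.sum_coeff_single X]
  rw [Finsupp.sum_fintype]; simp

@[simp] theorem sm_single (t : (ZMod P.q)ˣ) (a : ZMod P.q) (r : k) :
    sm P t (single a r) = single (t * a) r := by simp [sm]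

theorem sm_sm (t t' : (ZMod P.q)ˣ) (X : Grp P k) : sm P t (sm P t' X) = sm P (t * t') X := by
  rw [eq_sum_single X]; simp [mul_assoc]

@[simp] theorem sm_one (X : Grp P k) : sm P 1 X = X := by
  conv_rhs => rw [eq_sum_single X]
  conv_lhs => rw [eq_sum_single X]
  simp

theorem coeff_sm_mul (t : (ZMod P.q)ˣ) (X : Grp P k) (a : ZMod P.q) :
    (sm P t X).coeff (t * a) = X.coeff a := by
  have : Function.Injective (AddMonoidHom.mulLeft (t : ZMod P.q)) := fun x y h =>
    t.mul_right_inj.1 h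
  exact Finsupp.mapDomain_apply this X.coeff a

theorem coeff_sm (t : (ZMod P.q)ˣ) (X : Grp P k) (a : ZMod P.q) :
    (sm P t X).coeff a = X.coeff ((t⁻¹ : (ZMod P.q)ˣ) * a) := by
  rw [← coeff_sm_mul t X, Units.mul_inv_cancel_left]

theorem algebraMap_eq (r : k) : algebraMap k (Grp P k) r = single 0 r := rfl

theorem coeff_algebraMap_mul (r : k) (X : Grp P k) (a : ZMod P.q) :
    (algebraMap k (Grp P k) r * X).coeff a = r * X.coeff a := by
  rw [← Algebra.smul_def]; simp

@[simp] theorem sm_algebraMap (t : (ZMod P.q)ˣ) (r : k) :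
    sm P t (algebraMap k (Grp P k) r) = algebraMap k (Grp P k) r := by simp [algebraMap_eq]

@[simp] theorem coeff_sAll (a : ZMod P.q) : (sAll P : Grp P k).coeff a = 1 := by
  simp [sAll, Finsupp.single_apply]

@[simp] theorem sm_sAll (t : (ZMod P.q)ˣ) : sm P t (sAll P : Grp P k) = sAll P :=
  grp_ext fun a => by simp only [coeff_sm, coeff_sAll]

theorem mul_sAll (X : Grp P k) :
    X * sAll P = algebraMap k (Grp P k) (∑ a, X.coeff a) * sAll P :=
  grp_ext fun a => by rw [coeff_algebraMap_mul, coeff_mul_fin]; simp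

theorem sAll_mul_sAll : (sAll P * sAll P : Grp P k) = (P.q : Grp P k) * sAll P := by
  rw [mul_sAll]; simp

@[simp] theorem coeff_gmap (f : k →+* k') (X : Grp P k) (a : ZMod P.q) :
    (gmap P f X).coeff a = f (X.coeff a) := by simp [gmap]

@[simp] theorem gmap_single (f : k →+* k') (a : ZMod P.q) (r : k) :
    gmap P f (single a r) = single a (f r) := by simp [gmap]

theorem gmap_algebraMap (f : k →+* k') (r : k) :
    gmap P f (algebraMap k (Grp P k) r) = algebraMap k' (Grp P k') (f r) := by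
  simp [algebraMap_eq]

theorem gmap_sm (f : k →+* k') (t : (ZMod P.q)ˣ) (X : Grp P k) :
    gmap P f (sm P t X) = sm P t (gmap P f X) :=
  grp_ext fun a => by simp only [coeff_sm, coeff_gmap]

@[simp] theorem gmap_sAll (f : k →+* k') : gmap P f (sAll P) = sAll P :=
  grp_ext fun a => by simp

theorem gmap_inj {f : k →+* k'} (hf : Function.Injective f) : Function.Injective (gmap P f) :=
  fun X Y h => grp_ext fun a => hf (by rw [← coeff_gmap, h, coeff_gmap])

theorem gmap_nrm (f : k →+* k') (X : Grp P k) : gmap P f (nrm P X) = nrm P (gmap P f X) := by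
  simp [nrm, gmap_sm]

theorem gmap_Nm (f : k →+* k') (X : Grp P k) : Nm P (gmap P f X) = f (Nm P X) := by
  simp [Nm, ← gmap_nrm]

theorem gmap_sz0 (f : k →+* k') (X : Grp P k) : sz0 P (gmap P f X) = f (sz0 P X) := by
  simp [sz0]

theorem Inv.gmap {X : Grp P k} (h : Inv P X) (f : k →+* k') : Inv P (gmap P f X) := by
  rw [Inv, ← gmap_sm, h]

theorem inv_of_gmap {f : k →+* k'} (hf : Function.Injective f) {X : Grp P k}
    (h : Inv P (gmap P f X)) : Inv P X := gmap_inj hf (by rw [gmap_sm, h])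

theorem nrm_mul (X Y : Grp P k) : nrm P (X * Y) = nrm P X * nrm P Y := by
  simp [nrm, prod_mul_distrib]

@[simp] theorem nrm_one : nrm P (1 : Grp P k) = 1 := by simp [nrm]

theorem nrm_fixed {X : Grp P k} (h : ∀ t, sm P t X = X) : nrm P X = X ^ P.D := by simp [nrm, h]

theorem nrm_sm (t : (ZMod P.q)ˣ) (X : Grp P k) : nrm P (sm P t X) = sm P t (nrm P X) := by
  simp [nrm, sm_sm, mul_comm]

theorem dvd_nrm (X : Grp P k) : X ∣ nrm P X := by
  have := dvd_prod_of_mem (fun j => sm P (P.g ^ j) X) (mem_range.2 P.hD.pos)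
  simpa [nrm] using this

theorem Inv.mul {X Y : Grp P k} (hX : Inv P X) (hY : Inv P Y) : Inv P (X * Y) := by
  rw [Inv, map_mul, hX, hY]
theorem Inv.add {X Y : Grp P k} (hX : Inv P X) (hY : Inv P Y) : Inv P (X + Y) := by
  rw [Inv, map_add, hX, hY]
theorem Inv.sub {X Y : Grp P k} (hX : Inv P X) (hY : Inv P Y) : Inv P (X - Y) := by
  rw [Inv, map_sub, hX, hY]
theorem Inv.sm {X : Grp P k} (hX : Inv P X) (t : (ZMod P.q)ˣ) : Inv P (sm P t X) := by
  rw [Inv, sm_sm, mul_comm, ← sm_sm, hX]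
theorem inv_one : Inv P (1 : Grp P k) := map_one _
theorem inv_algebraMap (r : k) : Inv P (algebraMap k (Grp P k) r) := sm_algebraMap _ _
theorem inv_natCast (n : ℕ) : Inv P (n : Grp P k) := map_natCast _ n
theorem inv_sAll : Inv P (sAll P : Grp P k) := sm_sAll _

theorem Inv.sm_pow_mul {X : Grp P k} (hX : Inv P X) (n : ℕ) :
    H87.sm P (P.g ^ (P.D * n)) X = X := by
  induction n with
  | zero => simp
  | succ n ih => rw [mul_add, mul_one, pow_add, ← sm_sm, hX, ih]

theorem Inv.sm_mod {X : Grp P k} (hX : Inv P X) (n : ℕ) :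
    H87.sm P (P.g ^ n) X = H87.sm P (P.g ^ (n % P.D)) X := by
  conv_lhs => rw [← Nat.mod_add_div n P.D, pow_add, ← sm_sm, hX.sm_pow_mul]

theorem Inv.sm_nrm {X : Grp P k} (hX : Inv P X) (t : (ZMod P.q)ˣ) :
    H87.sm P t (nrm P X) = nrm P X := by
  have h1 : H87.sm P P.g (nrm P X) = nrm P X := by
    obtain ⟨d, hd⟩ : ∃ d, P.D = d + 1 := ⟨P.D - 1, by have := P.three_le; omega⟩
    have hX' : H87.sm P (P.g ^ (d + 1)) X = X := by rw [← hd]; exact hX
    simp only [nrm, map_prod, sm_sm, ← pow_succ', hd]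
    rw [prod_range_succ, prod_range_succ', hX']; simp
  obtain ⟨n, rfl⟩ := P.hg t
  induction n with
  | zero => simp
  | succ n ih => rw [pow_succ, ← sm_sm, h1, ih]

/-- An element fixed by all `sm t` is a combination of `1` and `sAll`. -/
theorem eq_of_fixed {X : Grp P k} (h : ∀ t, sm P t X = X) :
    X = algebraMap k _ (X.coeff 0 - X.coeff 1) + algebraMap k _ (X.coeff 1) * sAll P :=
  grp_ext fun a => by
    rw [AddMonoidAlgebra.coeff_add, Finsupp.add_apply, coeff_algebraMap_mul, algebraMap_eq]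
    by_cases ha : a = 0
    · simp [ha]
    · have := coeff_sm_mul (Units.mk0 a ha) X 1
      rw [h] at this
      simp [Ne.symm ha, ← this]

theorem Inv.nrm_eq {X : Grp P k} (hX : Inv P X) :
    nrm P X = algebraMap k _ (Nm P X) + algebraMap k _ ((nrm P X).coeff 1) * sAll P :=
  eq_of_fixed hX.sm_nrm

theorem Nm_smul (r : k) (X : Grp P k) : Nm P (algebraMap k _ r * X) = r ^ P.D * Nm P X := by
  rw [Nm, nrm_mul, nrm_fixed (fun t => sm_algebraMap t r), ← map_pow, coeff_algebraMap_mul,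
    coeff_algebraMap_mul, Nm, mul_sub]

theorem dvd_iff_coeff (r : k) (X : Grp P k) :
    algebraMap k (Grp P k) r ∣ X ↔ ∀ a, r ∣ X.coeff a := by
  constructor
  · rintro ⟨Y, rfl⟩ a
    rw [coeff_algebraMap_mul]; exact dvd_mul_right _ _
  · intro h
    choose f hf using h
    exact ⟨.ofCoeff (Finsupp.equivFunOnFinite.symm f), grp_ext fun a => by
      rw [coeff_algebraMap_mul, hf a]; rfl⟩

variable {K : Type} [CommRing K]

@[simp] theorem ev_single (φ : k →+* K) (χ : AddChar (ZMod P.q) K) (a : ZMod P.q) (r : k) :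
    ev P φ χ (single a r) = φ r * χ a := by simp [ev]

theorem ev_apply (φ : k →+* K) (χ : AddChar (ZMod P.q) K) (X : Grp P k) :
    ev P φ χ X = ∑ a, φ (X.coeff a) * χ a := by
  conv_lhs => rw [eq_sum_single X]
  simp

theorem ev_algebraMap (φ : k →+* K) (χ : AddChar (ZMod P.q) K) (r : k) :
    ev P φ χ (algebraMap k _ r) = φ r := by simp [algebraMap_eq]

theorem ev_sm (φ : k →+* K) (χ : AddChar (ZMod P.q) K) (t : (ZMod P.q)ˣ) (X : Grp P k) :
    ev P φ χ (sm P t X) = ev P φ (χ.mulShift t) X := by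
  rw [eq_sum_single X]; simp

theorem ev_gmap (f : k →+* k') (φ : k' →+* K) (χ : AddChar (ZMod P.q) K) (X : Grp P k) :
    ev P φ χ (gmap P f X) = ev P (φ.comp f) χ X := by simp [ev_apply]

theorem ev_sAll [IsDomain K] (φ : k →+* K) {χ : AddChar (ZMod P.q) K} (h : χ ≠ 1) :
    ev P φ χ (sAll P) = 0 := by
  simp [ev_apply, AddChar.sum_eq_zero_of_ne_one h]

theorem Inv.ev_nrm [IsDomain K] {X : Grp P k} (hX : Inv P X) (φ : k →+* K)
    {χ : AddChar (ZMod P.q) K} (h : χ ≠ 1) : ev P φ χ (nrm P X) = φ (Nm P X) := by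
  rw [hX.nrm_eq]; simp [ev_sAll φ h]

end grp

section Bsec
variable (P : Par) {A : Type} [CommRing A]

/-- The conjugation `w ↦ -w`. -/
noncomputable def cj : B P A →+* B P A := gmap P (starRingEnd (C A))

/-- `G → B`. -/
noncomputable def up : G A →+* B P A := algebraMap (G A) (B P A)

/-- `B ℤ → B ℚ`. -/
noncomputable def cB : B P ℤ →+* B P ℚ := gmap P cC

/-- `ℤ[Z/q] → ℚ[Z/q]`. -/
noncomputable def c0 : Grp P ℤ →+* Grp P ℚ := gmap P (Int.castRingHom ℚ)

/-- Sum of the squares of the four coordinates. -/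
def szC (x : C A) : A := x.re.re ^ 2 + x.re.im ^ 2 + x.im.re ^ 2 + x.im.im ^ 2

/-- Sum of the squares of all coordinates. -/
noncomputable def sz (X : B P A) : A := ∑ a, szC (X.coeff a)

/-- A `G`-bilinear pairing. -/
noncomputable def lam (μ e : B P A) : G A := ((μ * e).coeff 0).im

variable {P}

theorem up_eq (r : G A) : up P r = algebraMap (C A) (B P A) (algebraMap (G A) (C A) r) := rfl

theorem coeff_up_mul (r : G A) (X : B P A) (a : ZMod P.q) :
    (up P r * X).coeff a = r • X.coeff a := by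
  rw [up_eq, coeff_algebraMap_mul, Algebra.smul_def]

@[simp] theorem sm_up (t : (ZMod P.q)ˣ) (r : G A) : sm P t (up P r) = up P r := sm_algebraMap _ _

@[simp] theorem cj_up (r : G A) : cj P (up P r) = up P r := by
  rw [up_eq, cj, gmap_algebraMap, starRingEnd_apply]
  exact congrArg _ (by ext <;> simp)

@[simp] theorem coeff_cj (X : B P A) (a : ZMod P.q) : (cj P X).coeff a = star (X.coeff a) := by
  rw [cj, coeff_gmap, starRingEnd_apply]

@[simp] theorem cj_cj (X : B P A) : cj P (cj P X) = X := grp_ext fun a => by simp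

theorem cj_sm (t : (ZMod P.q)ˣ) (X : B P A) : cj P (sm P t X) = sm P t (cj P X) := gmap_sm _ _ _

theorem cj_nrm (X : B P A) : cj P (nrm P X) = nrm P (cj P X) := gmap_nrm _ _

@[simp] theorem cj_sAll : cj P (sAll P : B P A) = sAll P := gmap_sAll _

theorem Inv.cj {X : B P A} (h : Inv P X) : Inv P (cj P X) := h.gmap _

theorem up_dvd_iff (r : G A) (X : B P A) :
    up P r ∣ X ↔ ∀ a, r ∣ (X.coeff a).re ∧ r ∣ (X.coeff a).im := by
  rw [up_eq, dvd_iff_coeff]; simp only [QuadraticAlgebra.algebraMap_dvd_iff]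

theorem lam_add (μ e e' : B P A) : lam P μ (e + e') = lam P μ e + lam P μ e' := by
  simp [lam, mul_add]

theorem lam_up_mul (μ : B P A) (r : G A) (e : B P A) : lam P μ (up P r * e) = r * lam P μ e := by
  rw [lam, mul_left_comm, coeff_up_mul]; simp [lam]

theorem cB_inj : Function.Injective (cB P) := gmap_inj cC_inj
theorem c0_inj : Function.Injective (c0 P) := gmap_inj Int.cast_injective

@[simp] theorem coeff_cB (X : B P ℤ) (a : ZMod P.q) : (cB P X).coeff a = cC (X.coeff a) := by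
  simp [cB]
@[simp] theorem coeff_c0 (X : Grp P ℤ) (a : ZMod P.q) : (c0 P X).coeff a = X.coeff a := by
  simp [c0]

theorem cB_sm (t : (ZMod P.q)ˣ) (X : B P ℤ) : cB P (sm P t X) = sm P t (cB P X) := gmap_sm _ _ _
theorem cB_nrm (X : B P ℤ) : cB P (nrm P X) = nrm P (cB P X) := gmap_nrm _ _
theorem cB_cj (X : B P ℤ) : cB P (cj P X) = cj P (cB P X) := grp_ext fun a => by simp [cC_star]
theorem cB_up (r : G ℤ) : cB P (up P r) = up P (cG r) := by
  rw [up_eq, cB, gmap_algebraMap, up_eq]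
  exact congrArg _ (by ext <;> simp)
theorem cB_sz (X : B P ℤ) : sz P (cB P X) = (sz P X : ℤ) := by simp [sz, szC]
theorem cB_lam (μ e : B P ℤ) : lam P (cB P μ) (cB P e) = cG (lam P μ e) := by
  rw [lam, ← map_mul, coeff_cB]; rfl
theorem c0_Nm (X : Grp P ℤ) : Nm P (c0 P X) = (Nm P X : ℤ) := gmap_Nm _ _
theorem c0_sz0 (X : Grp P ℤ) : sz0 P (c0 P X) = (sz0 P X : ℤ) := gmap_sz0 _ _

theorem inR_cB (R : Subring ℚ) (X : B P ℤ) : InR R (cB P X) :=
  inR_grp.2 fun a => by rw [coeff_cB]; exact inR_cC _ _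
theorem inR_c0 (R : Subring ℚ) (X : Grp P ℤ) : InR R (c0 P X) :=
  inR_grp.2 fun a => by rw [coeff_c0]; exact inR_intCast _

theorem exists_cB {X : B P ℚ} (h : InR ⊥ X) : ∃ Y, cB P Y = X := by
  choose f hf using fun a => exists_cC (inR_grp.1 h a)
  exact ⟨.ofCoeff (Finsupp.equivFunOnFinite.symm f), grp_ext fun a => by
    rw [coeff_cB, ← hf a]; rfl⟩
theorem exists_c0 {X : Grp P ℚ} (h : InR ⊥ X) : ∃ Y, c0 P Y = X := by
  choose f hf using fun a => exists_int (inR_grp.1 h a)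
  exact ⟨.ofCoeff (Finsupp.equivFunOnFinite.symm f), grp_ext fun a => by
    rw [coeff_c0, ← hf a]; rfl⟩

theorem G_eq_zero_of_norm {x : G ℚ} (h : x.norm = 0) : x = 0 := by
  rw [QuadraticAlgebra.norm_def] at h
  ext
  · simp only [QuadraticAlgebra.re_zero]; nlinarith [sq_nonneg x.re, sq_nonneg x.im]
  · simp only [QuadraticAlgebra.im_zero]; nlinarith [sq_nonneg x.re, sq_nonneg x.im]

/-- Nonzero elements of `ℚ[i]` can be cancelled in `B ℚ`. -/
theorem up_cancel {r : G ℚ} (hr : r ≠ 0) {X : B P ℚ} (h : up P r * X = 0) : X = 0 := by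
  have hu : IsUnit r := QuadraticAlgebra.isUnit_iff_norm_isUnit.2
    (IsUnit.mk0 _ fun h0 => hr (G_eq_zero_of_norm h0))
  exact (hu.map (up P)).mul_right_eq_zero.1 h

/-- Nonzero integers can be cancelled in `B ℤ`. -/
theorem int_cancel {n : ℤ} (hn : n ≠ 0) {X Y : B P ℤ} (h : (n : B P ℤ) * X = n * Y) : X = Y := by
  apply cB_inj
  have h1 := congrArg (cB P) h
  rw [map_mul, map_mul, map_intCast, ← sub_eq_zero, ← mul_sub, ← map_intCast (up P (A := ℚ))] at h1
  refine sub_eq_zero.1 (up_cancel (fun h0 => hn ?_) h1)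
  have := congrArg QuadraticAlgebra.re h0
  simpa using this

end Bsec

section pm
variable {P : Par} {V : Type} [Coord V]

theorem PM.coeff' {k : Type} [CommRing k] [Coord k] {f : V → Grp P k} (a : ZMod P.q) (h : PM f) :
    PM fun v => (f v).coeff a := h.coeff a

@[fun_prop] theorem PM.sm {k : Type} [CommRing k] [Coord k] (t : (ZMod P.q)ˣ) {f : V → Grp P k}
    (h : PM f) : PM fun v => sm P t (f v) :=
  pm_grp.2 fun a => by simp only [coeff_sm]; exact h.coeff _

@[fun_prop] theorem PM.nrm {k : Type} [CommRing k] [Coord k] [PRing k] {f : V → Grp P k}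
    (h : PM f) : PM fun v => nrm P (f v) := PM.prod _ fun _ => h.sm _

@[fun_prop] theorem PM.Nm {k : Type} [CommRing k] [Coord k] [PRing k] {f : V → Grp P k}
    (h : PM f) : PM fun v => Nm P (f v) := (h.nrm.coeff _).sub (h.nrm.coeff _)

@[fun_prop] theorem PM.sz0 {k : Type} [CommRing k] [Coord k] [PRing k] {f : V → Grp P k}
    (h : PM f) : PM fun v => sz0 P (f v) := PM.sum _ fun _ => (h.coeff _).pow 2

theorem PM.algGrp {k : Type} [CommRing k] [Coord k] [PRing k] {f : V → k}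
    (h : PM f) : PM fun v => algebraMap k (Grp P k) (f v) := pm_grp.2 fun a => by
  classical
  simp only [algebraMap_eq, AddMonoidAlgebra.coeff_single, Finsupp.single_apply]
  split_ifs
  exacts [h, PM.const inR_zero]

theorem PM.algQuad {k : Type} [CommRing k] [Coord k] [PRing k] {a b : k} {f : V → k}
    (h : PM f) : PM fun v => algebraMap k (QuadraticAlgebra k a b) (f v) :=
  pm_quad.2 ⟨h, PM.const inR_zero⟩

theorem PM.star {k : Type} [CommRing k] [Coord k] [PRing k] {a : k}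
    {f : V → QuadraticAlgebra k a 0} (h : PM f) : PM fun v => star (f v) :=
  pm_quad.2 ⟨by simpa using h.re, by simpa using h.im.neg⟩

theorem PM.norm {f : V → G ℚ} (h : PM f) : PM fun v => (f v).norm := by
  have : (fun v => (f v).norm) = fun v => (f v).re ^ 2 + (f v).im ^ 2 := by
    funext v; simp [QuadraticAlgebra.norm_def, sq]
  rw [this]; fun_prop

@[fun_prop] theorem PM.up {f : V → G ℚ} (h : PM f) : PM fun v => up P (f v) := h.algQuad.algGrp

@[fun_prop] theorem PM.cj {f : V → B P ℚ} (h : PM f) : PM fun v => cj P (f v) :=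
  pm_grp.2 fun a => by simp only [coeff_cj]; exact (h.coeff _).star

@[fun_prop] theorem PM.sz {f : V → B P ℚ} (h : PM f) : PM fun v => sz P (f v) :=
  PM.sum _ fun a => by have := h.coeff a; unfold szC; fun_prop

@[fun_prop] theorem PM.lam {f g : V → B P ℚ} (hf : PM f) (hg : PM g) :
    PM fun v => lam P (f v) (g v) := ((hf.mul hg).coeff _).im

variable {R : Subring ℚ}

theorem InR.sm {k : Type} [CommRing k] [Coord k] (t : (ZMod P.q)ˣ) {X : Grp P k} (h : InR R X) :
    InR R (sm P t X) := (PM.id.sm t).inR h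
theorem InR.up {r : G ℚ} (h : InR R r) : InR R (up P r) := PM.id.up.inR h
theorem InR.cj {X : B P ℚ} (h : InR R X) : InR R (cj P X) := PM.id.cj.inR h
theorem InR.lam {X Y : B P ℚ} (hX : InR R X) (hY : InR R Y) : InR R (lam P X Y) :=
  (PM.id.fst.lam PM.id.snd).inR (v := (X, Y)) (inR_prod.2 ⟨hX, hY⟩)
theorem InR.star {r : G ℚ} (h : InR R r) : InR R (star r) := PM.id.star.inR h

end pm

/-- The group of units used as indices. -/
def U (P : Par) : Subgroup (B P ℤ)ˣ where
  carrier := {u | Inv P u.1 ∧ u.1 * cj P u.1 = 1 ∧ nrm P u.1 = 1 ∧ (4 : B P ℤ) ∣ u.1 - 1}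
  one_mem' := ⟨inv_one, by simp, by simp, by simp⟩
  mul_mem' := by
    rintro a b ⟨h1, h2, h3, h4⟩ ⟨k1, k2, k3, k4⟩
    refine ⟨h1.mul k1, ?_, ?_, ?_⟩
    · rw [Units.val_mul, map_mul, mul_mul_mul_comm, h2, k2, one_mul]
    · rw [Units.val_mul, nrm_mul, h3, k3, one_mul]
    · have : (a * b).1 - 1 = (a.1 - 1) * b.1 + (b.1 - 1) := by rw [Units.val_mul]; ring
      rw [this]; exact (h4.mul_right _).add k4
  inv_mem' := by
    rintro a ⟨h1, h2, h3, h4⟩
    have e : (a⁻¹).1 = cj P a.1 := Units.inv_eq_of_mul_eq_one_right h2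
    refine ⟨e ▸ h1.cj, ?_, ?_, ?_⟩
    · rw [e, cj_cj, mul_comm, h2]
    · rw [e, ← cj_nrm, h3, map_one]
    · have := map_dvd (cj P) h4
      rwa [map_sub, map_one, map_ofNat, ← e] at this

theorem mem_U {P : Par} {u : (B P ℤ)ˣ} :
    u ∈ U P ↔ Inv P u.1 ∧ u.1 * cj P u.1 = 1 ∧ nrm P u.1 = 1 ∧ (4 : B P ℤ) ∣ u.1 - 1 := Iff.rfl

theorem U.inv_eq {P : Par} {u : (B P ℤ)ˣ} (h : u ∈ U P) : (u⁻¹).1 = cj P u.1 :=
  Units.inv_eq_of_mul_eq_one_right h.2.1

/-- `sm` on units. -/
noncomputable def smU (P : Par) (t : (ZMod P.q)ˣ) : (B P ℤ)ˣ →* (B P ℤ)ˣ :=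
  Units.map (sm P t : B P ℤ →+* B P ℤ)

@[simp] theorem smU_val {P : Par} (t : (ZMod P.q)ˣ) (u : (B P ℤ)ˣ) :
    (smU P t u).1 = sm P t u.1 := rfl

theorem U.smU {P : Par} {u : (B P ℤ)ˣ} (h : u ∈ U P) (t : (ZMod P.q)ˣ) : smU P t u ∈ U P := by
  obtain ⟨h1, h2, h3, h4⟩ := h
  refine ⟨h1.sm t, ?_, ?_, ?_⟩
  · rw [smU_val, cj_sm, ← map_mul, h2, map_one]
  · rw [smU_val, nrm_sm, h3, map_one]
  · have := map_dvd (sm P t) h4
    rwa [map_sub, map_one, map_ofNat] at this

end Pool.Agent.MP_28f2cb_lc.H87
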