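import Pool.Agent.MP_28f2cb_lc.H87.Aniso

/-! Complex embeddings, the logarithmic size on `U`, discreteness and the rank bound. -/

namespace Pool.Agent.MP_28f2cb_lc.H87

open Finset
open AddMonoidAlgebra (single)
open scoped QuadraticAlgebra

/-- Pigeonhole for real linear forms (copied from the team file MP_807c24_nt/H42/Box). -/
theorem box {D κ : Type*} [Fintype D] [Fintype κ] (H : ℕ) (A : κ → D → ℝ) (R ε : κ → ℝ)
    (hε : ∀ k, 0 < ε k) (hR : ∀ k, H * ∑ d, |A k d| ≤ R k)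
    (hcount : ∏ k, (2 * R k / ε k + 1) < ((H : ℝ) + 1) ^ Fintype.card D) :
    ∃ c : D → ℤ, c ≠ 0 ∧ (∀ d, |c d| ≤ H) ∧ ∀ k, |∑ d, c d * A k d| < ε k := by
  classical
  have hR0 : ∀ k, 0 ≤ R k := fun k => le_trans (by positivity) (hR k)
  let s : Finset (D → ℤ) := Fintype.piFinset fun _ => Icc 0 (H : ℤ)
  let t : Finset (κ → ℕ) := Fintype.piFinset fun k => range (⌊2 * R k / ε k⌋₊ + 1)
  have hb : ∀ c ∈ s, ∀ k, |∑ d, c d * A k d| ≤ R k := fun c hc k => by
    refine (abs_sum_le_sum_abs _ _).trans (le_trans ?_ (hR k))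
    rw [mul_sum]
    refine sum_le_sum fun d _ => ?_
    have := mem_Icc.1 (Fintype.mem_piFinset.1 hc d)
    rw [abs_mul, abs_of_nonneg (by exact_mod_cast this.1)]
    exact mul_le_mul_of_nonneg_right (by exact_mod_cast this.2) (abs_nonneg _)
  have hlt : #t < #s := by
    have : ((#t : ℕ) : ℝ) < (#s : ℕ) := by
      simp only [s, t, Fintype.card_piFinset, card_range, Int.card_Icc, prod_const, card_univ]
      push_cast
      refine lt_of_le_of_lt (prod_le_prod (fun _ _ => by positivity) fun k _ => ?_)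
        (hcount.trans_eq (by simp))
      have := hε k
      have := hR0 k
      exact add_le_add_left (Nat.floor_le (by positivity)) _
    exact_mod_cast this
  obtain ⟨x, hx, y, hy, hxy, e⟩ := exists_ne_map_eq_of_card_lt_of_maps_to hlt
    (f := fun c k => ⌊(∑ d, c d * A k d + R k) / ε k⌋₊) fun c hc => by
      refine Fintype.mem_piFinset.2 fun k => mem_range.2 (Nat.lt_succ_of_le (Nat.floor_mono ?_))
      exact div_le_div_of_nonneg_right (by linarith [(abs_le.1 (hb c hc k)).2]) (hε k).le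
  refine ⟨x - y, sub_ne_zero.2 hxy, fun d => ?_, fun k => ?_⟩
  · have a1 := mem_Icc.1 (Fintype.mem_piFinset.1 hx d)
    have a2 := mem_Icc.1 (Fintype.mem_piFinset.1 hy d)
    rw [Pi.sub_apply, abs_le]
    constructor <;> linarith [a1.1, a1.2, a2.1, a2.2]
  · have e1 := congrFun e k
    have a1 := (abs_le.1 (hb x hx k)).1
    have a2 := (abs_le.1 (hb y hy k)).1
    have e2 : ∑ d, ((x - y) d : ℝ) * A k d = ∑ d, x d * A k d - ∑ d, y d * A k d := by
      rw [← sum_sub_distrib]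
      refine sum_congr rfl fun d _ => ?_
      rw [Pi.sub_apply]
      push_cast
      ring
    rw [e2]
    generalize ∑ d, (x d : ℝ) * A k d = u at *
    generalize ∑ d, (y d : ℝ) * A k d = v at *
    have h0 := hε k
    have b1 := Nat.floor_le (show 0 ≤ (u + R k) / ε k from div_nonneg (by linarith) h0.le)
    have b2 := Nat.floor_le (show 0 ≤ (v + R k) / ε k from div_nonneg (by linarith) h0.le)
    have b3 := Nat.lt_floor_add_one ((u + R k) / ε k)
    have b4 := Nat.lt_floor_add_one ((v + R k) / ε k)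
    rw [e1] at b1 b3
    rw [le_div_iff₀ h0] at b1 b2
    rw [div_lt_iff₀ h0] at b3 b4
    rw [abs_lt]
    constructor <;> linarith

theorem box0 {D κ : Type} [Fintype D] [Fintype κ] (hc : Fintype.card κ < Fintype.card D)
    (A : κ → D → ℝ) {ε : ℝ} (hε : 0 < ε) :
    ∃ c : D → ℤ, c ≠ 0 ∧ ∀ k, |∑ d, c d * A k d| < ε := by
  set S : ℝ := ∑ k, ∑ d, |A k d|
  have hS : ∀ k, ∑ d, |A k d| ≤ S := fun k =>
    single_le_sum (f := fun k => ∑ d, |A k d|) (fun _ _ => by positivity) (mem_univ k)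
  have hS0 : 0 ≤ S := by positivity
  obtain ⟨H, hH⟩ := exists_nat_gt ((2 * S / ε + 1) ^ Fintype.card κ)
  obtain ⟨c, h1, -, h2⟩ := box H A (fun _ => H * S) (fun _ => ε) (fun _ => hε)
    (fun k => mul_le_mul_of_nonneg_left (hS k) (by positivity)) (by
      rw [prod_const, card_univ]
      have h0 : 0 ≤ 2 * S / ε := by positivity
      have e : 2 * (H * S) / ε = H * (2 * S / ε) := by ring
      calc (2 * (H * S) / ε + 1) ^ Fintype.card κ
          ≤ ((2 * S / ε + 1) * (H + 1)) ^ Fintype.card κ := by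
            rw [e]; gcongr; nlinarith [(Nat.cast_nonneg H : (0 : ℝ) ≤ H)]
        _ < (H + 1) * (H + 1) ^ Fintype.card κ := by
            rw [mul_pow]; gcongr; linarith
        _ ≤ (H + 1) ^ Fintype.card D := by
            rw [← pow_succ']
            exact pow_le_pow_right₀ (by linarith [(Nat.cast_nonneg H : (0 : ℝ) ≤ H)]) hc)
  exact ⟨c, h1, h2⟩

/-- A complex square root of `1 + i`. -/
noncomputable def w0 : ℂ := (IsAlgClosed.exists_eq_mul_self (1 + Complex.I)).choose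

theorem w0_mul : w0 * w0 = 1 + Complex.I :=
  (IsAlgClosed.exists_eq_mul_self (1 + Complex.I)).choose_spec.symm

theorem w0_four : ‖w0‖ ^ 4 = 2 := by
  have : ‖w0‖ ^ 4 = ‖w0 * w0‖ ^ 2 := by rw [norm_mul]; ring
  rw [this, w0_mul, Complex.sq_norm, Complex.normSq_apply]; norm_num

theorem one_le_w0 : 1 ≤ ‖w0‖ := by
  by_contra h
  have := pow_lt_one₀ (norm_nonneg w0) (not_le.1 h) (n := 4) (by norm_num)
  linarith [w0_four]

theorem w0_le : ‖w0‖ ≤ 2 := by
  by_contra h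
  have := pow_lt_pow_left₀ (not_le.1 h) (by norm_num) (n := 4) (by norm_num)
  linarith [w0_four]

/-- `ℤ[i] → ℂ`. -/
noncomputable def eG : G ℤ →+* ℂ where
  toFun x := x.re + x.im * Complex.I
  map_one' := by simp
  map_zero' := by simp
  map_mul' x y := by
    simp only [QuadraticAlgebra.re_mul, QuadraticAlgebra.im_mul]
    push_cast
    linear_combination (-(x.im : ℂ) * y.im) * Complex.I_sq
  map_add' x y := by simp; ring

theorem eG_apply (x : G ℤ) : eG x = x.re + x.im * Complex.I := rfl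

/-- `C ℤ → ℂ`. -/
noncomputable def eC : C ℤ →+* ℂ where
  toFun x := eG x.re + eG x.im * w0
  map_one' := by simp
  map_zero' := by simp
  map_mul' x y := by
    have : eG ⟨1, 1⟩ = w0 * w0 := by rw [w0_mul, eG_apply]; simp
    simp only [QuadraticAlgebra.re_mul, QuadraticAlgebra.im_mul, map_add, map_mul, this, map_zero]
    ring
  map_add' x y := by simp; ring

theorem eC_apply (x : C ℤ) : eC x = eG x.re + eG x.im * w0 := rfl

/-- The conjugate embedding. -/
noncomputable def eC' : C ℤ →+* ℂ := eC.comp (starRingEnd (C ℤ))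

theorem eC'_apply (x : C ℤ) : eC' x = eG x.re - eG x.im * w0 := by
  rw [eC', RingHom.comp_apply, starRingEnd_apply, eC_apply]; simp [sub_eq_add_neg]

theorem eG_sq (x : G ℤ) : ‖eG x‖ ^ 2 = (x.norm : ℤ) := by
  rw [Complex.sq_norm, eG_apply, Complex.normSq_apply]; simp [QuadraticAlgebra.norm_def]

theorem G_norm_eq (x : G ℤ) : x.norm = x.re ^ 2 + x.im ^ 2 := by
  simp [QuadraticAlgebra.norm_def, sq]

theorem G_norm_pos {x : G ℤ} (h : x ≠ 0) : 0 < x.norm := by
  rw [G_norm_eq]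
  by_contra h0
  exact h (QuadraticAlgebra.ext (by simp only [QuadraticAlgebra.re_zero]; nlinarith)
    (by simp only [QuadraticAlgebra.im_zero]; nlinarith))

theorem one_le_eG {x : G ℤ} (h : x ≠ 0) : 1 ≤ ‖eG x‖ := by
  have h1 : (1 : ℝ) ≤ (x.norm : ℤ) := by exact_mod_cast G_norm_pos h
  rw [← eG_sq] at h1
  nlinarith [norm_nonneg (eG x)]

theorem eG_le (x : G ℤ) : ‖eG x‖ ≤ (x.norm : ℤ) := by
  by_cases h : x = 0
  · simp [h]
  · have := one_le_eG h
    rw [← eG_sq]; nlinarith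

theorem szC_eq (x : C ℤ) : szC x = x.re.norm + x.im.norm := by
  simp only [szC, G_norm_eq]; ring

theorem G_norm_nonneg (x : G ℤ) : 0 ≤ x.norm := by rw [G_norm_eq]; positivity

theorem eC_le (x : C ℤ) : ‖eC x‖ ≤ 2 * (szC x : ℤ) ∧ ‖eC' x‖ ≤ 2 * (szC x : ℤ) := by
  have h1 := eG_le x.re
  have h2 := eG_le x.im
  have h3 : ‖eG x.im * w0‖ ≤ ‖eG x.im‖ * 2 := by
    rw [norm_mul]; exact mul_le_mul_of_nonneg_left w0_le (norm_nonneg _)
  have h4 := norm_nonneg (eG x.re)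
  rw [szC_eq, eC_apply, eC'_apply]
  push_cast
  exact ⟨(norm_add_le _ _).trans (by linarith), (norm_sub_le _ _).trans (by linarith)⟩

theorem C_eq_zero {x : C ℤ} (h : ‖eC x‖ < 1) (h' : ‖eC' x‖ < 1) : x = 0 := by
  have e1 : 2 * eG x.re = eC x + eC' x := by rw [eC_apply, eC'_apply]; ring
  have e2 : 2 * (eG x.im * w0) = eC x - eC' x := by rw [eC_apply, eC'_apply]; ring
  have h1 := norm_add_le (eC x) (eC' x)
  have h2 := norm_sub_le (eC x) (eC' x)
  rw [← e1, norm_mul, Complex.norm_two] at h1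
  rw [← e2, norm_mul, norm_mul, Complex.norm_two] at h2
  refine QuadraticAlgebra.ext ?_ ?_
  · by_contra h0; linarith [one_le_eG (x := x.re) h0]
  · by_contra h0
    nlinarith [one_le_eG (x := x.im) h0, one_le_w0]

variable (P : Par)

/-- The standard character. -/
noncomputable def χ0 : AddChar (ZMod P.q) ℂ := ZMod.stdAddChar

/-- The main embedding. -/
noncomputable def ψ : B P ℤ →+* ℂ := ev P eC (χ0 P)

variable {P}

theorem χ0_prim : (χ0 P).IsPrimitive := ZMod.isPrimitive_stdAddChar _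

theorem χ0_ne : χ0 P ≠ 1 := by simpa using χ0_prim (P := P) one_ne_zero

section
variable {k : Type} [CommRing k]

theorem ev_le (φ : k →+* ℂ) (χ : AddChar (ZMod P.q) ℂ) (X : Grp P k) :
    ‖ev P φ χ X‖ ≤ ∑ a, ‖φ (X.coeff a)‖ := by
  rw [ev_apply]
  exact (norm_sum_le _ _).trans (le_of_eq (by simp))

theorem inversion (φ : k →+* ℂ) (X : Grp P k) (a : ZMod P.q) :
    ∑ t, ev P φ ((χ0 P).mulShift t) X * χ0 P (-(t * a)) = P.q * φ (X.coeff a) := by
  simp only [ev_apply, sum_mul, AddChar.mulShift_apply]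
  rw [sum_comm]
  have : ∀ b, ∑ t, φ (X.coeff b) * χ0 P (t * b) * χ0 P (-(t * a)) =
      φ (X.coeff b) * if b - a = 0 then (P.q : ℂ) else 0 := fun b => by
    have := AddChar.sum_mulShift (b - a) (χ0_prim (P := P))
    rw [ZMod.card] at this
    push_cast at this
    rw [← this, mul_sum]
    refine sum_congr rfl fun t _ => ?_
    rw [mul_assoc, ← AddChar.map_add_eq_mul]; congr 2; ring
  simp only [this, sub_eq_zero]
  simp [mul_comm]

theorem coeff_lt (φ : k →+* ℂ) (X : Grp P k) (h : ∀ t, ‖ev P φ ((χ0 P).mulShift t) X‖ < 1)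
    (a : ZMod P.q) : ‖φ (X.coeff a)‖ < 1 := by
  have h1 := congrArg norm (inversion φ X a)
  have h2 : ‖∑ t, ev P φ ((χ0 P).mulShift t) X * χ0 P (-(t * a))‖ < ∑ _t : ZMod P.q, (1 : ℝ) :=
    (norm_sum_le _ _).trans_lt (sum_lt_sum_of_nonempty univ_nonempty fun t _ => by
      simpa using h t)
  rw [h1] at h2
  have : (0 : ℝ) < P.q := by exact_mod_cast P.hq.pos
  simp only [norm_mul, Complex.norm_natCast, sum_const, card_univ, ZMod.card, nsmul_eq_mul] at h2
  exact lt_of_mul_lt_mul_left h2 this.le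

end

theorem ψ_cj (χ : AddChar (ZMod P.q) ℂ) (X : B P ℤ) : ev P eC χ (cj P X) = ev P eC' χ X :=
  ev_gmap _ _ _ _

theorem ψ_le (t : (ZMod P.q)ˣ) (X : B P ℤ) :
    ‖ψ P (sm P t X)‖ ≤ 2 * (sz P X : ℤ) ∧ ‖ψ P (sm P t (cj P X))‖ ≤ 2 * (sz P X : ℤ) := by
  rw [ψ, ev_sm, ev_sm, ψ_cj, sz]
  push_cast
  rw [mul_sum]
  exact ⟨(ev_le _ _ _).trans (sum_le_sum fun a _ => (eC_le _).1),
    (ev_le _ _ _).trans (sum_le_sum fun a _ => (eC_le _).2)⟩

/-- The logarithmic embeddings. -/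
noncomputable def L (P : Par) (j : ℕ) : (B P ℤ)ˣ →* Multiplicative ℝ where
  toFun u := .ofAdd (Real.log ‖ψ P (sm P (P.g ^ j) u.1)‖)
  map_one' := by simp
  map_mul' u v := by
    rw [Units.val_mul, map_mul, map_mul, norm_mul, Real.log_mul, ofAdd_add]
    · exact norm_ne_zero_iff.2 ((u.isUnit.map _).map _).ne_zero
    · exact norm_ne_zero_iff.2 ((v.isUnit.map _).map _).ne_zero

theorem L_apply (j : ℕ) (u : (B P ℤ)ˣ) :
    (L P j u).toAdd = Real.log ‖ψ P (sm P (P.g ^ j) u.1)‖ := rfl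

theorem ψ_pos (t : (ZMod P.q)ˣ) (u : (B P ℤ)ˣ) : 0 < ‖ψ P (sm P t u.1)‖ :=
  norm_pos_iff.2 ((u.isUnit.map _).map _).ne_zero

theorem U.sum_L {u : (B P ℤ)ˣ} (h : u ∈ U P) : ∑ j ∈ range P.D, (L P j u).toAdd = 0 := by
  simp only [L_apply]
  rw [← Real.log_prod (fun j _ => (ψ_pos _ u).ne'), ← norm_prod, ← map_prod, ← nrm, h.2.2.1]
  simp

theorem U.abs_L_le {u : (B P ℤ)ˣ} (h : u ∈ U P) (j : ℕ) :
    |(L P j u).toAdd| ≤ 2 * (sz P u.1 : ℤ) := by
  refine abs_le.2 ⟨?_, (Real.log_le_self (norm_nonneg _)).trans (ψ_le _ _).1⟩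
  have := (Real.log_le_self (norm_nonneg _)).trans (ψ_le (P.g ^ j) u.1).2
  rw [← U.inv_eq h, ← L_apply, map_inv, toAdd_inv] at this
  linarith

theorem U.eq_one {u : (B P ℤ)ˣ} (h : u ∈ U P) (hL : ∀ j < P.D, |(L P j u).toAdd| < 1) :
    u = 1 := by
  have key : ∀ v ∈ U P, (∀ j < P.D, (L P j v).toAdd < 1) →
      ∀ t, ‖ev P eC ((χ0 P).mulShift t) v.1‖ < 3 := fun v hv hL t => by
    by_cases ht : t = 0
    · have h1 : ev P eC ((χ0 P).mulShift t) v.1 ^ P.D = 1 := by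
        have := congrArg (ev P eC ((χ0 P).mulShift t)) hv.2.2.1
        simp only [nrm, map_prod, ev_sm, AddChar.mulShift_mulShift, ht, zero_mul] at this
        simpa [ht] using this
      have h2 := congrArg norm h1
      rw [norm_pow, norm_one, pow_eq_one_iff_of_nonneg (norm_nonneg _) P.hD.ne_zero] at h2
      linarith
    · obtain ⟨n, hn⟩ := P.hg (Units.mk0 t ht)
      have h1 : ev P eC ((χ0 P).mulShift t) v.1 = ψ P (sm P (P.g ^ (n % P.D)) v.1) := by
        rw [← hv.1.sm_mod, hn, ψ, ev_sm]; rfl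
      have h2 := hL _ (Nat.mod_lt n P.hD.pos)
      rw [L_apply, Real.log_lt_iff_lt_exp (ψ_pos _ _)] at h2
      rw [h1]
      linarith [Real.exp_one_lt_d9]
  have h1 := key u h fun j hj => (abs_lt.1 (hL j hj)).2
  have h2 := key u⁻¹ (inv_mem h) fun j hj => by
    rw [map_inv, toAdd_inv]; linarith [(abs_lt.1 (hL j hj)).1]
  simp only [U.inv_eq h, ψ_cj] at h2
  obtain ⟨e, he⟩ := h.2.2.2
  have small : ∀ f : B P ℤ →+* ℂ, ‖f u.1‖ < 3 → ‖f e‖ < 1 := fun f hf => by
    have := congrArg (fun x => ‖f x‖) he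
    simp only [map_sub, map_one, map_mul, map_ofNat, norm_mul, Complex.norm_ofNat] at this
    have h3 := norm_sub_le (f u.1) 1
    rw [norm_one] at h3
    linarith
  have : e = 0 := grp_ext fun a => C_eq_zero (coeff_lt _ _ (fun t => small _ (h1 t)) a)
    (coeff_lt _ _ (fun t => small _ (h2 t)) a)
  rw [this, mul_zero, sub_eq_zero] at he
  exact Units.ext he

/-- The size of a unit. -/
noncomputable def Λ (P : Par) (u : (B P ℤ)ˣ) : ℝ := ∑ j ∈ range P.D, |(L P j u).toAdd|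

theorem Λ_nonneg (u : (B P ℤ)ˣ) : 0 ≤ Λ P u := sum_nonneg fun _ _ => abs_nonneg _

theorem Λ_mul (u v : (B P ℤ)ˣ) : Λ P (u * v) ≤ Λ P u + Λ P v := by
  simp only [Λ, ← sum_add_distrib, map_mul, toAdd_mul]
  exact sum_le_sum fun _ _ => abs_add_le _ _

theorem Λ_zpow (u : (B P ℤ)ˣ) (n : ℤ) : Λ P (u ^ n) = |(n : ℝ)| * Λ P u := by
  simp [Λ, mul_sum, abs_mul]

theorem U.one_le_Λ {u : (B P ℤ)ˣ} (h : u ∈ U P) (h1 : u ≠ 1) : 1 ≤ Λ P u := by
  by_contra h0
  exact h1 (U.eq_one h fun j hj => (single_le_sum (f := fun j => |(L P j u).toAdd|)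
    (fun _ _ => abs_nonneg _) (mem_range.2 hj)).trans_lt (not_le.1 h0))

theorem U.Λ_le {u : (B P ℤ)ˣ} (h : u ∈ U P) : Λ P u ≤ 2 * P.D * (sz P u.1 : ℤ) := by
  refine (sum_le_sum fun j _ => U.abs_L_le h j).trans (le_of_eq ?_)
  simp; ring

theorem U.torsionFree {u : (B P ℤ)ˣ} (h : u ∈ U P) {n : ℤ} (hn : n ≠ 0) (e : u ^ n = 1) :
    u = 1 := by
  by_contra h1
  have h2 := Λ_zpow u n
  have h3 : Λ P 1 = 0 := by simp [Λ]
  have h4 : (0 : ℝ) < |(n : ℝ)| := by positivity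
  rw [e, h3] at h2
  nlinarith [U.one_le_Λ h h1]

theorem U.dep (v : Option (Fin (P.D - 1)) → (B P ℤ)ˣ) (hv : ∀ i, v i ∈ U P) :
    ∃ m : Option (Fin (P.D - 1)) → ℤ, m ≠ 0 ∧ ∏ i, v i ^ m i = 1 := by
  have hD : (0 : ℝ) < P.D := by exact_mod_cast P.hD.pos
  obtain ⟨m, h0, hm⟩ := box0 (D := Option (Fin (P.D - 1))) (κ := Fin (P.D - 1)) (by simp)
    (fun j i => (L P (j + 1) (v i)).toAdd) (ε := 1 / P.D) (by positivity)
  have hw : ∏ i, v i ^ m i ∈ U P := prod_mem fun i _ => zpow_mem (hv i) _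
  refine ⟨m, h0, U.eq_one hw fun j hj => ?_⟩
  have h1 : ∀ j < P.D - 1, |(L P (j + 1) (∏ i, v i ^ m i)).toAdd| < 1 / P.D := fun j hj => by
    simpa [toAdd_prod] using hm ⟨j, hj⟩
  have h2 : 1 / (P.D : ℝ) ≤ 1 := by
    rw [div_le_one hD]; exact_mod_cast P.hD.pos
  generalize ∏ i, v i ^ m i = w at hw h1 ⊢
  rcases j with _ | j
  · have h3 := U.sum_L hw
    have e : P.D = P.D - 1 + 1 := by omega
    rw [e, sum_range_succ', add_comm, add_eq_zero_iff_eq_neg] at h3
    rw [h3, abs_neg]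
    refine ((abs_sum_le_sum_abs _ _).trans
      (sum_le_sum fun j hj => (h1 j (mem_range.1 hj)).le)).trans_lt ?_
    rw [sum_const, card_range, nsmul_eq_mul, mul_one_div, div_lt_one hD]
    exact_mod_cast (by omega : P.D - 1 < P.D)
  · exact (h1 j (by omega)).trans_le h2

end Pool.Agent.MP_28f2cb_lc.H87
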