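import Pool.Agent.MP_28f2cb_lc.H87.Emb

/-! The group `U` is nontrivial. -/

namespace Pool.Agent.MP_28f2cb_lc.H87

open Finset
open AddMonoidAlgebra (single)
open scoped QuadraticAlgebra

variable {P : Par}

theorem finite_quot {m : ℕ} (hm : m ≠ 0) : Finite (B P ℤ ⧸ Ideal.span {(m : B P ℤ)}) := by
  have : Module.Finite ℤ (C ℤ) := Module.Finite.trans (G ℤ) _
  have : Module.Finite ℤ (B P ℤ) := Module.Finite.trans (C ℤ) _
  refine Module.finite_of_fg_torsion _ fun x => ⟨⟨m, mem_nonZeroDivisors_of_ne_zero (by simpa)⟩, ?_⟩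
  have : ((m : B P ℤ ⧸ Ideal.span {(m : B P ℤ)})) = 0 := by
    rw [← map_natCast (Ideal.Quotient.mk _), Ideal.Quotient.eq_zero_iff_mem]
    exact Ideal.mem_span_singleton_self _
  simp [Submonoid.smul_def, this]

theorem exists_pow_one (u : (B P ℤ)ˣ) {m : ℕ} (hm : m ≠ 0) :
    ∃ N : ℕ, 0 < N ∧ (m : B P ℤ) ∣ (u ^ N).1 - 1 := by
  have := finite_quot (P := P) hm
  obtain ⟨N, hN, e⟩ := (isOfFinOrder_of_finite
    (Units.map (Ideal.Quotient.mk (Ideal.span {(m : B P ℤ)})).toMonoidHom u)).exists_pow_eq_one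
  refine ⟨N, hN, ?_⟩
  rw [← Ideal.mem_span_singleton, ← Ideal.Quotient.eq]
  simpa using congrArg Units.val e

/-- The class of a nonzero residue modulo `D`-th powers. -/
noncomputable def cls (P : Par) (a : ZMod P.q) : ZMod P.D :=
  if h : a = 0 then 0 else ((P.hg (Units.mk0 a h)).choose : ℕ)

theorem cls_pow (n : ℕ) : cls P (P.g ^ n : (ZMod P.q)ˣ) = n := by
  rw [cls, dif_neg (P.g ^ n).ne_zero]
  have := (P.hg (Units.mk0 _ (P.g ^ n).ne_zero)).choose_spec
  rw [Units.mk0_val, pow_eq_pow_iff_modEq, P.orderOf_g] at this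
  simp only [Units.mk0_val]
  exact (ZMod.natCast_eq_natCast_iff _ _ _).2 (this.of_dvd P.hdvd)

/-- The invariant element with prescribed values on the classes. -/
noncomputable def spread (P : Par) {k : Type} [CommRing k] : (ZMod P.D → k) →+ Grp P k where
  toFun b := .ofCoeff (Finsupp.equivFunOnFinite.symm fun a => if a = 0 then 0 else b (cls P a))
  map_zero' := grp_ext fun a => by simp
  map_add' b b' := grp_ext fun a => by by_cases h : a = 0 <;> simp [h]

section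
variable {k : Type} [CommRing k]

theorem coeff_spread (b : ZMod P.D → k) (a : ZMod P.q) :
    (spread P b).coeff a = if a = 0 then 0 else b (cls P a) := rfl

theorem spread_zero (b : ZMod P.D → k) : (spread P b).coeff 0 = 0 := by simp [coeff_spread]

theorem spread_pow (b : ZMod P.D → k) (n : ℕ) :
    (spread P b).coeff (P.g ^ n : (ZMod P.q)ˣ) = b n := by
  rw [coeff_spread, if_neg (P.g ^ n).ne_zero, cls_pow]

theorem inv_spread (b : ZMod P.D → k) : Inv P (spread P b) := grp_ext fun a => by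
  by_cases h : a = 0
  · rw [coeff_sm, h, mul_zero]
  · obtain ⟨n, hn⟩ := P.hg ((P.g ^ P.D)⁻¹ * Units.mk0 a h)
    have : a = (P.g ^ P.D : (ZMod P.q)ˣ) * (P.g ^ n : (ZMod P.q)ˣ) := by
      rw [hn, Units.val_mul, Units.mul_inv_cancel_left]; rfl
    rw [this, coeff_sm_mul, ← Units.val_mul, ← pow_add, spread_pow, spread_pow]; simp

theorem spread_ne_zero {b : ZMod P.D → k} (h : b ≠ 0) : spread P b ≠ 0 := fun e => h (by
  funext j
  have := spread_pow b j.val
  rw [e, ZMod.natCast_zmod_val] at this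
  exact this.symm)

end

theorem boxC {ι κ : Type} [Fintype ι] [Fintype κ]
    (hc : Fintype.card ι = 2 * (Fintype.card κ + 1)) (A : κ → ι → ℂ) :
    ∃ K : ℝ, 0 < K ∧ ∀ s : ℕ, 2 ≤ s → ∃ c : ι → ℤ, c ≠ 0 ∧ (∀ d, |c d| ≤ s ^ Fintype.card κ) ∧
      ∀ k, ‖∑ d, c d * A k d‖ ≤ K / s := by
  set n := Fintype.card κ
  let A' : κ × Bool → ι → ℝ := fun k d => if k.2 then (A k.1 d).re else (A k.1 d).im
  set S : ℝ := ∑ k, ∑ d, |A' k d| + 1
  have hS0 : 0 < S := by positivity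
  have hS : ∀ k, ∑ d, |A' k d| ≤ S := fun k =>
    (single_le_sum (f := fun k => ∑ d, |A' k d|) (fun _ _ => by positivity) (mem_univ k)).trans
      (by simp [S])
  refine ⟨8 * S, by positivity, fun s hs => ?_⟩
  have hs' : (2 : ℝ) ≤ s := by exact_mod_cast hs
  obtain ⟨c, h1, h2, h3⟩ := box (s ^ n) A' (fun _ => (s ^ n : ℕ) * S) (fun _ => 4 * S / s)
    (fun _ => by positivity) (fun k => mul_le_mul_of_nonneg_left (hS k) (by positivity)) (by
      rw [prod_const, card_univ, hc, Fintype.card_prod, Fintype.card_bool]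
      push_cast
      have e : 2 * ((s : ℝ) ^ n * S) / (4 * S / s) = s ^ (n + 1) / 2 := by field_simp; ring
      have h2 : (2 : ℝ) ≤ s ^ (n + 1) :=
        hs'.trans (le_self_pow₀ (by linarith) (Nat.succ_ne_zero n))
      calc (2 * ((s : ℝ) ^ n * S) / (4 * S / s) + 1) ^ (n * 2)
          ≤ ((s : ℝ) ^ (n + 1)) ^ (n * 2) := by rw [e]; gcongr; linarith
        _ = ((s : ℝ) ^ n) ^ (2 * (n + 1)) := by ring
        _ < _ := by gcongr; linarith)
  refine ⟨c, h1, fun d => by exact_mod_cast h2 d, fun k => ?_⟩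
  have a1 := h3 (k, true)
  have a2 := h3 (k, false)
  refine (Complex.norm_le_abs_re_add_abs_im _).trans ?_
  simp only [A', if_true, Bool.false_eq_true, if_false] at a1 a2
  simp only [Complex.re_sum, Complex.im_sum, Complex.mul_re, Complex.mul_im, Complex.intCast_re,
    Complex.intCast_im, zero_mul, sub_zero, add_zero]
  have : 8 * S / s = 4 * S / s + 4 * S / s := by ring
  linarith

theorem C_norm_ne_zero {x : C ℤ} (h : x ≠ 0) : x.norm ≠ 0 := fun e => by
  have e1 : x.re * x.re = ⟨1, 1⟩ * x.im * x.im := by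
    simpa [QuadraticAlgebra.norm_def, sub_eq_zero] using e
  have e2 := congrArg QuadraticAlgebra.norm e1
  rw [map_mul, map_mul, map_mul, G_norm_eq ⟨1, 1⟩] at e2
  have h2 : x.im.norm = 0 := by
    by_contra h0
    have hirr := irrational_sqrt_two
    refine hirr ⟨(x.re.norm : ℚ) / x.im.norm, ?_⟩
    have h1 : (0 : ℝ) < (x.im.norm : ℤ) := by
      exact_mod_cast lt_of_le_of_ne (G_norm_nonneg _) (Ne.symm h0)
    have h3 : (0 : ℝ) ≤ (x.re.norm : ℤ) := by exact_mod_cast G_norm_nonneg _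
    have e3 : ((x.re.norm : ℤ) : ℝ) * (x.re.norm : ℤ) =
      2 * (x.im.norm : ℤ) * (x.im.norm : ℤ) := by exact_mod_cast e2
    push_cast
    rw [eq_comm, Real.sqrt_eq_iff_mul_self_eq (by norm_num) (by positivity)]
    field_simp
    linarith
  have h1 : x.re.norm = 0 := by simpa [h2] using e2
  exact h (QuadraticAlgebra.ext (by_contra fun h0 => (G_norm_pos h0).ne' h1)
    (by_contra fun h0 => (G_norm_pos h0).ne' h2))

theorem prod_emb {X : B P ℤ} (hX : Inv P X) : ‖eG (Nm P X).norm‖ =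
    (∏ j ∈ range P.D, ‖ψ P (sm P (P.g ^ j) X)‖) *
      ∏ j ∈ range P.D, ‖ψ P (sm P (P.g ^ j) (cj P X))‖ := by
  have e : eG (Nm P X).norm = eC (Nm P X) * eC' (Nm P X) := by
    rw [eC', RingHom.comp_apply, ← map_mul, starRingEnd_apply,
      ← QuadraticAlgebra.algebraMap_norm_eq_mul_star, eC_apply]; simp
  rw [e, ← hX.ev_nrm eC χ0_ne, ← hX.ev_nrm eC' χ0_ne, ← ψ_cj, cj_nrm, norm_mul]
  simp [nrm, ψ]

theorem dvd_of_aug {X : B P ℤ} (hX : Inv P X) (h : X * sAll P = (P.q : B P ℤ) * sAll P) :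
    X ∣ ((P.q * (Nm P X).norm.norm : ℤ) : B P ℤ) := by
  have h1 : X ∣ P.q * algebraMap (C ℤ) _ (Nm P X) := by
    have : (P.q : B P ℤ) * algebraMap (C ℤ) _ (Nm P X) =
        (P.q : B P ℤ) * nrm P X - algebraMap (C ℤ) _ ((nrm P X).coeff 1) * (X * sAll P) := by
      rw [h]; nth_rw 1 [hX.nrm_eq]; ring
    rw [this]
    exact dvd_sub ((dvd_nrm X).mul_left _) ((dvd_mul_right _ _).mul_left _)
  refine h1.trans ?_
  rw [Int.cast_mul, Int.cast_natCast]
  refine mul_dvd_mul_left _ ?_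
  rw [← map_intCast (up P (A := ℤ)), ← eq_intCast (algebraMap ℤ (G ℤ)),
    QuadraticAlgebra.algebraMap_norm_eq_mul_star, map_mul, up_eq,
    QuadraticAlgebra.algebraMap_norm_eq_mul_star, map_mul, mul_assoc]
  exact dvd_mul_right _ _

/-- The product of two of the absolute values. -/
noncomputable def num (P : Par) (X : B P ℤ) : ℝ := ‖ψ P X‖ * ‖ψ P (sm P P.g (cj P X))‖
/-- The product of two other absolute values. -/
noncomputable def den (P : Par) (X : B P ℤ) : ℝ := ‖ψ P (cj P X)‖ * ‖ψ P (sm P P.g X)‖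

/-- A basis of `C ℤ`. -/
def bas : Bool × Bool → C ℤ := fun r => (if r.1 then iC else 1) * if r.2 then wC else 1

theorem exists_small (P : Par) : ∃ M : ℕ, M ≠ 0 ∧ ∀ δ : ℝ, 0 < δ → ∃ X : B P ℤ,
    Inv P X ∧ X ∣ M ∧ 1 ≤ num P X ∧ 0 < den P X ∧ den P X ≤ δ := by
  let v : ZMod P.D × Bool × Bool → B P ℤ := fun d => spread P (Pi.single d.1 (bas d.2))
  let f : Fin (P.D - 1) ⊕ Fin P.D → B P ℤ →+* ℂ := fun k => match k with
    | .inl j => (ψ P).comp (sm P (P.g ^ (j + 1 : ℕ)))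
    | .inr j => ((ψ P).comp (sm P (P.g ^ (j : ℕ)))).comp (cj P)
  have hD := P.three_le
  obtain ⟨K, hK, H⟩ := boxC (ι := ZMod P.D × Bool × Bool) (κ := Fin (P.D - 1) ⊕ Fin P.D)
    (by simp [ZMod.card]; omega) fun k d => f k (v d)
  set n := Fintype.card (Fin (P.D - 1) ⊕ Fin P.D) with hn
  have hn' : n = P.D - 1 + P.D := by simp [hn]
  set S : ℝ := ∑ d, ‖ψ P (v d)‖
  have hS : 0 ≤ S := sum_nonneg fun _ _ => norm_nonneg _
  have hq : (1 : ℝ) ≤ P.q := by exact_mod_cast P.hq.pos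
  obtain ⟨M, hM⟩ := exists_nat_ge (P.q * ((P.q : ℝ) ^ (2 * P.D) * (S * K ^ n)) ^ 2)
  refine ⟨M.factorial, M.factorial_ne_zero, fun δ hδ => ?_⟩
  obtain ⟨s, hs⟩ := exists_nat_ge (2 + K + P.q ^ 2 * K / δ)
  have hp : 0 ≤ P.q ^ 2 * K / δ := by positivity
  have hs2 : (2 : ℝ) ≤ s := by linarith
  obtain ⟨c, hc0, hc1, hc2⟩ := H s (by exact_mod_cast hs2)
  set b : B P ℤ := ∑ d, c d * v d with hb
  have hb1 : b = spread P fun j => ∑ r, c (j, r) * bas r := by
    simp only [hb, v, ← zsmul_eq_mul, ← map_zsmul, ← map_sum]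
    congr 1
    funext j
    rw [Finset.sum_apply, Fintype.sum_prod_type, sum_comm]
    simp [Pi.single_apply]
  have hbi : Inv P b := hb1 ▸ inv_spread _
  have hb0 : b ≠ 0 := hb1 ▸ spread_ne_zero fun h => hc0 (funext fun ⟨j, r1, r2⟩ => by
    have := congrFun h j
    simp only [Fintype.sum_prod_type, Fintype.sum_bool, bas, QuadraticAlgebra.ext_iff] at this
    cases r1 <;> cases r2 <;> simp [iC, wC] at this ⊢ <;> tauto)
  have hf : ∀ k, ‖f k b‖ ≤ K / s := fun k => by simpa [hb] using hc2 k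
  have hψ : ‖ψ P b‖ ≤ s ^ n * S := by
    rw [hb, map_sum, mul_sum]
    refine (norm_sum_le _ _).trans (sum_le_sum fun d _ => ?_)
    rw [map_mul, map_intCast, norm_mul, Complex.norm_intCast]
    exact mul_le_mul_of_nonneg_right (by exact_mod_cast hc1 d) (norm_nonneg _)
  have f1 : ∀ j < P.D - 1, ‖ψ P (sm P (P.g ^ (j + 1)) b)‖ ≤ K / s := fun j hj => hf (.inl ⟨j, hj⟩)
  have f2 : ∀ j < P.D, ‖ψ P (sm P (P.g ^ j) (cj P b))‖ ≤ K / s := fun j hj => hf (.inr ⟨j, hj⟩)
  have hKs : K / s ≤ 1 := by rw [div_le_one (by linarith)]; linarith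
  have hν := one_le_eG (C_norm_ne_zero (Nm_ne_zeroB hbi (hb1 ▸ spread_zero _) hb0))
  rw [prod_emb hbi] at hν
  clear hf hb hb1 hc2 H hn
  clear_value b S n
  clear f v
  have e1 : ∏ j ∈ range P.D, ‖ψ P (sm P (P.g ^ j) b)‖ =
      (∏ j ∈ range (P.D - 1), ‖ψ P (sm P (P.g ^ (j + 1)) b)‖) * ‖ψ P b‖ := by
    simpa [show P.D - 1 + 1 = P.D by omega] using
      prod_range_succ' (fun j => ‖ψ P (sm P (P.g ^ j) b)‖) (P.D - 1)
  have hK0 : 0 ≤ K / s := by positivity
  have e2 : ∏ j ∈ range (P.D - 1), ‖ψ P (sm P (P.g ^ (j + 1)) b)‖ ≤ (K / s) ^ (P.D - 1) :=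
    (prod_le_prod (fun _ _ => norm_nonneg _) fun j hj => f1 j (mem_range.1 hj)).trans
      (by rw [prod_const, card_range])
  have e3 : ∏ j ∈ range P.D, ‖ψ P (sm P (P.g ^ j) (cj P b))‖ ≤ (K / s) ^ P.D :=
    (prod_le_prod (fun _ _ => norm_nonneg _) fun j hj => f2 j (mem_range.1 hj)).trans
      (by rw [prod_const, card_range])
  have e4 : ∏ j ∈ range P.D, ‖ψ P (sm P (P.g ^ j) (cj P b))‖ ≤ ‖ψ P (sm P P.g (cj P b))‖ := by
    rw [← mul_prod_erase _ _ (mem_range.2 P.hD.one_lt), pow_one]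
    exact mul_le_of_le_one_right (norm_nonneg _) (prod_le_one (fun _ _ => norm_nonneg _)
      fun j hj => (f2 j (mem_range.1 (mem_of_mem_erase hj))).trans hKs)
  have e5 : 0 < ‖ψ P (sm P P.g b)‖ ∧ 0 < ‖ψ P (cj P b)‖ := by
    have h0 := (zero_lt_one.trans_le hν).ne'
    rw [mul_ne_zero_iff, prod_ne_zero_iff, prod_ne_zero_iff] at h0
    exact ⟨by simpa using h0.1 1 (mem_range.2 P.hD.one_lt),
      by simpa using h0.2 0 (mem_range.2 P.hD.pos)⟩
  have e6 : (∏ j ∈ range P.D, ‖ψ P (sm P (P.g ^ j) b)‖) *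
      ∏ j ∈ range P.D, ‖ψ P (sm P (P.g ^ j) (cj P b))‖ ≤ S * K ^ n := by
    rw [e1]
    calc _ ≤ (K / s) ^ (P.D - 1) * (s ^ n * S) * (K / s) ^ P.D :=
          mul_le_mul (mul_le_mul e2 hψ (norm_nonneg _) (pow_nonneg hK0 _)) e3
            (prod_nonneg fun _ _ => norm_nonneg _) (by positivity)
      _ = _ := by rw [hn', pow_add, pow_add, div_pow, div_pow]; field_simp
  have hs0 : ψ P (sAll P) = 0 := ev_sAll _ χ0_ne
  set X : B P ℤ := b * ((P.q : B P ℤ) - sAll P) + sAll P with hX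
  have x1 : ∀ t, ‖ψ P (sm P t X)‖ = P.q * ‖ψ P (sm P t b)‖ := fun t => by
    simp [hX, hs0, mul_comm]
  have x2 : ∀ t, ‖ψ P (sm P t (cj P X))‖ = P.q * ‖ψ P (sm P t (cj P b))‖ := fun t => by
    simp [hX, hs0, mul_comm]
  clear_value X
  have hXi : Inv P X := hX ▸ (hbi.mul ((inv_natCast _).sub inv_sAll)).add inv_sAll
  have x3 := prod_emb hXi
  simp only [x1, x2, prod_mul_distrib, prod_const, card_range] at x3
  rw [mul_mul_mul_comm, ← pow_add, ← two_mul] at x3
  have x4 := eG_sq (Nm P X).norm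
  have x5 : (0 : ℝ) < (P.q * (Nm P X).norm.norm : ℤ) := by
    push_cast; rw [← x4, x3]
    exact mul_pos (by positivity) (pow_pos (mul_pos (by positivity) (zero_lt_one.trans_le hν)) _)
  have x6 : ((P.q * (Nm P X).norm.norm : ℤ) : ℝ) ≤ M := by
    push_cast; rw [← x4, x3]; refine le_trans ?_ hM
    exact mul_le_mul_of_nonneg_left (pow_le_pow_left₀ (mul_nonneg (by positivity)
      (zero_le_one.trans hν)) (mul_le_mul_of_nonneg_left e6 (by positivity)) _) (by positivity)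
  have x7 := dvd_of_aug hXi (by
    rw [hX, add_mul, mul_assoc, sub_mul, sAll_mul_sAll, sub_self, mul_zero, zero_add])
  have y1 := x1 1
  have y2 := x2 1
  rw [sm_one, sm_one] at y1 y2
  refine ⟨X, hXi, x7.trans ?_, ?_, ?_, ?_⟩
  · obtain ⟨m, hm⟩ := Int.eq_ofNat_of_zero_le (Int.cast_pos.1 x5).le
    rw [hm] at x5 x6 ⊢
    exact_mod_cast Nat.cast_dvd_cast (α := B P ℤ)
      (Nat.dvd_factorial (by exact_mod_cast x5) (by exact_mod_cast x6))
  · rw [num, y1, x2]
    have h1 : 1 ≤ ‖ψ P b‖ * ‖ψ P (sm P P.g (cj P b))‖ := by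
      rw [e1] at hν
      refine hν.trans (mul_le_mul ?_ e4 (prod_nonneg fun _ _ => norm_nonneg _) (norm_nonneg _))
      exact mul_le_of_le_one_left (norm_nonneg _) (e2.trans (pow_le_one₀ hK0 hKs))
    rw [mul_mul_mul_comm]
    exact one_le_mul_of_one_le_of_one_le (one_le_mul_of_one_le_of_one_le hq hq) h1
  · rw [den, y2, x1]
    have := e5.1; have := e5.2
    positivity
  · rw [den, y2, x1]
    have h1 := f2 0 P.hD.pos
    have h2 := (f1 0 (by omega)).trans hKs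
    rw [pow_zero, sm_one] at h1
    rw [zero_add, pow_one] at h2
    calc _ ≤ P.q * (K / s) * (P.q * 1) :=
          mul_le_mul (mul_le_mul_of_nonneg_left h1 (by positivity))
            (mul_le_mul_of_nonneg_left h2 (by positivity)) (by positivity) (by positivity)
      _ = P.q ^ 2 * K / s := by ring
      _ ≤ δ := by
        rw [div_le_iff₀ (by linarith), mul_comm δ, ← div_le_iff₀ hδ]; linarith

theorem num_mul (X Y : B P ℤ) : num P (X * Y) = num P X * num P Y := by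
  simp only [num, map_mul, norm_mul]; ring
theorem den_mul (X Y : B P ℤ) : den P (X * Y) = den P X * den P Y := by
  simp only [den, map_mul, norm_mul]; ring

theorem exists_unit (P : Par) : ∃ v : (B P ℤ)ˣ, Inv P v.1 ∧ num P v.1 ≠ den P v.1 := by
  obtain ⟨M, hM, H⟩ := exists_small P
  choose X h1 h2 h3 h4 h5 using fun n : ℕ => H (1 / (n + 1)) (by positivity)
  have := finite_quot (P := P) hM
  obtain ⟨y, hy⟩ := Finite.exists_infinite_fiber
    fun n => Ideal.Quotient.mk (Ideal.span {(M : B P ℤ)}) (X n)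
  rw [Set.infinite_coe_iff] at hy
  obtain ⟨n, hn⟩ := hy.nonempty
  obtain ⟨N, hN⟩ := exists_nat_gt (num P (X n) / den P (X n))
  obtain ⟨m, hm, hNm⟩ := hy.exists_gt N
  obtain ⟨t, ht⟩ := Ideal.mem_span_singleton.1 (Ideal.Quotient.eq.1 (hm.trans hn.symm))
  obtain ⟨Y, hY⟩ := h2 n
  obtain ⟨Z, hZ⟩ := h2 m
  have hM' : (M : ℤ) ≠ 0 := by exact_mod_cast hM
  have e1 : (1 + Y * t) * X n = X m := by linear_combination -ht - t * hY
  have e2 : (1 - Z * t) * X m = X n := by linear_combination ht + t * hZ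
  have e3 : (1 + Y * t) * (1 - Z * t) = 1 := int_cancel hM' (by
    push_cast; rw [hY]; linear_combination (1 - Z * t) * Y * e1 + Y * e2)
  refine ⟨⟨1 + Y * t, 1 - Z * t, e3, by rw [mul_comm, e3]⟩, int_cancel hM' ?_, fun h => ?_⟩
  · have := congrArg (sm P (P.g ^ P.D)) e1
    rw [map_mul, h1 n, h1 m] at this
    push_cast; rw [hY]; linear_combination Y * this - Y * e1
  · have a1 := congrArg (num P) e1
    have a2 := congrArg (den P) e1
    rw [num_mul] at a1
    rw [den_mul, ← h] at a2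
    have a3 : num P (X m) * den P (X n) = den P (X m) * num P (X n) := by
      rw [← a1, ← a2]; ring
    have a4 := h5 m
    have a5 : (N : ℝ) < m := by exact_mod_cast hNm
    rw [div_lt_iff₀ (h4 n)] at hN
    rw [le_div_iff₀ (by positivity)] at a4
    have a6 : den P (X n) ≤ den P (X m) * num P (X n) := by nlinarith [h3 m, h4 n]
    nlinarith [h4 n, h4 m, mul_lt_mul_of_pos_left hN (h4 m), mul_pos (h4 m) (h4 n)]

theorem exists_U (P : Par) : ∃ u ∈ U P, u ≠ 1 := by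
  obtain ⟨v, hv, hne⟩ := exists_unit P
  have hv' : Inv P (v⁻¹).1 := by
    have := congrArg (fun x => (v⁻¹).1 * x) (map_mul (sm P (P.g ^ P.D)) v.1 (v⁻¹).1)
    rw [hv] at this
    simpa [Inv, ← mul_assoc] using this.symm
  let c : (B P ℤ)ˣ →* (B P ℤ)ˣ := Units.map (cj P : B P ℤ →+* B P ℤ)
  have hc : ∀ u, (c u).1 = cj P u.1 := fun _ => rfl
  set u := v * c (smU P P.g v) * c v⁻¹ * smU P P.g v⁻¹ with hu
  have e0 : v.1 * (v⁻¹).1 = 1 := v.mul_inv
  have e1 : u.1 = v.1 * cj P (sm P P.g v.1) * cj P (v⁻¹).1 * sm P P.g (v⁻¹).1 := rfl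
  have u1 : Inv P u.1 := e1 ▸ ((hv.mul (hv.sm _).cj).mul hv'.cj).mul (hv'.sm _)
  have u2 : u.1 * cj P u.1 = 1 := by
    have : u.1 * cj P u.1 = (v.1 * (v⁻¹).1) * cj P (v.1 * (v⁻¹).1) * sm P P.g (v.1 * (v⁻¹).1) *
        cj P (sm P P.g (v.1 * (v⁻¹).1)) := by
      simp only [e1, map_mul, cj_cj]; ring
    rw [this, e0]; simp
  have u3 : nrm P u.1 = 1 := by
    have : nrm P u.1 = nrm P (v.1 * (v⁻¹).1) * cj P (nrm P (v.1 * (v⁻¹).1)) := by
      simp only [e1, nrm_mul, ← cj_nrm, nrm_sm, hv.sm_nrm, hv'.sm_nrm, map_mul]; ring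
    rw [this, e0]; simp
  obtain ⟨N, hN, h4⟩ := exists_pow_one u (m := 4) (by norm_num)
  refine ⟨u ^ N, ⟨?_, ?_, ?_, by exact_mod_cast h4⟩, fun h => hne ?_⟩
  · rw [Inv, Units.val_pow_eq_pow_val, map_pow, u1]
  · rw [Units.val_pow_eq_pow_val, map_pow, ← mul_pow, u2, one_pow]
  · rw [Units.val_pow_eq_pow_val, nrm]
    simp only [map_pow, prod_pow]
    rw [← nrm, u3, one_pow]
  · have h1 := congrArg (fun x => ‖ψ P x.1‖) h
    simp only [Units.val_pow_eq_pow_val, map_pow, norm_pow, Units.val_one, map_one,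
      norm_one] at h1
    rw [pow_eq_one_iff_of_nonneg (norm_nonneg _) hN.ne'] at h1
    have h2 : u.1 * (cj P v.1 * sm P P.g v.1) = v.1 * sm P P.g (cj P v.1) := by
      have : u.1 * (cj P v.1 * sm P P.g v.1) = v.1 * sm P P.g (cj P v.1) *
          cj P (v.1 * (v⁻¹).1) * sm P P.g (v.1 * (v⁻¹).1) := by
        simp only [e1, map_mul, cj_sm]; ring
      rw [this, e0]; simp
    have h3 := congrArg (fun x => ‖ψ P x‖) h2
    simp only [map_mul, norm_mul, h1, one_mul] at h3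
    exact h3.symm

end Pool.Agent.MP_28f2cb_lc.H87
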