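import Mathlib

/-! Uniform Diophantine definability over subrings of the rationals: coordinatised types,
polynomial maps with integer coefficients, and closure properties. -/

namespace Pool.Agent.MP_28f2cb_lc.H87

open Finset

/-- A type with finitely many rational coordinates. -/
class Coord (V : Type) where
  ι : Type
  [fin : Fintype ι]
  co : V ≃ (ι → ℚ)

attribute [instance_reducible, instance] Coord.fin

open Coord

/-- All coordinates lie in `R`. -/
def InR (R : Subring ℚ) {V : Type} [Coord V] (v : V) : Prop := ∀ j, co v j ∈ R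

/-- Integer polynomials in the coordinates. -/
def Pol (V : Type) [Coord V] : Subring (V → ℚ) :=
  Subring.closure (Set.range fun (j : ι V) (v : V) => co v j)

/-- Maps given by integer polynomials in the coordinates. -/
@[fun_prop] def PM {V W : Type} [Coord V] [Coord W] (f : V → W) : Prop :=
  ∀ j, (fun v => co (f v) j) ∈ Pol V

instance coordQ : Coord ℚ := ⟨Unit, (Equiv.funUnique Unit ℚ).symm⟩

instance coordProd (V W : Type) [Coord V] [Coord W] : Coord (V × W) :=
  ⟨ι V ⊕ ι W, (Equiv.prodCongr co co).trans (Equiv.sumArrowEquivProdArrow _ _ _).symm⟩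

noncomputable instance coordPi (κ V : Type) [Fintype κ] [Coord V] : Coord (κ → V) :=
  ⟨κ × ι V, (Equiv.piCongrRight fun _ => co).trans (Equiv.curry _ _ _).symm⟩

instance coordQuad (V : Type) [Coord V] (a b : V) : Coord (QuadraticAlgebra V a b) :=
  ⟨ι (V × V), (QuadraticAlgebra.equivProd a b).trans co⟩

noncomputable instance coordGrp (V M : Type) [Semiring V] [Coord V] [Fintype M] :
    Coord (AddMonoidAlgebra V M) :=
  ⟨ι (M → V), (AddMonoidAlgebra.coeffEquiv.trans Finsupp.equivFunOnFinite).trans co⟩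

section basic
variable {U V W : Type} [Coord U] [Coord V] [Coord W] {R : Subring ℚ}

theorem Pol.co_mem (j : ι V) : (fun v : V => co v j) ∈ Pol V :=
  Subring.subset_closure ⟨j, rfl⟩

theorem Pol.comp {f : U → V} (hf : PM f) {g : V → ℚ} (hg : g ∈ Pol V) :
    (fun u => g (f u)) ∈ Pol U := by
  induction hg using Subring.closure_induction with
  | mem x hx => obtain ⟨j, rfl⟩ := hx; exact hf j
  | zero => exact (Pol U).zero_mem
  | one => exact (Pol U).one_mem
  | add x y _ _ hx hy => exact (Pol U).add_mem hx hy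
  | neg x _ hx => exact (Pol U).neg_mem hx
  | mul x y _ _ hx hy => exact (Pol U).mul_mem hx hy

theorem Pol.mem {g : V → ℚ} (hg : g ∈ Pol V) {v : V} (hv : InR R v) : g v ∈ R := by
  induction hg using Subring.closure_induction with
  | mem x hx => obtain ⟨j, rfl⟩ := hx; exact hv j
  | zero => exact R.zero_mem
  | one => exact R.one_mem
  | add x y _ _ hx hy => exact R.add_mem hx hy
  | neg x _ hx => exact R.neg_mem hx
  | mul x y _ _ hx hy => exact R.mul_mem hx hy

theorem Pol.exists_poly {g : V → ℚ} (hg : g ∈ Pol V) :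
    ∃ P : MvPolynomial (ι V) ℤ, ∀ v, g v = MvPolynomial.aeval (co v) P := by
  induction hg using Subring.closure_induction with
  | mem x hx => obtain ⟨j, rfl⟩ := hx; exact ⟨.X j, fun v => by simp⟩
  | zero => exact ⟨0, fun v => by simp⟩
  | one => exact ⟨1, fun v => by simp⟩
  | add x y _ _ hx hy =>
    obtain ⟨P, hP⟩ := hx; obtain ⟨Q, hQ⟩ := hy; exact ⟨P + Q, fun v => by simp [hP, hQ]⟩
  | neg x _ hx => obtain ⟨P, hP⟩ := hx; exact ⟨-P, fun v => by simp [hP]⟩
  | mul x y _ _ hx hy =>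
    obtain ⟨P, hP⟩ := hx; obtain ⟨Q, hQ⟩ := hy; exact ⟨P * Q, fun v => by simp [hP, hQ]⟩

theorem PM.inR {f : V → W} (hf : PM f) {v : V} (hv : InR R v) : InR R (f v) :=
  fun j => Pol.mem (hf j) hv

@[fun_prop] theorem PM.id : PM (fun v : V => v) := Pol.co_mem

@[fun_prop] theorem PM.comp {g : V → W} {f : U → V} (hg : PM g) (hf : PM f) :
    PM (fun u => g (f u)) := fun j => Pol.comp hf (hg j)

theorem InR.of_bot {v : V} (h : InR ⊥ v) : InR R v := fun j => (bot_le : ⊥ ≤ R) (h j)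

/-- Constants with integer coordinates. -/
theorem PM.const {c : W} (hc : InR ⊥ c) : PM (fun _ : V => c) := fun j => by
  obtain ⟨n, hn⟩ := Subring.mem_bot.1 (hc j)
  have : (fun _ : V => co c j) = (n : V → ℚ) := by funext v; simp [← hn]
  rw [this]; exact intCast_mem _ n

theorem inR_rat {x : ℚ} : InR R x ↔ x ∈ R := ⟨fun h => h (), fun h _ => h⟩

theorem pm_rat {f : V → ℚ} : PM f ↔ f ∈ Pol V := ⟨fun h => h (), fun h _ => h⟩

theorem inR_prod {v : V × W} : InR R v ↔ InR R v.1 ∧ InR R v.2 :=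
  ⟨fun h => ⟨fun j => h (.inl j), fun j => h (.inr j)⟩,
    fun h j => match j with | .inl j => h.1 j | .inr j => h.2 j⟩

theorem pm_prod {f : U → V × W} : PM f ↔ PM (fun u => (f u).1) ∧ PM (fun u => (f u).2) :=
  ⟨fun h => ⟨fun j => h (.inl j), fun j => h (.inr j)⟩,
    fun h j => match j with | .inl j => h.1 j | .inr j => h.2 j⟩

@[fun_prop] theorem PM.fst {f : U → V × W} (h : PM f) : PM (fun u => (f u).1) := (pm_prod.1 h).1
@[fun_prop] theorem PM.snd {f : U → V × W} (h : PM f) : PM (fun u => (f u).2) := (pm_prod.1 h).2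
@[fun_prop] theorem PM.prodMk {f : U → V} {g : U → W} (hf : PM f) (hg : PM g) :
    PM (fun u => (f u, g u)) := pm_prod.2 ⟨hf, hg⟩

variable {κ : Type} [Fintype κ]

theorem inR_pi {v : κ → V} : InR R v ↔ ∀ k, InR R (v k) :=
  ⟨fun h k j => h (k, j), fun h j => h j.1 j.2⟩

theorem pm_pi {f : U → κ → V} : PM f ↔ ∀ k, PM (fun u => f u k) :=
  ⟨fun h k j => h (k, j), fun h j => h j.1 j.2⟩

@[fun_prop] theorem PM.pi {f : U → κ → V} (h : ∀ k, PM (fun u => f u k)) :
    PM (fun u k => f u k) := pm_pi.2 h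

@[fun_prop] theorem PM.apply (k : κ) : PM (fun v : κ → V => v k) := pm_pi.1 PM.id k

theorem PM.co (j : ι V) : PM (fun v : V => co v j) := pm_rat.2 (Pol.co_mem j)

theorem inR_quad {a b : V} {v : QuadraticAlgebra V a b} : InR R v ↔ InR R v.re ∧ InR R v.im :=
  inR_prod (v := (v.re, v.im))

theorem pm_quad {a b : V} {f : U → QuadraticAlgebra V a b} :
    PM f ↔ PM (fun u => (f u).re) ∧ PM (fun u => (f u).im) :=
  pm_prod (f := fun u => ((f u).re, (f u).im))

@[fun_prop] theorem PM.re {a b : V} {f : U → QuadraticAlgebra V a b} (h : PM f) :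
    PM (fun u => (f u).re) := (pm_quad.1 h).1
@[fun_prop] theorem PM.im {a b : V} {f : U → QuadraticAlgebra V a b} (h : PM f) :
    PM (fun u => (f u).im) := (pm_quad.1 h).2

theorem inR_grp [Semiring V] {v : AddMonoidAlgebra V κ} : InR R v ↔ ∀ k, InR R (v.coeff k) :=
  inR_pi (v := fun k => v.coeff k)

theorem pm_grp [Semiring V] {f : U → AddMonoidAlgebra V κ} :
    PM f ↔ ∀ k, PM (fun u => (f u).coeff k) :=
  pm_pi (f := fun u k => (f u).coeff k)

theorem PM.coeff [Semiring V] {f : U → AddMonoidAlgebra V κ} (h : PM f) (k : κ) :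
    PM (fun u => (f u).coeff k) := pm_grp.1 h k

end basic

/-- Rings whose operations are polynomial in the coordinates. -/
class PRing (V : Type) [CommRing V] [Coord V] : Prop where
  add : PM (fun x : V × V => x.1 + x.2)
  mul : PM (fun x : V × V => x.1 * x.2)
  neg : PM (fun x : V => -x)
  one : InR ⊥ (1 : V)
  co_add : ∀ (x y : V) j, co (x + y) j = co x j + co y j

section ring
variable {U V : Type} [Coord U] [Coord V] [CommRing V] [PRing V] {R : Subring ℚ}

@[fun_prop] theorem PM.add {f g : U → V} (hf : PM f) (hg : PM g) : PM (fun u => f u + g u) :=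
  PRing.add.comp (hf.prodMk hg)
@[fun_prop] theorem PM.mul {f g : U → V} (hf : PM f) (hg : PM g) : PM (fun u => f u * g u) :=
  PRing.mul.comp (hf.prodMk hg)
@[fun_prop] theorem PM.neg {f : U → V} (hf : PM f) : PM (fun u => -f u) := PRing.neg.comp hf
@[fun_prop] theorem PM.sub {f g : U → V} (hf : PM f) (hg : PM g) : PM (fun u => f u - g u) := by
  simpa [sub_eq_add_neg] using hf.add hg.neg

/-- The elements with coordinates in `R` form a subring. -/
def SubR (R : Subring ℚ) (V : Type) [Coord V] [CommRing V] [PRing V] : Subring V where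
  carrier := {v | InR R v}
  mul_mem' {a b} ha hb := PRing.mul.inR (v := (a, b)) (inR_prod.2 ⟨ha, hb⟩)
  one_mem' := PRing.one.of_bot
  add_mem' {a b} ha hb := PRing.add.inR (v := (a, b)) (inR_prod.2 ⟨ha, hb⟩)
  zero_mem' := by
    have h1 : InR R (1 : V) := PRing.one.of_bot
    have := PRing.add.inR (v := ((1 : V), (-1 : V))) (inR_prod.2 ⟨h1, PRing.neg.inR h1⟩)
    simpa using this
  neg_mem' ha := PRing.neg.inR ha

theorem mem_subR {v : V} : v ∈ SubR R V ↔ InR R v := Iff.rfl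

theorem InR.add {a b : V} (ha : InR R a) (hb : InR R b) : InR R (a + b) :=
  (SubR R V).add_mem ha hb
theorem InR.mul {a b : V} (ha : InR R a) (hb : InR R b) : InR R (a * b) :=
  (SubR R V).mul_mem ha hb
theorem InR.sub {a b : V} (ha : InR R a) (hb : InR R b) : InR R (a - b) :=
  (SubR R V).sub_mem ha hb
theorem InR.neg {a : V} (ha : InR R a) : InR R (-a) := (SubR R V).neg_mem ha
theorem InR.pow {a : V} (ha : InR R a) (n : ℕ) : InR R (a ^ n) := (SubR R V).pow_mem ha n
theorem inR_zero : InR R (0 : V) := (SubR R V).zero_mem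
theorem inR_one : InR R (1 : V) := (SubR R V).one_mem
theorem inR_natCast (n : ℕ) : InR R (n : V) := natCast_mem (SubR R V) n
theorem inR_intCast (n : ℤ) : InR R (n : V) := intCast_mem (SubR R V) n
theorem inR_ofNat (n : ℕ) [n.AtLeastTwo] : InR R (OfNat.ofNat n : V) := ofNat_mem (SubR R V) n

theorem co_natMul (n : ℕ) (v : V) (j : ι V) : co ((n : V) * v) j = n * co v j := by
  have h0 : co (0 : V) j = 0 := by simpa using PRing.co_add (0 : V) 0 j
  induction n with
  | zero => simpa using h0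
  | succ n ih => rw [Nat.cast_succ, add_mul, one_mul, PRing.co_add, ih]; push_cast; ring

/-- Clearing denominators. -/
theorem InR.exists_den {v : V} (hv : InR R v) : ∃ d : ℕ, 0 < d ∧
    (∀ p : ℕ, p.Prime → p ∣ d → ∃ x ∈ R, p ∣ x.den) ∧ InR ⊥ ((d : V) * v) := by
  classical
  refine ⟨∏ j, (co v j).den, prod_pos fun j _ => (co v j).den_pos, fun p hp h => ?_, fun j => ?_⟩
  · obtain ⟨j, -, hj⟩ := (Prime.dvd_finsetProd_iff hp.prime _).1 h
    exact ⟨_, hv j, hj⟩
  · rw [co_natMul, ← mul_prod_erase _ _ (mem_univ j), Nat.cast_mul, mul_right_comm,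
      Rat.den_mul_eq_num]
    exact Subring.mul_mem _ (intCast_mem _ _) (natCast_mem _ _)

/-- If `n * v` is integral, `v` has coordinates in `R` and no prime factor of `n` divides a
denominator of `R`, then `v` is integral. -/
theorem InR.bot_of_mul {v : V} (hv : InR R v) {n : ℕ} (hn : n ≠ 0)
    (h : ∀ x ∈ R, ∀ p : ℕ, p.Prime → p ∣ x.den → ¬ p ∣ n) (hb : InR ⊥ ((n : V) * v)) :
    InR ⊥ v := fun j => by
  obtain ⟨m, hm⟩ := Subring.mem_bot.1 (hb j)
  rw [co_natMul] at hm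
  have h1 : (co v j).den = 1 := by
    by_contra h1
    obtain ⟨p, hp, hd⟩ := Nat.exists_prime_and_dvd h1
    refine h _ (hv j) p hp hd (hd.trans ?_)
    have : co v j = (m : ℚ) / (n : ℤ) := by
      rw [eq_div_iff (by exact_mod_cast hn)]; simpa [mul_comm] using hm.symm
    rw [this, ← Rat.divInt_eq_div]
    exact_mod_cast Rat.den_dvd m n
  exact Subring.mem_bot.2 ⟨(co v j).num, (Rat.den_eq_one_iff _).1 h1⟩

@[fun_prop] theorem PM.pow {f : U → V} (hf : PM f) (n : ℕ) : PM (fun u => f u ^ n) := by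
  induction n with
  | zero => simpa using PM.const inR_one
  | succ n ih => simpa [pow_succ] using ih.mul hf

@[fun_prop] theorem PM.sum {α : Type} (s : Finset α) {f : α → U → V} (hf : ∀ a, PM (f a)) :
    PM (fun u => ∑ a ∈ s, f a u) := by
  classical
  induction s using Finset.induction_on with
  | empty => simpa using PM.const inR_zero
  | insert a s ha ih => simpa [sum_insert ha] using (hf a).add ih

@[fun_prop] theorem PM.prod {α : Type} (s : Finset α) {f : α → U → V} (hf : ∀ a, PM (f a)) :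
    PM (fun u => ∏ a ∈ s, f a u) := by
  classical
  induction s using Finset.induction_on with
  | empty => simpa using PM.const inR_one
  | insert a s ha ih => simpa [prod_insert ha] using (hf a).mul ih

end ring

instance pringQ : PRing ℚ where
  add := pm_rat.2 ((Pol _).add_mem (pm_rat.1 PM.id.fst) (pm_rat.1 PM.id.snd))
  mul := pm_rat.2 ((Pol _).mul_mem (pm_rat.1 PM.id.fst) (pm_rat.1 PM.id.snd))
  neg := pm_rat.2 ((Pol _).neg_mem (pm_rat.1 PM.id))
  one := inR_rat.2 (Subring.one_mem _)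
  co_add _ _ _ := rfl

attribute [fun_prop] PM.const

theorem pringQuad {V : Type} [Coord V] [CommRing V] [PRing V] {a b : V} (ha : InR ⊥ a)
    (hb : InR ⊥ b) : PRing (QuadraticAlgebra V a b) where
  add := pm_quad.2 ⟨by simp only [QuadraticAlgebra.re_add]; fun_prop,
    by simp only [QuadraticAlgebra.im_add]; fun_prop⟩
  mul := pm_quad.2 ⟨by simp only [QuadraticAlgebra.re_mul]; fun_prop (disch := assumption),
    by simp only [QuadraticAlgebra.im_mul]; fun_prop (disch := assumption)⟩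
  neg := pm_quad.2 ⟨by simp only [QuadraticAlgebra.re_neg]; fun_prop,
    by simp only [QuadraticAlgebra.im_neg]; fun_prop⟩
  one := inR_quad.2 ⟨inR_one, inR_zero⟩
  co_add x y j := match j with
    | .inl j => PRing.co_add x.re y.re j
    | .inr j => PRing.co_add x.im y.im j

theorem coeff_mul_fin {V M : Type} [CommRing V] [AddCommGroup M] [Fintype M]
    (x y : AddMonoidAlgebra V M) (m : M) :
    (x * y).coeff m = ∑ a, x.coeff a * y.coeff (-a + m) := by
  rw [AddMonoidAlgebra.coeff_mul_apply_left, Finsupp.sum_fintype]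
  simp

instance pringGrp {V M : Type} [Coord V] [CommRing V] [PRing V] [AddCommGroup M] [Fintype M] :
    PRing (AddMonoidAlgebra V M) where
  add := pm_grp.2 fun k => by
    simp only [AddMonoidAlgebra.coeff_add, Finsupp.add_apply]
    exact (PM.id.fst.coeff k).add (PM.id.snd.coeff k)
  mul := pm_grp.2 fun k => by
    simp only [coeff_mul_fin]
    exact PM.sum _ fun a => (PM.id.fst.coeff _).mul (PM.id.snd.coeff _)
  neg := pm_grp.2 fun k => by
    simp only [AddMonoidAlgebra.coeff_neg, Finsupp.neg_apply]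
    exact (PM.id.coeff k).neg
  one := inR_grp.2 fun k => by
    classical
    rw [AddMonoidAlgebra.one_def, AddMonoidAlgebra.coeff_single, Finsupp.single_apply]
    split_ifs
    exacts [inR_one, inR_zero]
  co_add x y j := PRing.co_add (x.coeff j.1) (y.coeff j.1) j.2

/-- `Φ R` is Diophantine over `R`, by one integer polynomial for all `R` satisfying `ok`. -/
def Dio (ok : Subring ℚ → Prop) {V : Type} [Coord V] (Φ : Subring ℚ → V → Prop) : Prop :=
  ∃ (n : ℕ) (f : V × (Fin n → ℚ) → ℚ), PM f ∧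
    ∀ R, ok R → ∀ v, InR R v → (Φ R v ↔ ∃ y, InR R y ∧ f (v, y) = 0)

section dio
variable {ok : Subring ℚ → Prop} {U V W : Type} [Coord U] [Coord V] [Coord W]

theorem Dio.intro {Φ : Subring ℚ → V → Prop} (f : V × W → ℚ) (hf : PM f)
    (h : ∀ R, ok R → ∀ v, InR R v → (Φ R v ↔ ∃ y, InR R y ∧ f (v, y) = 0)) : Dio ok Φ := by
  let e := Fintype.equivFin (ι W)
  let g : (Fin (Fintype.card (ι W)) → ℚ) → W := fun y => co.symm fun j => y (e j)
  have hg : PM g := fun j => by
    simp only [g, Equiv.apply_symm_apply]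
    exact pm_rat.1 (PM.apply (e j))
  refine ⟨_, fun p => f (p.1, g p.2), by fun_prop, fun R hR v hv => (h R hR v hv).trans ⟨?_, ?_⟩⟩
  · rintro ⟨w, hw, e0⟩
    refine ⟨fun i => co w (e.symm i), inR_pi.2 fun i => inR_rat.2 (hw _), ?_⟩
    simpa [g] using e0
  · rintro ⟨y, hy, e0⟩
    exact ⟨g y, hg.inR hy, e0⟩

theorem Dio.congr {Φ Ψ : Subring ℚ → V → Prop} (h : Dio ok Φ)
    (e : ∀ R, ok R → ∀ v, InR R v → (Ψ R v ↔ Φ R v)) : Dio ok Ψ := by
  obtain ⟨n, f, hf, h⟩ := h
  exact ⟨n, f, hf, fun R hR v hv => (e R hR v hv).trans (h R hR v hv)⟩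

theorem Dio.ex {Φ : Subring ℚ → V → W → Prop} (h : Dio ok fun R (p : V × W) => Φ R p.1 p.2) :
    Dio ok fun R v => ∃ w, InR R w ∧ Φ R v w := by
  obtain ⟨n, f, hf, h⟩ := h
  refine Dio.intro (W := W × (Fin n → ℚ)) (fun p => f ((p.1, p.2.1), p.2.2)) (by fun_prop)
    fun R hR v hv => ⟨?_, ?_⟩
  · rintro ⟨w, hw, hΦ⟩
    obtain ⟨y, hy, e⟩ := (h R hR (v, w) (inR_prod.2 ⟨hv, hw⟩)).1 hΦ
    exact ⟨(w, y), inR_prod.2 ⟨hw, hy⟩, e⟩
  · rintro ⟨⟨w, y⟩, hy, e⟩
    obtain ⟨hw, hy⟩ := inR_prod.1 hy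
    exact ⟨w, hw, (h R hR (v, w) (inR_prod.2 ⟨hv, hw⟩)).2 ⟨y, hy, e⟩⟩

theorem Dio.and {Φ Ψ : Subring ℚ → V → Prop} (h1 : Dio ok Φ) (h2 : Dio ok Ψ) :
    Dio ok fun R v => Φ R v ∧ Ψ R v := by
  obtain ⟨n, f, hf, h1⟩ := h1
  obtain ⟨m, g, hg, h2⟩ := h2
  refine Dio.intro (W := (Fin n → ℚ) × (Fin m → ℚ))
    (fun p => f (p.1, p.2.1) ^ 2 + g (p.1, p.2.2) ^ 2) (by fun_prop) fun R hR v hv => ?_
  rw [h1 R hR v hv, h2 R hR v hv]
  constructor
  · rintro ⟨⟨y, hy, e⟩, ⟨z, hz, e'⟩⟩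
    exact ⟨(y, z), inR_prod.2 ⟨hy, hz⟩, by simp [e, e']⟩
  · rintro ⟨⟨y, z⟩, hy, e⟩
    obtain ⟨hy, hz⟩ := inR_prod.1 hy
    simp only at e
    exact ⟨⟨y, hy, by nlinarith [sq_nonneg (f (v, y)), sq_nonneg (g (v, z))]⟩,
      ⟨z, hz, by nlinarith [sq_nonneg (f (v, y)), sq_nonneg (g (v, z))]⟩⟩

theorem Dio.eq {f g : V → W} (hf : PM f) (hg : PM g) : Dio ok fun _ v => f v = g v := by
  refine Dio.intro (W := ℚ) (fun p => ∑ j, (co (f p.1) j - co (g p.1) j) ^ 2)
    (PM.sum _ fun j => (((PM.co j).comp (hf.comp PM.id.fst)).sub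
      ((PM.co j).comp (hg.comp PM.id.fst))).pow 2) fun R _ v _ => ⟨fun e => ⟨0, inR_zero, ?_⟩, ?_⟩
  · simp [e]
  · rintro ⟨y, hy, e⟩
    apply (co (V := W)).injective
    funext j
    have := (sum_eq_zero_iff_of_nonneg fun j _ => sq_nonneg _).1 e j (mem_univ j)
    exact sub_eq_zero.1 (pow_eq_zero_iff two_ne_zero |>.1 this)

theorem Dio.all {κ : Type} [Fintype κ] {Φ : κ → Subring ℚ → V → Prop} (h : ∀ k, Dio ok (Φ k)) :
    Dio ok fun R v => ∀ k, Φ k R v := by
  classical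
  have : ∀ s : Finset κ, Dio ok fun R v => ∀ k ∈ s, Φ k R v := fun s => by
    induction s using Finset.induction_on with
    | empty => exact (Dio.eq PM.id PM.id).congr (by simp)
    | insert a s _ ih => exact ((h a).and ih).congr (by simp)
  exact (this univ).congr (by simp)

/-- Neither 2 nor the odd number `q` is invertible in `R`. -/
def NoInv (q : ℕ) (R : Subring ℚ) : Prop := (∀ x ∈ R, 2 * x ≠ 1) ∧ ∀ x ∈ R, q * x ≠ 1

theorem Dio.ne {q : ℕ} (hq : Odd q) (hok : ∀ R, ok R → NoInv q R) {f : V → ℚ} (hf : PM f) :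
    Dio ok fun _ v => f v ≠ 0 := by
  have h2 : InR ⊥ (2 : ℚ) := inR_ofNat 2
  have h1 : InR ⊥ (1 : ℚ) := inR_one
  have h3 : InR ⊥ (q : ℚ) := inR_natCast q
  refine Dio.intro (W := ℚ × ℚ × ℚ)
    (fun p => f p.1 * p.2.1 - (2 * p.2.2.1 - 1) * (q * p.2.2.2 - 1))
    (by fun_prop (disch := assumption)) fun R hR v _ => ⟨fun h => ?_, ?_⟩
  · obtain ⟨k, m, hm, e⟩ := Nat.exists_eq_two_pow_mul_odd
      (Int.natAbs_ne_zero.2 (Rat.num_ne_zero.2 h))
    obtain ⟨r, rfl⟩ := hm
    have hc : IsCoprime ((2 : ℤ) ^ k) q := by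
      refine IsCoprime.pow_left ?_
      obtain ⟨t, rfl⟩ := hq
      exact ⟨-t, 1, by push_cast; ring⟩
    obtain ⟨a, b, hab⟩ := hc
    have e1 : (f v).num = (f v).num.sign * (2 ^ k * (2 * r + 1)) := by
      have := Int.sign_mul_natAbs (f v).num
      rw [e] at this; push_cast at this; exact this.symm
    have e2 : ((f v).num.sign : ℚ) * (f v).num.sign = 1 := by
      have := Rat.num_ne_zero.2 h
      rcases lt_or_gt_of_ne this with h' | h'
      · simp [Int.sign_eq_neg_one_of_neg h']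
      · simp [Int.sign_eq_one_of_pos h']
    refine ⟨(((-a * (f v).num.sign * (f v).den : ℤ) : ℚ), ((r + 1 : ℤ) : ℚ), (b : ℚ)),
      inR_prod.2 ⟨inR_intCast _, inR_prod.2 ⟨inR_intCast _, inR_intCast _⟩⟩, ?_⟩
    have e3 : f v * (f v).den = (f v).num := Rat.mul_den_eq_num _
    have e4 : (((f v).num : ℤ) : ℚ) = (f v).num.sign * (2 ^ k * (2 * r + 1)) := by
      exact_mod_cast e1
    have e5 : (a : ℚ) * 2 ^ k + b * q = 1 := by exact_mod_cast hab
    push_cast
    linear_combination (-a * (f v).num.sign) * e3 + (-a * (f v).num.sign) * e4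
      - a * 2 ^ k * (2 * r + 1) * e2 - (2 * r + 1) * e5
  · rintro ⟨⟨a, b, c⟩, hy, e⟩ h0
    obtain ⟨-, hy⟩ := inR_prod.1 hy
    obtain ⟨hb, hc⟩ := inR_prod.1 hy
    simp only [h0, zero_mul, zero_sub, neg_eq_zero, mul_eq_zero, sub_eq_zero] at e
    exact e.elim ((hok R hR).1 b (inR_rat.1 hb)) ((hok R hR).2 c (inR_rat.1 hc))

theorem Dio.le {q : ℕ} (hq : Odd q) (hok : ∀ R, ok R → NoInv q R) {f g : V → ℚ} (hf : PM f)
    (hg : PM g) : Dio ok fun _ v => f v ≤ g v := by
  have : Dio ok fun R v => ∃ d : ℚ, InR R d ∧ d ≠ 0 ∧ ∃ y : ℚ × ℚ × ℚ × ℚ, InR R y ∧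
      (g v - f v) * d ^ 2 = y.1 ^ 2 + y.2.1 ^ 2 + y.2.2.1 ^ 2 + y.2.2.2 ^ 2 :=
    Dio.ex ((Dio.ne hq hok (by fun_prop)).and (Dio.ex (Dio.eq (by fun_prop) (by fun_prop))))
  refine this.congr fun R _ v _ => ⟨fun h => ?_, ?_⟩
  · set z := g v - f v
    have hz : 0 ≤ z.num := Rat.num_nonneg.2 (sub_nonneg.2 h)
    obtain ⟨a, b, c, d, e⟩ := Nat.sum_four_squares (z.num.toNat * z.den)
    refine ⟨z.den, inR_natCast _, by simp, ((a : ℚ), (b : ℚ), (c : ℚ), (d : ℚ)),
      inR_prod.2 ⟨inR_natCast _, inR_prod.2 ⟨inR_natCast _,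
        inR_prod.2 ⟨inR_natCast _, inR_natCast _⟩⟩⟩, ?_⟩
    have e1 : ((a : ℤ) ^ 2 + b ^ 2 + c ^ 2 + d ^ 2 : ℤ) = z.num * z.den := by
      rw [← Int.toNat_of_nonneg hz]; exact_mod_cast e
    have e2 : ((a : ℚ) ^ 2 + b ^ 2 + c ^ 2 + d ^ 2) = z.num * z.den := by exact_mod_cast e1
    have e3 : z * z.den = z.num := Rat.mul_den_eq_num _
    simp only
    linear_combination (z.den : ℚ) * e3 - e2
  · rintro ⟨d, -, hd, y, -, e⟩
    have h1 : 0 < d ^ 2 := by positivity
    have h2 : 0 ≤ (g v - f v) * d ^ 2 := by rw [e]; positivity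
    exact sub_nonneg.1 (nonneg_of_mul_nonneg_left h2 h1)

/-- Extraction of one polynomial. -/
theorem Dio.out {Φ : Subring ℚ → ℚ → Prop} (h : Dio ok Φ) :
    ∃ (n : ℕ) (P : MvPolynomial (Fin (n + 1)) ℤ), ∀ R, ok R → ∀ x ∈ R,
      (Φ R x ↔ ∃ y : Fin n → ℚ, (∀ i, y i ∈ R) ∧
        MvPolynomial.aeval (Fin.cons x y : Fin (n + 1) → ℚ) P = 0) := by
  obtain ⟨n, f, hf, h⟩ := h
  obtain ⟨P, hP⟩ := Pol.exists_poly (pm_rat.1 hf)
  let r : ι (ℚ × (Fin n → ℚ)) → Fin (n + 1) := fun j =>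
    match j with | .inl _ => 0 | .inr j => j.1.succ
  refine ⟨n, MvPolynomial.rename r P, fun R hR x hx => (h R hR x (inR_rat.2 hx)).trans
    (exists_congr fun y => and_congr (inR_pi.trans (forall_congr' fun _ => inR_rat)) ?_)⟩
  rw [hP, MvPolynomial.aeval_rename]
  have : (Fin.cons x y : Fin (n + 1) → ℚ) ∘ r = co (x, y) := by
    funext j
    rcases j with j | j <;> rfl
  rw [this]

end dio

end Pool.Agent.MP_28f2cb_lc.H87
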