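import Pool.Agent.MP_28f2cb_lc.H87.Emb

/-! The linearisation relation between indices and values: definition and soundness. -/

namespace Pool.Agent.MP_28f2cb_lc.H87

open Finset

section rel
variable {S : Type} [CommRing S] {T : Subring S} {π γ : S}

/-- `u = 1 + π γ ε` to first order. -/
def Rel (T : Subring S) (π γ u ε : S) : Prop :=
  ∃ ε' ∈ T, u = 1 + π * γ * ε' ∧ ∃ f ∈ T, ε' - ε = π * f

theorem Rel.one : Rel T π γ 1 0 := ⟨0, zero_mem _, by simp, 0, zero_mem _, by simp⟩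

theorem Rel.mul (hγ : γ ∈ T) {u v ε δ : S} (h : Rel T π γ u ε) (h' : Rel T π γ v δ)
    (hπ : π ∈ T) : Rel T π γ (u * v) (ε + δ) := by
  obtain ⟨a, ha, rfl, f, hf, e⟩ := h
  obtain ⟨b, hb, rfl, f', hf', e'⟩ := h'
  exact ⟨a + b + π * γ * a * b, add_mem (add_mem ha hb)
    (mul_mem (mul_mem (mul_mem hπ hγ) ha) hb), by ring, f + f' + γ * a * b,
    add_mem (add_mem hf hf') (mul_mem (mul_mem hγ ha) hb), by linear_combination e + e'⟩

theorem Rel.inv (hγ : γ ∈ T) {u v ε : S} (h : Rel T π γ u ε) (hv : v ∈ T) (e : u * v = 1) :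
    Rel T π γ v (-ε) := by
  obtain ⟨a, ha, rfl, f, hf, e'⟩ := h
  exact ⟨-(a * v), neg_mem (mul_mem ha hv), by linear_combination e, -f + γ * a * a * v,
    add_mem (neg_mem hf) (mul_mem (mul_mem (mul_mem hγ ha) ha) hv),
    by linear_combination -e' - a * e⟩

theorem Rel.congr {u ε δ f : S} (h : Rel T π γ u ε) (hf : f ∈ T) (e : ε - δ = π * f) :
    Rel T π γ u δ := by
  obtain ⟨a, ha, rfl, f', hf', e'⟩ := h
  exact ⟨a, ha, rfl, f' + f, add_mem hf' hf, by linear_combination e + e'⟩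

theorem Rel.uniq (hc : ∀ x, π * γ * x = 0 → x = 0) {ε : S} (h : Rel T π γ 1 ε) :
    ∃ f ∈ T, ε = π * f := by
  obtain ⟨a, -, e, f, hf, e'⟩ := h
  have := hc a (by linear_combination -e)
  exact ⟨-f, neg_mem hf, by linear_combination this - e'⟩

theorem Rel.map (σ : S →+* S) (hσ : ∀ x ∈ T, σ x ∈ T) (h1 : σ π = π) (h2 : σ γ = γ) {u ε : S}
    (h : Rel T π γ u ε) : Rel T π γ (σ u) (σ ε) := by
  obtain ⟨a, ha, rfl, f, hf, e⟩ := h
  exact ⟨σ a, hσ a ha, by simp [h1, h2], σ f, hσ f hf, by rw [← map_sub, e, map_mul, h1]⟩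

theorem Rel.prod (hγ : γ ∈ T) (hπ : π ∈ T) {α : Type} (s : Finset α) {u ε : α → S}
    (h : ∀ a ∈ s, Rel T π γ (u a) (ε a)) : Rel T π γ (∏ a ∈ s, u a) (∑ a ∈ s, ε a) := by
  classical
  induction s using Finset.induction_on with
  | empty => simpa using Rel.one
  | insert a s ha ih =>
    rw [prod_insert ha, sum_insert ha]
    exact (h a (mem_insert_self _ _)).mul hγ (ih fun b hb => h b (mem_insert_of_mem hb)) hπ

theorem Rel.zpow (hγ : γ ∈ T) (hπ : π ∈ T) {Γ : Type} [CommGroup Γ] (ι : Γ →* S)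
    (hι : ∀ g, ι g ∈ T) {g : Γ} {ε : S} (h : Rel T π γ (ι g) ε) (n : ℤ) :
    Rel T π γ (ι (g ^ n)) (n * ε) := by
  have hn : ∀ n : ℕ, Rel T π γ (ι (g ^ n)) (n * ε) := fun n => by
    simpa using Rel.prod hγ hπ (range n) (u := fun _ => ι g) (ε := fun _ => ε) fun _ _ => h
  obtain ⟨n, rfl | rfl⟩ := n.eq_nat_or_neg
  · simpa using hn n
  · have := (hn n).inv hγ (hι (g ^ n)⁻¹) (by rw [← map_mul, mul_inv_cancel, map_one])
    simpa using this

end rel

variable {P : Par}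

/-- The linearisation relation: the index `n` is `z` times the index `k` modulo `π`. -/
def Lin (P : Par) (R : Subring ℚ) (π : G ℚ) (k n : B P ℚ) (z : ℚ) : Prop :=
  ∃ γ : G ℚ, InR R γ ∧ ∃ e : B P ℚ, InR R e ∧ ∃ e' : B P ℚ, InR R e' ∧ ∃ f : B P ℚ, InR R f ∧
    ∃ μ : Fin (P.D - 1) → B P ℚ, InR R μ ∧
    ∃ h : Fin (P.D - 1) → Fin (P.D - 1) → G ℚ, InR R h ∧
      k = 1 + up P π * up P γ * e ∧ n = 1 + up P π * up P γ * e' ∧
      e' - up P (algebraMap ℚ (G ℚ) z) * e = up P π * f ∧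
      ∀ i j : Fin (P.D - 1), lam P (μ i) (sm P (P.g ^ (j : ℕ)) e) =
        (if i = j then 1 else 0) + π * h i j

theorem dio_lin {V : Type} [Coord V] {π : V → G ℚ} {k n : V → B P ℚ} {z : V → ℚ} (h1 : PM π)
    (h2 : PM k) (h3 : PM n) (h4 : PM z) :
    Dio P.Ok fun R v => Lin P R (π v) (k v) (n v) (z v) := by
  have k1 : InR ⊥ (1 : B P ℚ) := inR_one
  have h5 : PM fun v => algebraMap ℚ (G ℚ) (z v) := h4.algQuad
  refine Dio.ex (Dio.ex (Dio.ex (Dio.ex (Dio.ex (Dio.ex (Dio.and ?_ (Dio.and ?_ (Dio.and ?_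
    (Dio.all fun i => Dio.all fun j => ?_)))))))))
  · exact Dio.eq (by fun_prop) (by fun_prop (disch := assumption))
  · exact Dio.eq (by fun_prop) (by fun_prop (disch := assumption))
  · refine Dio.eq (PM.sub (by fun_prop) (PM.mul (PM.up ?_) (by fun_prop))) (by fun_prop)
    exact h5.comp (by fun_prop)
  · have k2 : InR ⊥ (if i = j then 1 else 0 : G ℚ) := by
      split_ifs
      exacts [inR_one, inR_zero]
    exact Dio.eq (by fun_prop) (PM.add (PM.const k2) (by fun_prop))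

/-- The units of `B ℤ` inside `B ℚ`. -/
noncomputable def ιQ (P : Par) : (B P ℤ)ˣ →* B P ℚ := (cB P : B P ℤ →* B P ℚ).comp (Units.coeHom _)

theorem ιQ_apply (u : (B P ℤ)ˣ) : ιQ P u = cB P u.1 := rfl

theorem lam_sum {A : Type} [CommRing A] (μ : B P A) {α : Type} (s : Finset α) (e : α → B P A) :
    lam P μ (∑ a ∈ s, e a) = ∑ a ∈ s, lam P μ (e a) := by
  classical
  induction s using Finset.induction_on with
  | empty => simp [lam]
  | insert a s ha ih => rw [sum_insert ha, sum_insert ha, lam_add, ih]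

theorem lin_sound {R : Subring ℚ} {π : G ℚ} (hπ : InR R π) {k n : (B P ℤ)ˣ} (hk : k ∈ U P)
    (hn : n ∈ U P) {z : ℚ} {a b : ℤ} (hz : b * z = a) {c : ℤ}
    (hc : ∀ m : ℤ, (∃ r, InR R r ∧ (m : G ℚ) = π * r) → c ∣ m)
    (h : Lin P R π (cB P k.1) (cB P n.1) z) : ∃ t ∈ U P, n ^ b * k ^ (-a) = t ^ c := by
  obtain ⟨γ, hγ, e, he, e', he', f, hf, μ, hμ, h, hh, ek, en, ef, el⟩ := h
  by_cases h0 : π * γ = 0
  · rw [← map_mul, h0, map_zero, zero_mul, add_zero, ← map_one (cB P)] at ek en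
    exact ⟨1, one_mem _, by
      rw [show k = 1 from Units.ext (cB_inj ek), show n = 1 from Units.ext (cB_inj en)]; simp⟩
  set T := SubR R (B P ℚ)
  have hπT : up P π ∈ T := hπ.up
  have hγT : up P γ ∈ T := hγ.up
  have hι : ∀ u, ιQ P u ∈ T := fun u => inR_cB R _
  have rk : Rel T (up P π) (up P γ) (ιQ P k) e := ⟨e, he, ek, 0, zero_mem _, by simp⟩
  have rn : Rel T (up P π) (up P γ) (ιQ P n) e' := ⟨e', he', en, 0, zero_mem _, by simp⟩
  have rv : Rel T (up P π) (up P γ) (ιQ P (n ^ b * k ^ (-a))) 0 := by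
    rw [map_mul]
    refine ((rn.zpow hγT hπT _ hι b).mul hγT (rk.zpow hγT hπT _ hι (-a)) hπT).congr
      (f := b * f) (mul_mem (intCast_mem _ _) hf) ?_
    have : (b : B P ℚ) * up P (algebraMap ℚ (G ℚ) z) = a := by
      rw [← map_intCast (up P (A := ℚ)), ← map_intCast (algebraMap ℚ (G ℚ)), ← map_mul, ← map_mul,
        hz, map_intCast, map_intCast]
    push_cast
    linear_combination (b : B P ℚ) * ef + e * this
  set v := n ^ b * k ^ (-a)
  have hv : v ∈ U P := mul_mem (zpow_mem hn _) (zpow_mem hk _)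
  let w : Option (Fin (P.D - 1)) → (B P ℤ)ˣ := fun i =>
    match i with | none => v | some j => smU P (P.g ^ (j : ℕ)) k
  have hw : ∀ i, w i ∈ U P := fun i => match i with | none => hv | some _ => U.smU hk _
  obtain ⟨m', hm0, hm'⟩ := U.dep w hw
  obtain ⟨m, hm1, hm2⟩ := extract_gcd (s := univ) m' univ_nonempty
  have hg : univ.gcd m' ≠ 0 := fun h => hm0 (funext fun i => by
    rw [hm1 i (mem_univ i), h, zero_mul]; rfl)
  have hm : ∏ i, w i ^ m i = 1 := U.torsionFree (prod_mem fun i _ => zpow_mem (hw i) _) hg (by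
    rw [← hm', ← prod_zpow]
    exact prod_congr rfl fun i _ => by rw [← zpow_mul, mul_comm, ← hm1 i (mem_univ i)])
  let ε : Option (Fin (P.D - 1)) → B P ℚ := fun i =>
    match i with | none => 0 | some j => sm P (P.g ^ (j : ℕ)) e
  have rw' : ∀ i, Rel T (up P π) (up P γ) (ιQ P (w i)) (ε i) := fun i =>
    match i with
    | none => rv
    | some j => by
      have := rk.map (sm P (P.g ^ (j : ℕ))) (fun x hx => InR.sm _ hx) (sm_up _ _) (sm_up _ _)
      rwa [ιQ_apply, ← cB_sm] at this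
  have r1 := Rel.prod hγT hπT univ fun i _ => (rw' i).zpow hγT hπT _ hι (m i)
  rw [← map_prod, hm, map_one] at r1
  obtain ⟨F, hF, eF⟩ := r1.uniq fun x hx => up_cancel h0 (by rwa [map_mul])
  have hcm : ∀ i, c ∣ m (some i) := fun i => by
    have h1 := congrArg (lam P (μ i)) eF
    rw [Fintype.sum_option, lam_up_mul] at h1
    simp only [ε, mul_zero, zero_add, lam_sum, ← map_intCast (up P (A := ℚ)), lam_up_mul, el,
      mul_add, sum_add_distrib, mul_ite, mul_one, sum_ite_eq, mem_univ, if_true] at h1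
    refine hc _ ⟨lam P (μ i) F - ∑ j, m (some j) * h i j, ((inR_pi.1 hμ i).lam hF).sub
      (sum_mem (S := SubR R (G ℚ)) fun j _ =>
        (inR_intCast _).mul (inR_pi.1 (inR_pi.1 hh i) j)), ?_⟩
    rw [mul_sub, ← h1, mul_sum]
    simp only [mul_left_comm π]
    ring
  choose d hd using hcm
  have hco : IsCoprime (m none) c := by
    rw [Int.isCoprime_iff_gcd_eq_one, ← Int.natCast_inj, Nat.cast_one]
    refine Int.eq_one_of_dvd_one (by positivity) (hm2 ▸ dvd_gcd fun i _ => ?_)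
    rcases i with _ | i
    · exact Int.gcd_dvd_left _ _
    · exact (Int.gcd_dvd_right _ _).trans ⟨_, hd i⟩
  obtain ⟨x, y, hxy⟩ := hco
  set s := ∏ j, w (some j) ^ d j
  have hs : s ∈ U P := prod_mem fun j _ => zpow_mem (hw (some j)) (d j)
  have e1 : v ^ m none * s ^ c = 1 := by
    rw [← hm, Fintype.prod_option, ← prod_zpow]
    congr 1
    exact prod_congr rfl fun j _ => by rw [← zpow_mul, hd, mul_comm]
  refine ⟨s ^ (-x) * v ^ y, mul_mem (zpow_mem hs _) (zpow_mem hv _), ?_⟩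
  rw [mul_zpow, ← zpow_mul, ← zpow_mul, mul_comm (-x), zpow_mul,
    ← inv_eq_of_mul_eq_one_right e1, inv_zpow', neg_neg, ← zpow_mul, ← zpow_add, mul_comm _ x, hxy,
    zpow_one]

end Pool.Agent.MP_28f2cb_lc.H87
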