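import Pool.Agent.MP_28f2cb_lc.H87.Lin

/-! The special primes, Frobenius at the two primes above them, completeness of `Lin`. -/

namespace Pool.Agent.MP_28f2cb_lc.H87

open Finset
open AddMonoidAlgebra (single)
open scoped QuadraticAlgebra

variable {P : Par}

/-- The auxiliary primes. -/
def Special (P : Par) (l : ℕ) : Prop :=
  l.Prime ∧ l % 8 = 5 ∧ (l : ZMod P.q) = 1 ∧ Irreducible (Polynomial.cyclotomic P.D (ZMod l))

theorem exists_special (P : Par) (N : ℕ) : ∃ l > N, Special P l := by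
  obtain ⟨γ, hγ⟩ := IsCyclic.exists_generator (α := (ZMod P.D)ˣ)
  have hq2 : Nat.Coprime 8 P.q := Nat.Coprime.pow_left 3 (Nat.coprime_two_left.2 P.q_odd)
  have hD2 : Nat.Coprime 8 P.D := Nat.Coprime.pow_left 3 (Nat.coprime_two_left.2 P.D_odd)
  have hqD : Nat.Coprime P.q P.D := (Nat.coprime_primes P.hq P.hD).2 P.D_lt.ne'
  obtain ⟨a, ha1, ha2⟩ := Nat.chineseRemainder hq2 5 1
  obtain ⟨b, hb1, hb2⟩ := Nat.chineseRemainder (hD2.mul_left hqD) a (γ : ZMod P.D).val
  have c1 : b ≡ 5 [MOD 8] := (hb1.of_mul_right _).trans ha1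
  have c2 : b ≡ 1 [MOD P.q] := (hb1.of_mul_left _).trans ha2
  have hco : b.Coprime (8 * P.q * P.D) := by
    refine Nat.Coprime.mul_right (Nat.Coprime.mul_right ?_ ?_) ?_
    · rw [Nat.Coprime, c1.gcd_eq]; rfl
    · rw [Nat.Coprime, c2.gcd_eq]; simp
    · rw [Nat.Coprime, hb2.gcd_eq]; exact ZMod.val_coe_unit_coprime γ
  obtain ⟨l, h1, h2, h3⟩ := Nat.forall_exists_prime_gt_and_modEq (N + P.D)
    (mul_ne_zero (mul_ne_zero (by norm_num) P.hq.ne_zero) P.hD.ne_zero) hco
  have := Fact.mk h2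
  refine ⟨l, by omega, h2, ((h3.of_mul_right _).of_mul_right _).trans c1, ?_, ?_⟩
  · have := (ZMod.natCast_eq_natCast_iff _ _ _).2
      (((h3.of_mul_right _).of_mul_left _).trans c2)
    simpa using this
  · have hl : ¬ l ∣ P.D := fun h => by have := Nat.le_of_dvd P.hD.pos h; omega
    refine ZMod.irreducible_of_dvd_cyclotomic_of_natDegree hl dvd_rfl ?_
    have e : ZMod.unitOfCoprime l (h2.coprime_iff_not_dvd.2 hl) = γ := by
      ext
      have := (ZMod.natCast_eq_natCast_iff _ _ _).2 ((h3.of_mul_left _).trans hb2)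
      simpa using this
    rw [e, orderOf_eq_card_of_forall_mem_zpowers hγ, Polynomial.natDegree_cyclotomic,
      Nat.card_eq_fintype_card, ZMod.card_units_eq_totient]

theorem exists_pi {l : ℕ} (hl : l.Prime) (h4 : l % 4 ≠ 3) {ρ : ℤ} (hρ : (l : ℤ) ∣ ρ ^ 2 + 1) :
    ∃ π : G ℤ, π.norm = l ∧ π ∣ ⟨-1, ρ⟩ := by
  have := Fact.mk hl
  obtain ⟨a, b, hab⟩ := Nat.Prime.sq_add_sq h4
  have key : ∀ a b : ℤ, a ^ 2 + b ^ 2 = l → (l : ℤ) ∣ a - ρ * b →
      ∃ π : G ℤ, π.norm = l ∧ π ∣ ⟨-1, ρ⟩ := by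
    rintro a b hab ⟨s, hs⟩
    obtain ⟨t, ht⟩ := hρ
    have h0 : (l : ℤ) ≠ 0 := by exact_mod_cast hl.ne_zero
    refine ⟨⟨a, b⟩, by rw [G_norm_eq, hab], ⟨-s, b * t + s * ρ⟩, ?_⟩
    ext
    · apply mul_left_cancel₀ h0
      simp only [QuadraticAlgebra.re_mul]
      linear_combination hab - (a + b * ρ) * hs - b ^ 2 * ht
    · apply mul_left_cancel₀ h0
      simp only [QuadraticAlgebra.im_mul]
      linear_combination (-ρ) * hab + (a * ρ - b) * hs + a * b * ht
  have hab' : (a : ℤ) ^ 2 + b ^ 2 = l := by exact_mod_cast hab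
  have h1 : (l : ℤ) ∣ (a - ρ * b) * (a - ρ * (-b)) := by
    have : ((a : ℤ) - ρ * b) * (a - ρ * (-b)) = l - b ^ 2 * (ρ ^ 2 + 1) := by rw [← hab']; ring
    rw [this]; exact dvd_sub dvd_rfl (hρ.mul_left _)
  rcases (Nat.prime_iff_prime_int.1 hl).dvd_or_dvd h1 with h | h
  · exact key a b hab' h
  · exact key a (-b) (by rw [← hab']; ring) h

theorem G_dvd_norm (π : G ℤ) : π ∣ (π.norm : ℤ) := by
  have := QuadraticAlgebra.algebraMap_norm_eq_mul_star π
  exact ⟨star π, by simpa using this⟩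

theorem frob_special {l : ℕ} (h : Special P l) : ∃ π : G ℤ, π.norm = l ∧
    ∀ X : B P ℤ, up P π ∣ X ^ l - cj P X ∧ up P (star π) ∣ X ^ l - X := by
  obtain ⟨hl, h8, hq, -⟩ := h
  have := Fact.mk hl
  have hl2 : l ≠ 2 := by omega
  obtain ⟨k, hk⟩ : ∃ k, l = 8 * k + 5 := ⟨l / 8, by omega⟩
  have hρ : (l : ℤ) ∣ ((-1) ^ k * 2 ^ (2 * k + 1)) ^ 2 + 1 := by
    rw [← ZMod.intCast_zmod_eq_zero_iff_dvd]
    have h2 : (2 : ZMod l) ≠ 0 := fun h => hl2 ((Nat.prime_dvd_prime_iff_eq hl Nat.prime_two).1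
      ((ZMod.natCast_eq_zero_iff 2 l).1 (by exact_mod_cast h)))
    have h3 := (ZMod.pow_div_two_eq_neg_one_or_one l h2).resolve_left fun h => by
      have := (ZMod.exists_sq_eq_two_iff hl2).1 ((ZMod.euler_criterion l h2).2 h)
      omega
    rw [show l / 2 = (2 * k + 1) * 2 by omega] at h3
    push_cast
    rw [mul_pow, ← pow_mul, ← pow_mul, h3, mul_comm k, pow_mul]; simp
  obtain ⟨π, h1, h2⟩ := exists_pi hl (by omega) hρ
  set ρ : ℤ := (-1) ^ k * 2 ^ (2 * k + 1)
  have hi : iC ^ l = iC := by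
    rw [hk, show 8 * k + 5 = 4 * (2 * k + 1) + 1 by ring, pow_succ, pow_mul, iC_four]; simp
  have hw : wC ^ l = ρ * iC * wC := by
    rw [hk, show 8 * k + 5 = 4 * (2 * k + 1) + 1 by ring, pow_succ, pow_mul, wC_four, mul_pow,
      pow_succ iC, pow_mul iC, iC_sq]
    simp only [ρ]; push_cast; ring
  have lift : ∀ (r : G ℤ) (f : C ℤ →+* C ℤ), r.norm = l → f iC = iC →
      algebraMap (G ℤ) (C ℤ) r ∣ wC ^ l - f wC → ∀ X : B P ℤ, up P r ∣ X ^ l - gmap P f X :=
    fun r f hr f1 f2 X => by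
      have d0 := G_dvd_norm r
      rw [hr, Int.cast_natCast] at d0
      have d1 : algebraMap (G ℤ) (C ℤ) r ∣ l := by simpa using map_dvd (algebraMap (G ℤ) (C ℤ)) d0
      have d2 : up P r ∣ l := by simpa using map_dvd (up P) d0
      have hC : ∀ x, algebraMap (G ℤ) (C ℤ) r ∣ x ^ l - f x := fun x => by
        have := C_gen (frob _ hl hl2 1 d1 f) (by rw [mem_frob, pow_one, hi, f1]; simp)
          (by rwa [mem_frob, pow_one]) x
        rwa [mem_frob, pow_one] at this
      have := grp_gen (frob _ hl hl2 1 d2 (gmap P f)) (fun x => by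
        rw [mem_frob, pow_one, gmap_algebraMap, ← map_pow, ← map_sub, up_eq]
        exact map_dvd _ (hC x)) (fun a => by
        rw [mem_frob, pow_one, gmap_single, AddMonoidAlgebra.single_pow]; simp [hq]) X
      rwa [mem_frob, pow_one] at this
  refine ⟨star π, by simpa using h1, fun X => ⟨lift _ _ (by simpa using h1) ?_ ?_ X, ?_⟩⟩
  · rw [starRingEnd_apply]; ext <;> simp [iC]
  · have h3 := map_dvd (algebraMap (G ℤ) (C ℤ)) (map_dvd (starRingEnd (G ℤ)) h2)
    have : wC ^ l - starRingEnd (C ℤ) wC =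
        algebraMap (G ℤ) (C ℤ) (starRingEnd (G ℤ) ⟨-1, ρ⟩) * -wC := by
      rw [hw, starRingEnd_apply, starRingEnd_apply]; ext <;> simp [iC, wC]
    rw [this]; exact h3.mul_right _
  · have h3 := map_dvd (algebraMap (G ℤ) (C ℤ)) h2
    have := lift π (RingHom.id _) h1 rfl (by
      have : wC ^ l - RingHom.id (C ℤ) wC = algebraMap (G ℤ) (C ℤ) ⟨-1, ρ⟩ * wC := by
        rw [hw]; ext <;> simp [iC, wC]
      rw [this]; exact h3.mul_right _) X
    rwa [star_star, show gmap P (RingHom.id _) X = X from grp_ext fun a => by simp] at *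

theorem up_cancelZ {r : G ℤ} (hr : r ≠ 0) {X : B P ℤ} (h : up P r * X = 0) : X = 0 := by
  apply cB_inj
  rw [map_zero]
  refine up_cancel (r := cG r) (fun h0 => hr (cG_inj (by rw [h0, map_zero]))) ?_
  rw [← cB_up, ← map_mul, h, map_zero]

theorem G_mul_ne_zero {r s : G ℤ} (hr : r ≠ 0) (hs : s ≠ 0) : r * s ≠ 0 := fun h => by
  have := congrArg QuadraticAlgebra.norm h
  rw [map_mul, QuadraticAlgebra.norm_zero] at this
  nlinarith [G_norm_pos hr, G_norm_pos hs]

/-- Reduction modulo a Gaussian prime of prime norm. -/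
theorem exists_red {l : ℕ} (hl : l.Prime) {π : G ℤ} (hπ : π.norm = l) :
    ∃ ρ : G ℤ →+* ZMod l, ∀ x, ρ x = 0 ↔ π ∣ x := by
  have := Fact.mk hl
  rw [G_norm_eq] at hπ
  have hab : (π.re : ZMod l) ^ 2 + (π.im : ZMod l) ^ 2 = 0 := by
    have := congrArg (Int.cast : ℤ → ZMod l) hπ
    simpa using this
  have hb : (π.im : ZMod l) ≠ 0 := fun hb => by
    have ha : (π.re : ZMod l) = 0 := by simpa [hb] using hab
    obtain ⟨s, hs⟩ := (ZMod.intCast_zmod_eq_zero_iff_dvd _ _).1 ha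
    obtain ⟨t, ht⟩ := (ZMod.intCast_zmod_eq_zero_iff_dvd _ _).1 hb
    have h0 : (l : ℤ) ≠ 0 := by exact_mod_cast hl.ne_zero
    have : (l : ℤ) * (s ^ 2 + t ^ 2) = 1 :=
      mul_left_cancel₀ h0 (by rw [hs, ht] at hπ; linear_combination hπ)
    exact hl.ne_one (by exact_mod_cast Int.eq_one_of_mul_eq_one_right (by positivity) this)
  set r : ZMod l := -π.re / π.im
  have h1 : π.re + π.im * r = 0 := by simp only [r]; field_simp; ring
  have h2 : r * r = -1 := by simp only [r]; field_simp; linear_combination hab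
  let ρ : G ℤ →+* ZMod l :=
    { toFun x := x.re + x.im * r
      map_one' := by simp
      map_zero' := by simp
      map_mul' x y := by
        simp only [QuadraticAlgebra.re_mul, QuadraticAlgebra.im_mul]
        push_cast
        linear_combination (-(x.im : ZMod l) * y.im) * h2
      map_add' x y := by simp; ring }
  refine ⟨ρ, fun x => ⟨fun h => ?_, ?_⟩⟩
  · have h : x.re + x.im * r = 0 := h
    obtain ⟨s, hs⟩ := (ZMod.intCast_zmod_eq_zero_iff_dvd (π.re * x.re + π.im * x.im) l).1 (by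
      push_cast
      linear_combination (x.re : ZMod l) * h1 - π.im * r * h + π.im * x.im * h2)
    obtain ⟨t, ht⟩ := (ZMod.intCast_zmod_eq_zero_iff_dvd (π.re * x.im - π.im * x.re) l).1 (by
      push_cast
      linear_combination (x.im : ZMod l) * h1 - π.im * h)
    have h0 : (l : ℤ) ≠ 0 := by exact_mod_cast hl.ne_zero
    refine ⟨⟨s, t⟩, ?_⟩
    ext
    · apply mul_left_cancel₀ h0
      simp only [QuadraticAlgebra.re_mul]
      linear_combination (-x.re) * hπ + π.re * hs - π.im * ht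
    · apply mul_left_cancel₀ h0
      simp only [QuadraticAlgebra.im_mul]
      linear_combination (-x.im) * hπ + π.im * hs + π.re * ht
  · rintro ⟨y, rfl⟩
    rw [map_mul, show ρ π = 0 from h1, zero_mul]

open Polynomial in
theorem indep {K V : Type} [Field K] [AddCommGroup V] [Module K V] {D : ℕ} [Fact D.Prime]
    (hirr : Irreducible (cyclotomic D K)) (T : Module.End K V) {E : V} (h0 : E ≠ 0)
    (h : ∑ j ∈ range D, (T ^ j) E = 0) :
    LinearIndependent K fun j : Fin (D - 1) => (T ^ (j : ℕ)) E := by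
  rw [Fintype.linearIndependent_iff]
  intro c hc
  set p : K[X] := ∑ j : Fin (D - 1), monomial j (c j)
  have hp : p = 0 := by
    by_contra hp
    have hd : p.degree < (D - 1 : ℕ) := by
      simpa only [C_mul_X_pow_eq_monomial] using degree_sum_fin_lt c
    have hco : IsCoprime (cyclotomic D K) p := (hirr.coprime_iff_not_dvd).2 fun h => by
      have := degree_le_of_dvd h hp
      rw [degree_cyclotomic, Nat.totient_prime Fact.out] at this
      exact absurd hd (not_lt.2 this)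
    obtain ⟨a, b, e⟩ := hco
    have h1 : aeval T (cyclotomic D K) E = 0 := by simpa [cyclotomic_prime, LinearMap.sum_apply]
    have h2 : aeval T p E = 0 := by simpa [p, LinearMap.sum_apply, aeval_monomial] using hc
    have := congrArg (fun f => aeval T f E) e
    simp [h1, h2] at this
    exact h0 this.symm
  intro i
  have := congrArg (fun f => coeff f i) hp
  simpa [p, coeff_monomial, Fin.val_inj] using this

theorem dual {K α ι : Type} [Field K] [Fintype α] [Fintype ι] [DecidableEq ι] {v : ι → α → K}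
    (h : LinearIndependent K v) :
    ∃ w : ι → α → K, ∀ i j, ∑ a, w i a * v j a = if i = j then 1 else 0 := by
  classical
  obtain ⟨g, hg⟩ := LinearMap.exists_leftInverse_of_injective (Fintype.linearCombination K v)
    (LinearMap.ker_eq_bot.2 (h.fintypeLinearCombination_injective))
  refine ⟨fun i a => g (fun b => if a = b then 1 else 0) i, fun i j => ?_⟩
  have h1 := congrFun (LinearMap.congr_fun hg (Pi.single j 1)) i
  rw [LinearMap.comp_apply, Fintype.linearCombination_apply_single, one_smul,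
    LinearMap.pi_apply_eq_sum_univ] at h1
  simpa [mul_comm, Pi.single_apply] using h1

theorem lin_complete (R : Subring ℚ) {l : ℕ} (hl : Special P l) {π : G ℤ} (hπ : π.norm = l)
    {k : (B P ℤ)ˣ} (hk : k ∈ U P) (hk1 : k ≠ 1) (hd : up P π ∣ k.1 - 1) {m z : ℤ}
    (hmz : (l : ℤ) ∣ m - z) : Lin P R (cG π) (cB P k.1) (cB P (k ^ m).1) z := by
  have := Fact.mk hl.1
  have hπ0 : π ≠ 0 := fun h => hl.1.ne_zero (by simpa [h] using hπ.symm)
  have hfin : FiniteMultiplicity (up P π) (k.1 - 1) := by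
    by_contra hf
    rw [FiniteMultiplicity.not_iff_forall] at hf
    have key : ∀ y : G ℤ, (∀ n, π ^ n ∣ y) → y = 0 := fun y hy => by
      by_contra h0
      have h1 := map_dvd QuadraticAlgebra.norm (hy y.norm.toNat)
      rw [map_pow, hπ] at h1
      have h2 := Int.le_of_dvd (G_norm_pos h0) h1
      have h3 : y.norm.toNat < l ^ y.norm.toNat := Nat.lt_pow_self hl.1.one_lt
      zify at h3
      rw [Int.toNat_of_nonneg (G_norm_nonneg y)] at h3
      exact absurd h2 (not_le.2 h3)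
    simp only [← map_pow, up_dvd_iff] at hf
    exact hk1 (Units.ext (sub_eq_zero.1 (grp_ext fun a => QuadraticAlgebra.ext
      (key _ fun n => (hf n a).1) (key _ fun n => (hf n a).2))))
  obtain ⟨e, he, hne⟩ := hfin.exists_eq_pow_mul_and_not_dvd
  obtain ⟨v, hv⟩ : ∃ v, multiplicity (up P π) (k.1 - 1) = v + 1 :=
    Nat.exists_eq_succ_of_ne_zero (by rwa [Ne, multiplicity_eq_zero, not_not])
  rw [hv, pow_succ', ← map_pow] at he
  have hcan : ∀ x, up P π * up P (π ^ v) * x = 0 → x = 0 := fun x hx => by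
    rw [← map_mul, ← pow_succ'] at hx
    refine up_cancelZ (fun h => ?_) hx
    have := congrArg QuadraticAlgebra.norm h
    rw [map_pow, hπ, QuadraticAlgebra.norm_zero] at this
    exact hl.1.ne_zero (by exact_mod_cast pow_eq_zero_iff (Nat.succ_ne_zero v) |>.1 this)
  have rk : Rel ⊤ (up P π) (up P (π ^ v)) (Units.coeHom _ k) e :=
    ⟨e, trivial, eq_add_of_sub_eq' he, 0, trivial, by simp⟩
  obtain ⟨e', -, he', f, -, hf⟩ := 
    rk.zpow (Subring.mem_top _) (Subring.mem_top _) _ (fun _ => Subring.mem_top _) m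
  have r1 := Rel.prod (T := ⊤) trivial trivial (range P.D) fun j _ =>
    rk.map (sm P (P.g ^ j)) (fun _ _ => Subring.mem_top _) (sm_up _ _) (sm_up _ _)
  rw [Units.coeHom_apply, ← nrm, hk.2.2.1] at r1
  obtain ⟨F, -, hF⟩ := r1.uniq hcan
  obtain ⟨ρ, hρ⟩ := exists_red hl.1 hπ
  obtain ⟨u, a0, hu⟩ : ∃ (u : C ℤ) (a : ZMod P.q), ρ (u * e.coeff a).im ≠ 0 := by
    by_contra! h
    refine hne ((up_dvd_iff _ _).2 fun a => ⟨?_, ?_⟩)
    · simpa [wC] using (hρ _).1 (h wC a)
    · simpa using (hρ _).1 (h 1 a)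
  let φ : B P ℤ →+ (ZMod P.q → ZMod l) :=
    { toFun X a := ρ (u * X.coeff a).im
      map_zero' := by ext; simp
      map_add' X Y := by ext; simp [mul_add] }
  have hφ : ∀ X a, φ X a = ρ (u * X.coeff a).im := fun _ _ => rfl
  let T : Module.End (ZMod l) (ZMod P.q → ZMod l) :=
    LinearMap.funLeft _ _ fun a => (P.g⁻¹ : (ZMod P.q)ˣ) * a
  have hT : ∀ j : ℕ, φ (sm P (P.g ^ j) e) = (T ^ j) (φ e) := fun j => by
    induction j with
    | zero => simp
    | succ j ih =>
      rw [pow_succ' P.g, ← sm_sm, pow_succ' T, Module.End.mul_apply, ← ih]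
      funext a
      rw [hφ, coeff_sm]; rfl
  have hs : ∑ j ∈ range P.D, (T ^ j) (φ e) = 0 := by
    simp only [← hT]
    rw [← map_sum, hF]
    funext a
    rw [hφ, coeff_up_mul, mul_smul_comm, QuadraticAlgebra.im_smul, smul_eq_mul, map_mul,
      (hρ π).2 dvd_rfl, zero_mul]; rfl
  obtain ⟨w, hw⟩ := dual (indep hl.2.2.2 T (fun h => hu (congrFun h a0)) hs)
  let μ : Fin (P.D - 1) → B P ℤ := fun i =>
    .ofCoeff (Finsupp.equivFunOnFinite.symm fun a => ((w i (-a)).val : C ℤ) * u)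
  have hμ : ∀ i a, (μ i).coeff a = ((w i (-a)).val : C ℤ) * u := fun _ _ => rfl
  have hlam : ∀ i j : Fin (P.D - 1),
      π ∣ lam P (μ i) (sm P (P.g ^ (j : ℕ)) e) - if i = j then 1 else 0 := fun i j => by
    rw [← hρ, map_sub, sub_eq_zero, apply_ite ρ, map_one, map_zero, ← hw, ← hT, lam,
      coeff_mul_fin, ← Equiv.sum_comp (Equiv.neg _)]
    change ρ (QuadraticAlgebra.imₗ _ _ _) = _
    rw [map_sum, map_sum]
    refine sum_congr rfl fun a _ => ?_
    rw [hφ, hμ, mul_assoc, ← nsmul_eq_mul, map_nsmul, map_nsmul]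
    simp [QuadraticAlgebra.imₗ, mul_add]
  choose h hh using hlam
  obtain ⟨s, hs⟩ := hmz
  obtain ⟨π', hπ'⟩ := G_dvd_norm π
  refine ⟨cG (π ^ v), inR_cG _ _, cB P e, inR_cB _ _, cB P e', inR_cB _ _,
    cB P (f + up P π' * s * e), inR_cB _ _, fun i => cB P (μ i), inR_pi.2 fun i => inR_cB _ _,
    fun i j => cG (h i j), inR_pi.2 fun i => inR_pi.2 fun j => inR_cG _ _, ?_, ?_, ?_, ?_⟩
  · rw [eq_add_of_sub_eq' he]; simp [cB_up]
  · rw [Units.coeHom_apply] at he'
    rw [he']; simp [cB_up]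
  · rw [map_intCast, map_intCast, ← cB_up, ← map_intCast (cB P), ← map_mul, ← map_mul, ← map_sub]
    congr 1
    have h1 : (m : B P ℤ) - z = up P π * up P π' * s := by
      rw [← map_mul, ← hπ', hπ, map_intCast]; exact_mod_cast congrArg (Int.cast : ℤ → B P ℤ) hs
    linear_combination hf + e * h1
  · intro i j
    rw [← cB_sm, cB_lam, eq_add_of_sub_eq' (hh i j), map_add, map_mul, apply_ite cG]; simp

end Pool.Agent.MP_28f2cb_lc.H87
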