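import Pool.Agent.MP_28f2cb_lc.H87.Anchor
import Pool.Agent.MP_28f2cb_lc.H87.LinC

/-! The height bound, the congruence between index and value, and the final system. -/

namespace Pool.Agent.MP_28f2cb_lc.H87

open Finset

variable {P : Par}

/-- The vector whose norm bounds the height of `a / b`. -/
noncomputable def βh (P : Par) {k : Type} [CommRing k] (a b : k) : Grp P k :=
  algebraMap k _ (a ^ 2 + (P.q + 1) * b ^ 2) * (1 - sAll P) -
    algebraMap k _ (b ^ 2) * spread P (Pi.single 0 1)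

theorem gmap_eta {k k' : Type} [CommRing k] [CommRing k'] (f : k →+* k') :
    gmap P f (spread P (Pi.single 0 1)) = spread P (Pi.single 0 1) := grp_ext fun a => by
  simp only [coeff_gmap, coeff_spread, Pi.single_apply]
  split_ifs <;> simp

theorem c0_βh (a b : ℤ) : c0 P (βh P a b) = βh P (a : ℚ) b := by
  simp only [βh, c0, map_sub, gmap_algebraMap, gmap_eta, RingHom.map_mul (gmap P _), map_one,
    gmap_sAll]
  simp

theorem inv_βh {k : Type} [CommRing k] (a b : k) : Inv P (βh P a b) :=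
  ((inv_algebraMap _).mul (inv_one.sub inv_sAll)).sub ((inv_algebraMap _).mul (inv_spread _))

theorem coeff_βh {k : Type} [CommRing k] (a b : k) (t : ZMod P.q) : (βh P a b).coeff t =
    (a ^ 2 + (P.q + 1) * b ^ 2) * ((if t = 0 then 1 else 0) - 1) -
      b ^ 2 * (spread P (Pi.single 0 1 : ZMod P.D → k)).coeff t := by
  rw [βh, AddMonoidAlgebra.coeff_sub, Finsupp.sub_apply, coeff_algebraMap_mul,
    coeff_algebraMap_mul, AddMonoidAlgebra.coeff_sub, Finsupp.sub_apply, coeff_sAll,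
    AddMonoidAlgebra.one_def, AddMonoidAlgebra.coeff_single, Finsupp.single_apply]
  simp only [eq_comm]

theorem le_Nm_βh {a b : ℤ} (hb : b ≠ 0) : a ^ 2 + b ^ 2 ≤ |Nm P (βh P a b)| := by
  have h1 : (1 : ℝ) ≤ a ^ 2 + b ^ 2 := by
    have : 1 ≤ a ^ 2 + b ^ 2 := by have := sq_pos_of_ne_zero hb; nlinarith [sq_nonneg a]
    exact_mod_cast this
  have : ((a : ℝ) ^ 2 + b ^ 2) ^ P.D ≤ |((Nm P (βh P a b) : ℤ) : ℝ)| := by
    rw [abs_Nm (inv_βh a b)]
    refine le_trans (by rw [prod_const, card_range]) (prod_le_prod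
      (f := fun _ => (a : ℝ) ^ 2 + b ^ 2) (fun _ _ => by positivity) fun j _ => ?_)
    have h2 : ‖ev P (Int.castRingHom ℂ) ((χ0 P).mulShift (P.g ^ j : (ZMod P.q)ˣ))
        (spread P (Pi.single 0 1))‖ ≤ P.q := by
      refine (ev_le _ _ _).trans
        ((sum_le_sum (g := fun _ => (1 : ℝ)) fun t _ => ?_).trans (by simp [ZMod.card]))
      simp only [coeff_spread, Pi.single_apply]
      split_ifs <;> simp
    rw [βh, map_sub, map_mul, map_mul, map_sub, ev_algebraMap, ev_algebraMap,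
      ev_sAll _ (χ0_prim (P.g ^ j).ne_zero), map_one, sub_zero, mul_one]
    generalize ev P (Int.castRingHom ℂ) ((χ0 P).mulShift (P.g ^ j : (ZMod P.q)ˣ))
      (spread P (Pi.single 0 1)) = z at h2
    refine le_trans ?_ (norm_sub_norm_le _ _)
    rw [norm_mul, eq_intCast, eq_intCast, Complex.norm_intCast, Complex.norm_intCast]
    push_cast
    rw [abs_of_nonneg (by positivity), abs_of_nonneg (by positivity)]
    nlinarith [sq_nonneg (b : ℝ)]
  exact_mod_cast (le_self_pow₀ h1 P.hD.ne_zero).trans this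

/-- The norm of the height vector of `x` divides `y`. -/
def Height (P : Par) (R : Subring ℚ) (x y : ℚ) : Prop :=
  ∃ r : ℚ, InR R r ∧ y = Nm P (βh P x 1) * r

theorem dio_height {V : Type} [Coord V] {x y : V → ℚ} (h1 : PM x) (h2 : PM y) :
    Dio P.Ok fun R v => Height P R (x v) (y v) := by
  have k1 : InR ⊥ (1 : ℚ) := inR_one
  have k2 : InR ⊥ (P.q : ℚ) := inR_natCast _
  have k3 : InR ⊥ (sAll P : Grp P ℚ) := inR_grp.2 fun a => by simpa using k1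
  have k4 : InR ⊥ (spread P (Pi.single 0 1) : Grp P ℚ) :=
    gmap_eta (P := P) (Int.castRingHom ℚ) ▸ inR_c0 _ _
  have h3 : PM fun v => βh P (x v) 1 :=
    ((PM.algGrp (by fun_prop (disch := assumption))).mul (PM.const (inR_one.sub k3))).sub
      ((PM.algGrp (PM.const (k1.pow 2))).mul (PM.const k4))
  refine Dio.ex (Dio.eq (by fun_prop) (PM.mul (PM.Nm (h3.comp ?_)) ?_)) <;> fun_prop

theorem height_sound {R : Subring ℚ} (hR : P.Ok R) {x : ℚ} (hx : x ∈ R) {y : ℤ} (hy : y ≠ 0)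
    (h : Height P R x y) : x.num ^ 2 + x.den ^ 2 ≤ |y| := by
  obtain ⟨r, hr, e⟩ := h
  have hd : (x.den : ℚ) ≠ 0 := by positivity
  have hc : IsCoprime x.num x.den := Int.isCoprime_iff_gcd_eq_one.2 x.reduced
  have h1 : (x.den : ℚ)⁻¹ ∈ R := by
    obtain ⟨u, v, huv⟩ := hc
    have h2 : (u : ℚ) * x.num + v * x.den = 1 := by exact_mod_cast huv
    have : (x.den : ℚ)⁻¹ = u * x + v := by
      rw [← Rat.mul_den_eq_num] at h2
      exact inv_eq_of_mul_eq_one_right (by linear_combination h2)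
    rw [this]; exact add_mem (mul_mem (intCast_mem _ _) hx) (intCast_mem _ _)
  have h2 : βh P (x.num : ℚ) (x.den : ℤ) = algebraMap ℚ _ ((x.den : ℚ) ^ 2) * βh P x 1 := by
    rw [← Rat.mul_den_eq_num]
    simp only [βh, map_add, map_mul, map_pow, map_one, Int.cast_natCast]; ring
  refine (le_Nm_βh (P := P) (by positivity)).trans (Int.le_of_dvd (abs_pos.2 hy) ?_)
  rw [abs_dvd_abs]
  refine dvd_of_R hR (inv_βh _ _) (by simp [coeff_βh, spread_zero]) (fun p hp h => ?_)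
    (mul_mem (pow_mem (pow_mem h1 2) P.D) (inR_rat.1 hr)) ?_
  · have a1 := h (P.g ^ 0 : (ZMod P.q)ˣ)
    have a2 := h (P.g ^ 1 : (ZMod P.q)ˣ)
    rw [coeff_βh, spread_pow, if_neg (Units.ne_zero _)] at a1 a2
    simp only [Nat.cast_zero, Pi.single_eq_same, Nat.cast_one, ne_eq, one_ne_zero,
      not_false_eq_true, Pi.single_eq_of_ne] at a1 a2
    have hp' := Nat.prime_iff_prime_int.1 hp
    have b1 : (p : ℤ) ∣ (x.den : ℤ) ^ 2 := by simpa using a2.sub a1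
    have b2 : (p : ℤ) ∣ x.num ^ 2 := by
      simpa using a2.add (b1.mul_left (P.q + 1))
    exact hp'.not_isUnit (hc.isUnit_of_dvd' (hp'.dvd_of_dvd_pow b2) (hp'.dvd_of_dvd_pow b1))
  · rw [← c0_Nm, c0_βh, h2, Nm_smul, e, inv_pow, inv_pow]
    field_simp

theorem sz_nonneg (X : B P ℤ) : 0 ≤ sz P X := sum_nonneg fun _ _ => by unfold szC; positivity

theorem sz_eq_zero {X : B P ℤ} (h : sz P X = 0) : X = 0 := grp_ext fun a => by
  have := (sum_eq_zero_iff_of_nonneg fun _ _ => by unfold szC; positivity).1 h a (mem_univ a)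
  rw [szC_eq] at this
  have h1 := G_norm_nonneg (X.coeff a).re
  have h2 := G_norm_nonneg (X.coeff a).im
  exact QuadraticAlgebra.ext (by_contra fun h0 => by linarith [G_norm_pos h0])
    (by_contra fun h0 => by linarith [G_norm_pos h0])

theorem sz_natMul (n : ℕ) (X : B P ℤ) : sz P ((n : B P ℤ) * X) = n ^ 2 * sz P X := by
  simp only [sz, ← map_natCast (algebraMap (C ℤ) (B P ℤ)), coeff_algebraMap_mul, mul_sum]
  exact sum_congr rfl fun a _ => by simp [szC]; ring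

theorem height_complete {u : (B P ℤ)ˣ} (hu : u ∈ U P) (h1 : u ≠ 1) (x : ℤ) :
    ∃ y ∈ U P, sz P (y.1 - 1) ≠ 0 ∧ ∀ R, Height P R x (sz P (y.1 - 1) : ℤ) := by
  have h0 : Nm P (βh P x 1) ≠ 0 := fun h => by
    have := le_Nm_βh (P := P) (a := x) one_ne_zero
    rw [h] at this; simp at this; nlinarith
  obtain ⟨N, hN, e, he⟩ := exists_pow_one u (Int.natAbs_ne_zero.2 h0)
  refine ⟨u ^ N, pow_mem hu N, fun h => h1 (U.torsionFree hu (n := N) (by omega)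
    (by rw [zpow_natCast]; exact Units.ext (sub_eq_zero.1 (sz_eq_zero h)))), fun R =>
    ⟨(Nm P (βh P x 1) * sz P e : ℤ), inR_intCast _, ?_⟩⟩
  have := c0_βh (P := P) x 1
  rw [Int.cast_one] at this
  rw [he, sz_natMul, ← this, c0_Nm, Int.natAbs_sq]
  push_cast; ring

/-- The index `w` is `2 x` times the index `u` modulo `π`. -/
def Cong (P : Par) (u : B P ℚ) (R : Subring ℚ) (x : ℚ) (w : B P ℚ) (π : G ℚ) : Prop :=
  ∃ k : B P ℚ, InR R k ∧ ∃ n₁ : B P ℚ, InR R n₁ ∧ ∃ n₂ : B P ℚ, InR R n₂ ∧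
    IsU P R k ∧ IsU P R n₁ ∧ IsU P R n₂ ∧ Lin P R π k n₁ 0 ∧ Lin P R π k n₂ 0 ∧
    Lin P R (star π) (u ^ 2 * n₁) (w * n₂) x

theorem dio_cong {V : Type} [Coord V] {u : B P ℚ} (hu : InR ⊥ u) {x : V → ℚ} {w : V → B P ℚ}
    {π : V → G ℚ} (h1 : PM x) (h2 : PM w) (h3 : PM π) :
    Dio P.Ok fun R v => Cong P u R (x v) (w v) (π v) := by
  refine Dio.ex (Dio.ex (Dio.ex (Dio.and (dio_isU ?_) (Dio.and (dio_isU ?_) (Dio.and (dio_isU ?_)
    (Dio.and (dio_lin ?_ ?_ ?_ (PM.const inR_zero)) (Dio.and (dio_lin ?_ ?_ ?_ (PM.const inR_zero))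
    (dio_lin (PM.star ?_) (PM.mul (PM.const (hu.pow 2)) ?_) ?_ ?_)))))))) <;> fun_prop

theorem cong_sound {R : Subring ℚ} (hR : P.Ok R) {u w : (B P ℤ)ˣ} (hu : u ∈ U P) (hw : w ∈ U P)
    {π : G ℚ} (hπ : InR R π) {x : ℚ} {a b : ℤ} (hx : b * x = a) {c : ℤ}
    (hc : ∀ m : ℤ, (∃ r, InR R r ∧ (m : G ℚ) = π * r) → c ∣ m)
    (h : Cong P (cB P u.1) R x (cB P w.1) π) : ∃ t ∈ U P, w ^ b * u ^ (-(2 * a)) = t ^ c := by
  obtain ⟨k, -, n₁, -, n₂, -, k1, k2, k3, l1, l2, l3⟩ := h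
  obtain ⟨k, hk, rfl⟩ := isU_sound hR k1
  obtain ⟨n₁, h1, rfl⟩ := isU_sound hR k2
  obtain ⟨n₂, h2, rfl⟩ := isU_sound hR k3
  obtain ⟨t₁, g1, e1⟩ := lin_sound hπ hk h1 (a := 0) (b := 1) (by simp) hc l1
  obtain ⟨t₂, g2, e2⟩ := lin_sound hπ hk h2 (a := 0) (b := 1) (by simp) hc l2
  rw [← map_pow, ← map_mul, ← map_mul, ← Units.val_pow_eq_pow_val, ← Units.val_mul,
    ← Units.val_mul] at l3
  obtain ⟨t₃, g3, e3⟩ := lin_sound hπ.star (mul_mem (pow_mem hu 2) h1) (mul_mem hw h2) hx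
    (c := c) (fun m ⟨r, hr, e⟩ => hc m ⟨star r, hr.star, by
      have := congrArg star e
      rwa [star_intCast, star_mul', star_star] at this⟩) l3
  simp only [zpow_one, neg_zero, zpow_zero, mul_one] at e1 e2
  refine ⟨t₃ * t₂ ^ (-b) * t₁ ^ a, mul_mem (mul_mem g3 (zpow_mem g2 _)) (zpow_mem g1 _), ?_⟩
  rw [mul_zpow, mul_zpow, ← e3, ← zpow_mul, ← zpow_mul, mul_comm (-b), mul_comm a, zpow_mul,
    zpow_mul, ← e1, ← e2, mul_zpow, mul_zpow, ← zpow_natCast, ← zpow_mul]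
  simp only [zpow_neg, Nat.cast_ofNat, mul_neg]
  rw [eq_comm, mul_mul_mul_comm, mul_assoc, mul_assoc, mul_comm _ (_ * n₁ ^ a)]
  simp [mul_assoc]

theorem cong_complete (R : Subring ℚ) {u : (B P ℤ)ˣ} (hu : u ∈ U P) (h1 : u ≠ 1) {l : ℕ}
    (hl : Special P l) : ∃ π : G ℤ, π.norm = l ∧
      ∀ x : ℤ, Cong P (cB P u.1) R x (cB P (u ^ (2 * x)).1) (cG π) := by
  obtain ⟨π, hπ, hF⟩ := frob_special hl
  refine ⟨π, hπ, fun x => ?_⟩
  have hl2 := hl.1.two_le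
  have hk : u ^ (l + 1) ∈ U P := pow_mem hu _
  have hk1 : u ^ (l + 1) ≠ 1 := fun h => h1 (U.torsionFree hu (n := (l + 1 : ℕ)) (by omega)
    (by rw [zpow_natCast, h]))
  have hd : up P π ∣ (u ^ (l + 1)).1 - 1 := by
    have := (hF u.1).1.mul_right u.1
    rwa [sub_mul, mul_comm (cj P _), hu.2.1, ← pow_succ] at this
  set M := (u⁻¹) ^ ((l - 1) * (l + 2)) with hM
  have hM1 : M ∈ U P := pow_mem (inv_mem hu) _
  have hM2 : M ≠ 1 := fun h => h1 (inv_eq_one.1 (U.torsionFree (inv_mem hu)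
    (n := ((l - 1) * (l + 2) : ℕ)) (by
      exact_mod_cast mul_ne_zero (by omega) (by omega)) (by rw [zpow_natCast, ← hM, h])))
  have hd' : up P (star π) ∣ M.1 - 1 := by
    have := (hF (u⁻¹).1).2.mul_right u.1
    have e : (u⁻¹).1 ^ l * u.1 = (u⁻¹).1 ^ (l - 1) := by
      conv_lhs => rw [show l = l - 1 + 1 by omega, pow_succ, mul_assoc, u.inv_mul, mul_one]
    rw [sub_mul, e, u.inv_mul] at this
    rw [hM, Units.val_pow_eq_pow_val, pow_mul]
    exact this.trans (sub_one_dvd_pow_sub_one _ _)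
  have e1 : u ^ 2 * (u ^ (l + 1)) ^ (-(l : ℤ)) = M := by
    rw [hM, inv_pow, ← zpow_natCast, ← zpow_natCast, ← zpow_natCast, ← zpow_mul, ← zpow_add,
      ← zpow_neg]
    congr 1
    push_cast [show 1 ≤ l by omega]; ring
  have e2 : u ^ (2 * x) * (u ^ (l + 1)) ^ (-(l : ℤ) * x) = M ^ x := by
    rw [← e1, mul_zpow, zpow_mul, zpow_mul]; rfl
  refine ⟨_, inR_cB _ _, _, inR_cB _ _, _, inR_cB _ _, isU_complete R hk,
    isU_complete R (zpow_mem hk (-(l : ℤ))), isU_complete R (zpow_mem hk (-(l : ℤ) * x)),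
    by simpa using lin_complete R hl hπ hk hk1 hd (m := -(l : ℤ)) (z := 0) (by simp),
    by simpa using lin_complete R hl hπ hk hk1 hd (m := -(l : ℤ) * x) (z := 0) (by simp), ?_⟩
  rw [← map_pow, ← map_mul, ← map_mul, ← Units.val_pow_eq_pow_val, ← Units.val_mul,
    ← Units.val_mul, e1, e2, ← cG_star]
  exact lin_complete R hl (by simpa using hπ) hM1 hM2 hd' (by simp)

/-- The whole system. -/
def Sys (P : Par) (u : B P ℚ) (R : Subring ℚ) (x : ℚ) : Prop :=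
  ∃ y : B P ℚ, InR R y ∧ ∃ w : B P ℚ, InR R w ∧ ∃ π : G ℚ, InR R π ∧ ∃ π' : G ℚ, InR R π' ∧
    IsU P R y ∧ IsU P R w ∧ sz P (y - 1) ≠ 0 ∧ Height P R x (sz P (y - 1)) ∧
    Cong P u R x w π ∧ Cong P u R x w π' ∧
    Two P R π.norm π'.norm (sz P (y - 1) * (2 * P.D * (sz P w + 2 * sz P u)))

theorem dio_sys {V : Type} [Coord V] {u : B P ℚ} (hu : InR ⊥ u) {x : V → ℚ} (h1 : PM x) :
    Dio P.Ok fun R v => Sys P u R (x v) := by
  have k1 : InR ⊥ (1 : B P ℚ) := inR_one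
  have k2 : InR ⊥ (2 : ℚ) := inR_ofNat 2
  have k3 : InR ⊥ (P.D : ℚ) := inR_natCast _
  have k4 : InR ⊥ (sz P u) := PM.id.sz.inR hu
  refine Dio.ex (Dio.ex (Dio.ex (Dio.ex (Dio.and (dio_isU ?_) (Dio.and (dio_isU ?_)
    (Dio.and (Dio.ne P.q_odd P.ok_noInv ?_) (Dio.and (dio_height ?_ ?_)
    (Dio.and (dio_cong hu ?_ ?_ ?_) (Dio.and (dio_cong hu ?_ ?_ ?_)
    (dio_two (PM.norm ?_) (PM.norm ?_) ?_)))))))))) <;> fun_prop (disch := assumption)

theorem sys_complete (R : Subring ℚ) {u : (B P ℤ)ˣ} (hu : u ∈ U P) (h1 : u ≠ 1) (x : ℤ) :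
    Sys P (cB P u.1) R x := by
  obtain ⟨y, hy, h2, h3⟩ := height_complete hu h1 x
  have e : sz P (cB P y.1 - 1) = ((sz P (y.1 - 1) : ℤ) : ℚ) := by
    rw [← cB_sz, map_sub, map_one]
  obtain ⟨l, l', hl, hl', h4⟩ := two_complete (exists_special P) (fun l h => ⟨h.1, h.2.2.1⟩)
    (sz P (cB P y.1 - 1) * (2 * P.D * (sz P (cB P (u ^ (2 * x)).1) + 2 * sz P (cB P u.1))))
  obtain ⟨π, e1, c1⟩ := cong_complete R hu h1 hl
  obtain ⟨π', e2, c2⟩ := cong_complete R hu h1 hl'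
  refine ⟨_, inR_cB _ _, _, inR_cB _ _, _, inR_cG _ _, _, inR_cG _ _, isU_complete R hy,
    isU_complete R (zpow_mem hu (2 * x)), by rw [e]; exact_mod_cast h2, e ▸ h3 R, c1 x, c2 x, ?_⟩
  rw [cG_norm, cG_norm, e1, e2]
  exact h4 R

theorem exists_gen {R : Subring ℚ} (π : G ℚ) : ∃ c : ℤ, (∃ r, InR R r ∧ (c : G ℚ) = π * r) ∧
    ∀ m : ℤ, (∃ r, InR R r ∧ (m : G ℚ) = π * r) → c ∣ m := by
  let I : Ideal ℤ :=
    { carrier := {m | ∃ r, InR R r ∧ (m : G ℚ) = π * r}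
      zero_mem' := ⟨0, inR_zero, by simp⟩
      add_mem' := by
        rintro a b ⟨r, hr, e⟩ ⟨s, hs, e'⟩
        exact ⟨r + s, hr.add hs, by rw [Int.cast_add, e, e', mul_add]⟩
      smul_mem' := by
        rintro c a ⟨r, hr, e⟩
        exact ⟨c * r, (inR_intCast c).mul hr, by rw [smul_eq_mul, Int.cast_mul, e]; ring⟩ }
  exact ⟨Submodule.IsPrincipal.generator I, Submodule.IsPrincipal.generator_mem I,
    fun m hm => (Submodule.IsPrincipal.mem_iff_generator_dvd I).1 hm⟩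

theorem sys_sound {R : Subring ℚ} (hR : P.Ok R) {u : (B P ℤ)ˣ} (hu : u ∈ U P) (h1 : u ≠ 1)
    {x : ℚ} (hx : x ∈ R) (h : Sys P (cB P u.1) R x) : (x.den : ℝ) ≤ 2 * Λ P u := by
  obtain ⟨y, -, w, -, π, hπ, π', hπ', k1, k2, h2, h3, c1, c2, h4⟩ := h
  obtain ⟨y, hy, rfl⟩ := isU_sound hR k1
  obtain ⟨w, hw, rfl⟩ := isU_sound hR k2
  have e : sz P (cB P y.1 - 1) = ((sz P (y.1 - 1) : ℤ) : ℚ) := by
    rw [← cB_sz, map_sub, map_one]
  rw [e] at h2 h3 h4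
  rw [cB_sz, cB_sz] at h4
  have h5 := height_sound hR hx (by exact_mod_cast h2) h3
  rw [abs_of_nonneg (sz_nonneg _)] at h5
  generalize sz P (y.1 - 1) = Y at h2 h3 h4 h5
  have hb : ((x.den : ℤ) : ℚ) * x = x.num := by exact_mod_cast Rat.den_mul_eq_num x
  obtain ⟨c, ⟨r, hr, ec⟩, hc⟩ := exists_gen (R := R) π
  obtain ⟨c', ⟨r', hr', ec'⟩, hc'⟩ := exists_gen (R := R) π'
  obtain ⟨t, ht, et⟩ := cong_sound hR hu hw hπ hb hc c1
  obtain ⟨t', ht', et'⟩ := cong_sound hR hu hw hπ' hb hc' c2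
  have key : ∀ t ∈ U P, ∀ c : ℤ, w ^ (x.den : ℤ) * u ^ (-(2 * x.num)) = t ^ c →
      (Y * (2 * P.D * ((sz P w.1 : ℤ) + 2 * (sz P u.1 : ℤ))) : ℚ) < |(c : ℚ)| →
      w ^ (x.den : ℤ) * u ^ (-(2 * x.num)) = 1 := fun t ht c e hlt => by
    by_contra h0
    have a0 : t ≠ 1 := by rintro rfl; exact h0 (by rw [e, one_zpow])
    have a1 := U.one_le_Λ ht a0
    have a2 := Λ_mul (w ^ (x.den : ℤ)) (u ^ (-(2 * x.num)))
    rw [e, Λ_zpow, Λ_zpow, Λ_zpow] at a2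
    have a3 := U.Λ_le hw
    have a4 := U.Λ_le hu
    have a5 : (Y * (2 * P.D * ((sz P w.1 : ℤ) + 2 * (sz P u.1 : ℤ))) : ℝ) < |(c : ℝ)| := by
      exact_mod_cast hlt
    have a6 : |((x.den : ℤ) : ℝ)| ≤ Y := by
      have : |(x.den : ℤ)| ≤ Y := by nlinarith [Int.le_self_sq |(x.den : ℤ)|, sq_abs (x.den : ℤ)]
      exact_mod_cast this
    have a7 : |((-(2 * x.num) : ℤ) : ℝ)| ≤ 2 * Y := by
      have : |-(2 * x.num)| ≤ 2 * Y := by
        rw [abs_neg, abs_mul, abs_two]; nlinarith [Int.le_self_sq |x.num|, sq_abs x.num]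
      exact_mod_cast this
    have a8 := mul_le_mul a6 a3 (Λ_nonneg _) ((abs_nonneg _).trans a6)
    have a9 := mul_le_mul a7 a4 (Λ_nonneg _) ((abs_nonneg _).trans a7)
    nlinarith [abs_nonneg (c : ℝ)]
  have nm : ∀ (π r : G ℚ) (c : ℤ), (c : G ℚ) = π * r → (c : ℚ) ^ 2 = π.norm * r.norm :=
    fun π r c e => by rw [← map_mul, ← e]; simp
  have h6 : w ^ (x.den : ℤ) * u ^ (-(2 * x.num)) = 1 := by
    by_cases h0 : c = 0
    · rw [et, h0, zpow_zero]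
    by_cases h0' : c' = 0
    · rw [et', h0', zpow_zero]
    exact (two_sound hR h4 h0 h0' (inR_rat.1 (PM.id.norm.inR hr)) (inR_rat.1 (PM.id.norm.inR hr'))
      (nm _ _ _ ec) (nm _ _ _ ec')).elim (key t ht c et) (key t' ht' c' et')
  obtain ⟨a, b, hab⟩ : IsCoprime x.num x.den := Int.isCoprime_iff_gcd_eq_one.2 x.reduced
  have h7 : (w ^ a * u ^ (2 * b)) ^ (x.den : ℤ) = u ^ (2 : ℤ) := by
    rw [zpow_neg, mul_inv_eq_one] at h6
    rw [mul_zpow, ← zpow_mul, mul_comm a, zpow_mul, h6, ← zpow_mul, ← zpow_mul, ← zpow_add]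
    congr 1
    linear_combination 2 * hab
  have h8 : w ^ a * u ^ (2 * b) ≠ 1 := fun h0 =>
    h1 (U.torsionFree hu two_ne_zero (by rw [← h7, h0, one_zpow]))
  have h9 := U.one_le_Λ (mul_mem (zpow_mem hw a) (zpow_mem hu (2 * b))) h8
  have h10 := congrArg (Λ P) h7
  rw [Λ_zpow, Λ_zpow] at h10
  simp only [Int.cast_natCast, Nat.abs_cast, Int.cast_ofNat, Nat.abs_ofNat] at h10
  nlinarith [(Nat.cast_nonneg x.den : (0 : ℝ) ≤ x.den)]

theorem dio_int (P : Par) : Dio P.Ok fun _ (x : ℚ) => ∃ k : ℤ, x = k := by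
  obtain ⟨u, hu, h1⟩ := exists_U P
  obtain ⟨N, hN⟩ := exists_nat_gt (2 * Λ P u)
  refine (dio_sys (inR_cB ⊥ u.1) (PM.id.pow N)).congr fun R hR x hx => ⟨?_, fun h => ?_⟩
  · rintro ⟨k, rfl⟩
    exact_mod_cast sys_complete R hu h1 (k ^ N)
  · have h2 := (sys_sound hR hu h1 (pow_mem (inR_rat.1 hx) N) h).trans_lt hN
    rw [Rat.den_pow, Nat.cast_lt] at h2
    refine ⟨x.num, ((Rat.den_eq_one_iff x).1 ?_).symm⟩
    by_contra h0
    exact absurd h2 (not_lt.2 (Nat.lt_pow_self (by have := x.den_pos; omega)).le)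

end Pool.Agent.MP_28f2cb_lc.H87
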